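import Pool.Agent.Helper1.TL.Wd

namespace Pool.Agent.Helper1.TL

set_option maxHeartbeats 400000

open Finset
open Pool.Agent.Helper1.JD (A Kl)

theorem hb_cases {P : HV Bool Empty → Prop} (h : ∀ b k, P (Sum.inl (b, k))) (x) : P x := by
  rcases x with ⟨b, k⟩ | j
  · exact h b k
  · exact j.elim

/-- theta -/
def thF : HV Bool Empty → HV Bool Empty
  | Sum.inl (b, k) => Sum.inl (!b, k)
  | Sum.inr j => j.elim

theorem thF_invol (x) : thF (thF x) = x := by
  induction x using hb_cases with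
  | h b k => simp [thF]

/-- theta -/
def thi : Equiv.Perm (HV Bool Empty) := ⟨thF, thF, thF_invol, thF_invol⟩

/-- theta -/
def th : Dg := ⟨Bool, Empty, inferInstance, inferInstance, thi,
  fun k => Sum.inl (true, k), fun k => Sum.inl (false, k)⟩

theorem th_apply (b : Bool) (k : Fin 3) : th.ι (Sum.inl (b, k)) = Sum.inl (!b, k) := rfl

/-- dumbbell -/
def dbF : HV Bool Empty → HV Bool Empty
  | Sum.inl (b, 0) => Sum.inl (!b, 0)
  | Sum.inl (b, 1) => Sum.inl (b, 2)
  | Sum.inl (b, 2) => Sum.inl (b, 1)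
  | Sum.inr j => j.elim

theorem dbF_invol (x) : dbF (dbF x) = x := by
  induction x using hb_cases with
  | h b k => fin_cases k <;> simp [dbF]

/-- dumbbell -/
def dbi : Equiv.Perm (HV Bool Empty) := ⟨dbF, dbF, dbF_invol, dbF_invol⟩

/-- dumbbell -/
def db : Dg := ⟨Bool, Empty, inferInstance, inferInstance, dbi,
  ![Sum.inl (false, 0), Sum.inl (false, 1), Sum.inl (true, 1)],
  ![Sum.inl (true, 0), Sum.inl (false, 2), Sum.inl (true, 2)]⟩

theorem val_b {ι : Equiv.Perm (HV Bool Empty)} (h1 : ∀ x, ι (ι x) = x) (h2 : ∀ x, ι x ≠ x)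
    (k k' : Fin 3) (h3 : ι (Sum.inl (true, k)) = Sum.inl (false, k')) : Val ι := by
  refine ⟨h1, h2, ?_⟩
  intro P hP1 hP2 hne
  have h4 : ι (Sum.inl (false, k')) = Sum.inl (true, k) := by rw [← h3, h1]
  have t : Sum.inl (true, k) ∈ P → ∀ x, x ∈ P := by
    intro ht x
    induction x using hb_cases with
    | h b m =>
      cases b
      · have := hP1 _ ht
        rw [h3] at this
        exact hP2 _ _ _ this
      · exact hP2 _ _ _ ht
  obtain ⟨x, hx⟩ := hne
  apply t
  induction x using hb_cases with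
  | h b m =>
    cases b
    · have := hP1 _ (hP2 _ _ k' hx)
      rwa [h4] at this
    · exact hP2 _ _ _ hx

theorem val_th : Val th.ι := by
  refine val_b thF_invol ?_ 0 0 rfl
  intro x
  induction x using hb_cases with
  | h b k =>
    intro e
    have := (Prod.mk.inj (Sum.inl_injective e)).1
    cases b <;> cases this

theorem val_db : Val db.ι := by
  refine val_b dbF_invol ?_ 0 0 rfl
  intro x
  induction x using hb_cases with
  | h b k =>
    intro e
    fin_cases k
    · have := (Prod.mk.inj (Sum.inl_injective e)).1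
      cases b <;> cases this
    · have := (Prod.mk.inj (Sum.inl_injective e)).2
      cases this
    · have := (Prod.mk.inj (Sum.inl_injective e)).2
      cases this

theorem any_th : Any th := by
  apply Any.base val_th
  intro x
  induction x using hb_cases with
  | h b k =>
    refine ⟨k, ?_⟩
    cases b
    · right; rfl
    · left; rfl

theorem any_db : Any db := by
  apply Any.base val_db
  intro x
  induction x using hb_cases with
  | h b k =>
    cases b <;> fin_cases k
    · exact ⟨0, Or.inl rfl⟩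
    · exact ⟨1, Or.inl rfl⟩
    · exact ⟨1, Or.inr rfl⟩
    · exact ⟨0, Or.inr rfl⟩
    · exact ⟨2, Or.inl rfl⟩
    · exact ⟨2, Or.inr rfl⟩

theorem th_o (k : Fin 3) : th.o k = th.ι (th.p k) := rfl

theorem db_o (k : Fin 3) : db.o k = db.ι (db.p k) := by
  fin_cases k <;> rfl

theorem th_sw : Tr 1 1 th th.sw := by
  refine ⟨Equiv.boolNot, Equiv.refl _, fun _ => 1, ?_, fun _ => rfl, fun _ => rfl, ?_⟩
  · symm
    apply cj_eq_of
    intro x
    change HV Bool Empty at x
    induction x using hb_cases with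
    | h b k => rfl
  · exact Finset.prod_eq_one fun _ _ => map_one _

theorem th_perm (π : Equiv.Perm (Fin 3)) : Tr π 1 th th := by
  refine ⟨Equiv.refl _, Equiv.refl _, fun _ => π, ?_, fun _ => rfl, fun _ => rfl, ?_⟩
  · symm
    apply cj_eq_of
    intro x
    change HV Bool Empty at x
    induction x using hb_cases with
    | h b k => rfl
  · show ∏ _i : Bool, Equiv.Perm.sign π = 1
    rw [Fintype.prod_bool]
    exact Int.units_mul_self _

section
variable {d : ℕ} {H : AddSubgroup A}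

theorem card_th (w : List (Fin 3)) : Nat.card (th.adds w).V = 2 + w.length ∧
    Nat.card (th.adds w).L = w.length := by
  obtain ⟨h1, h2⟩ := card_adds th w
  have a1 : Nat.card th.V = 2 := by
    show Nat.card Bool = 2
    simp
  have a2 : Nat.card th.L = 0 := by
    show Nat.card Empty = 0
    simp
  rw [h1, h2, a1, a2]
  exact ⟨rfl, by ring⟩

theorem card_db (w : List (Fin 3)) : Nat.card (db.adds w).V = 2 + w.length ∧
    Nat.card (db.adds w).L = w.length := by
  obtain ⟨h1, h2⟩ := card_adds db w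
  have a1 : Nat.card db.V = 2 := by
    show Nat.card Bool = 2
    simp
  have a2 : Nat.card db.L = 0 := by
    show Nat.card Empty = 0
    simp
  rw [h1, h2, a1, a2]
  exact ⟨rfl, by ring⟩

theorem sz_th (hd : 2 ≤ d) (hH : Kl d (d - 2) ≤ H) {w : List (Fin 3)} (hw : w.length + 1 = d) :
    Sz d H (th.adds w).V (th.adds w).L := by
  obtain ⟨h1, h2⟩ := card_th w
  refine ⟨by rw [h1, h2]; omega, by rw [h2]; omega, ?_⟩
  rw [h2]
  have : w.length - 1 = d - 2 := by omega
  rw [this]
  exact hH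

theorem sz_add {D : Dg} {k : Fin 3} (h : Sz d H (D.add k).V (D.add k).L) :
    Sz d H (Option D.V) (Option D.L) := h

theorem mark_th (w : List (Fin 3)) : ∃ v : (th.adds w).V, ∀ k, (th.adds w).p k = Sum.inl (v, k) := by
  induction w with
  | nil => exact ⟨true, fun _ => rfl⟩
  | cons k w ih =>
    obtain ⟨v, hv⟩ := ih
    refine ⟨some v, fun m => ?_⟩
    show em ((th.adds w).p m) = _
    rw [hv]
    rfl

/-- the relation at a vertex of theta -/
theorem th_e1 {w : List (Fin 3)} (hs : Sz d H (Option (th.adds w).V) (Option (th.adds w).L)) :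
    ∑ k : Fin 3, q H (th.adds (k :: w)).ι = 0 := by
  obtain ⟨v, hv⟩ := mark_th w
  rw [Fin.sum_univ_three]
  have := r3 hs (Dg.val_adds val_th w) v
  rw [← hv, ← hv, ← hv] at this
  exact this

theorem th_q_perm {w w' : List (Fin 3)} (hs : Sz d H (th.adds w).V (th.adds w).L)
    (h : w.Perm w') : q H (th.adds w').ι = q H (th.adds w).ι := by
  rw [(adds_perm th h).q hs (Dg.val_adds val_th w)]
  simp

theorem th_q_map {w : List (Fin 3)} (hs : Sz d H (th.adds w).V (th.adds w).L)
    (π : Equiv.Perm (Fin 3)) : q H (th.adds (w.map π)).ι = q H (th.adds w).ι := by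
  rw [((th_perm π).adds w).q hs (Dg.val_adds val_th w)]
  simp

theorem th_q_rev {w : List (Fin 3)} (hs : Sz d H (th.adds w).V (th.adds w).L) (hw : Odd w.length) :
    (2 : ℤ) • q H (th.adds w).ι = 0 := by
  have h := (reversal val_th th_o th_sw w).q hs (Dg.val_adds val_th w)
  rw [hw.neg_one_pow] at h
  have h' : q H (th.adds w).ι = ((-1 : ℤˣ) : ℤ) • q H (th.adds w).ι := h
  have e : q H (th.adds w).ι = - q H (th.adds w).ι := by
    simpa using h'
  rw [two_zsmul]
  nth_rewrite 1 [e]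
  exact neg_add_cancel _

end

/-! ### links -/

/-- obtained from the base `B` by insertions -/
def Lk (B : Dg) {V L : Type} (ι : Equiv.Perm (HV V L)) : Prop :=
  ∃ (w : List (Fin 3)) (s : (B.adds w).V ≃ V) (s' : (B.adds w).L ≃ L)
    (r : (B.adds w).V → Equiv.Perm (Fin 3)), ι = cj (au s s' r) (B.adds w).ι

theorem Lk.au {B : Dg} {V L V' L' : Type} {ι : Equiv.Perm (HV V L)} (h : Lk B ι) (s : V ≃ V')
    (s' : L ≃ L') (r : V → Equiv.Perm (Fin 3)) : Lk B (cj (TL.au s s' r) ι) := by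
  obtain ⟨w, u, u', v, rfl⟩ := h
  refine ⟨w, u.trans s, u'.trans s', fun i => r (u i) * v i, ?_⟩
  rw [← au_trans, cj_trans]

theorem NL.au_iff {V L V' L' : Type} (s : V ≃ V') (s' : L ≃ L') (r : V → Equiv.Perm (Fin 3))
    (x : HV V L) : NL (TL.au s s' r x) ↔ NL x := by
  rcases x with ⟨i, k⟩ | j
  · exact ⟨fun _ => ⟨i, k, rfl⟩, fun _ => ⟨s i, r i k, rfl⟩⟩
  · constructor
    · rintro ⟨i, k, e⟩; cases e
    · rintro ⟨i, k, e⟩; cases e

theorem Lk.ins {B : Dg} (hB : Val B.ι) (hA : Any B) {V L : Type} {ι : Equiv.Perm (HV V L)}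
    (h : Lk B ι) {x : HV V L} (h1 : NL x) (h2 : NL (ι x)) : Lk B (TL.ins ι x) := by
  obtain ⟨w, s, s', r, rfl⟩ := h
  obtain ⟨y, rfl⟩ := (TL.au s s' r).surjective x
  rw [cj_apply] at h2
  rw [NL.au_iff] at h1 h2
  obtain ⟨k, ε, hL⟩ := (Any.adds hB hA w) y h1 h2
  obtain ⟨u, u', v, k1⟩ : ∃ (u : (B.adds (k :: w)).V ≃ Option (B.adds w).V)
      (u' : (B.adds (k :: w)).L ≃ Option (B.adds w).L)
      (v : (B.adds (k :: w)).V → Equiv.Perm (Fin 3)),
      TL.ins (B.adds w).ι y = cj (TL.au u u' v) (B.adds (k :: w)).ι := by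
    obtain ⟨u, u', v, k1, -, -, -⟩ := hL.symm
    exact ⟨u, u', v, k1⟩
  refine ⟨k :: w, u.trans (Equiv.optionCongr s), u'.trans (Equiv.optionCongr s'),
    fun i => er r 1 (u i) * v i, ?_⟩
  rw [← au_trans, cj_trans, ins_cj, ex_au, k1]

/-- the span of the theta classes -/
def Sp (d : ℕ) (H : AddSubgroup A) : AddSubgroup (A ⧸ H) :=
  AddSubgroup.closure {y | ∃ w : List (Fin 3), w.length + 1 = d ∧ y = q H (th.adds w).ι}

theorem units_smul_mem' {G : Type*} [AddCommGroup G] (S : AddSubgroup G) (u : ℤˣ) {x : G}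
    (h : x ∈ S) : (u : ℤ) • x ∈ S := S.zsmul_mem h _

theorem Lk.q_th {d : ℕ} {H : AddSubgroup A} {V L : Type} [Finite V] [Finite L]
    {ι : Equiv.Perm (HV V L)} (h : Lk th ι) (hs : Sz d H V L) : q H ι ∈ Sp d H := by
  obtain ⟨w, s, s', r, rfl⟩ := h
  rw [q_au (hs.congr s.symm s'.symm) (Dg.val_adds val_th w)]
  apply units_smul_mem'
  refine AddSubgroup.subset_closure ⟨w, ?_, rfl⟩
  obtain ⟨h1, h2⟩ := card_th w
  have := (hs.congr s.symm s'.symm).sum
  omega

/-! ### the dumbbell -/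

theorem mark_db (w : List (Fin 3)) : ∃ u : (db.adds w).V, (db.adds w).p 0 = Sum.inl (u, 0) ∧
    (db.adds w).p 1 = Sum.inl (u, 1) ∧ (db.adds w).o 1 = Sum.inl (u, 2) := by
  induction w with
  | nil => exact ⟨false, rfl, rfl, rfl⟩
  | cons k w ih =>
    obtain ⟨v, h0, h1, h2⟩ := ih
    refine ⟨some v, ?_, ?_, ?_⟩
    · show em ((db.adds w).p 0) = _
      rw [h0]; rfl
    · show em ((db.adds w).p 1) = _
      rw [h1]; rfl
    · show em ((db.adds w).o 1) = _
      rw [h2]; rfl

theorem db_bridge {d : ℕ} {H : AddSubgroup A} {w : List (Fin 3)}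
    (hs : Sz d H (Option (db.adds w).V) (Option (db.adds w).L)) :
    q H (db.adds (0 :: w)).ι = 0 := by
  obtain ⟨u, h0, h1, h2⟩ := mark_db w
  have hv := Dg.val_adds val_db w
  have h3 := r3 hs hv u
  rw [← h0, ← h1, ← h2] at h3
  have h4 := lab_o val_db db_o w 1
  have h5 := Tr.q h4 (d := d) (H := H) hs (Dg.val_ins hv _)
  have e1 : q H (TL.ins (db.adds w).ι ((db.adds w).p 1)) =
      - q H (TL.ins (db.adds w).ι ((db.adds w).o 1)) := by
    have : q H ((db.adds w).add 1).ι = - q H ((db.adds w).ins ((db.adds w).o 1)).ι := by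
      rw [h5]; simp
    exact this
  rw [e1] at h3
  have : q H (TL.ins (db.adds w).ι ((db.adds w).p 0)) = 0 := by
    rw [add_assoc, neg_add_cancel, add_zero] at h3
    exact h3
  exact this

open Classical in
/-- the move -/
noncomputable def kc {V L : Type} (v w : V) : Equiv.Perm (HV V L) := kp v w

section
variable {V L : Type} {v w : V}

theorem kc_v2 (h : v ≠ w) : (kc v w : Equiv.Perm (HV V L)) (Sum.inl (v, 2)) = Sum.inl (w, 1) := by
  classical
  exact kp_v2 h

theorem kc_w1 : (kc v w : Equiv.Perm (HV V L)) (Sum.inl (w, 1)) = Sum.inl (w, 2) := by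
  classical
  exact kp_w1

theorem kc_w2 (h : v ≠ w) : (kc v w : Equiv.Perm (HV V L)) (Sum.inl (w, 2)) = Sum.inl (v, 2) := by
  classical
  exact kp_w2 h

theorem kc_ne {x : HV V L} (h1 : x ≠ Sum.inl (v, 2)) (h2 : x ≠ Sum.inl (w, 1))
    (h3 : x ≠ Sum.inl (w, 2)) : (kc v w : Equiv.Perm (HV V L)) x = x := by
  classical
  exact kp_ne h1 h2 h3

theorem kc_em (h : v ≠ w) (x : HV V L) : kc (some v) (some w) (em x) = em (kc v w x) := by
  have h' : some v ≠ some w := by simpa using h
  by_cases h1 : x = Sum.inl (v, 2)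
  · subst h1
    rw [kc_v2 h]
    exact kc_v2 h'
  · by_cases h2 : x = Sum.inl (w, 1)
    · subst h2
      rw [kc_w1]
      exact kc_w1
    · by_cases h3 : x = Sum.inl (w, 2)
      · subst h3
        rw [kc_w2 h]
        exact kc_w2 h'
      · rw [kc_ne h1 h2 h3]
        exact kc_ne (fun e => h1 (em_injective e)) (fun e => h2 (em_injective e))
          (fun e => h3 (em_injective e))

theorem ex_kc (h : v ≠ w) : ex (kc v w : Equiv.Perm (HV V L)) = kc (some v) (some w) := by
  ext x : 1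
  induction x using hv_cases with
  | h1 x => rw [ex_em, kc_em h]
  | h2 => rw [ex_nw, kc_ne] <;> simp [nw]
  | h3 => rw [ex_nw, kc_ne] <;> simp [nw]
  | h4 => rw [ex_nw, kc_ne] <;> simp [nw]
  | h5 => rw [ex_nl, kc_ne] <;> simp [nl]

theorem NL.kc (h : v ≠ w) {x : HV V L} (hx : NL x) : NL (TL.kc v w x) := by
  by_cases h1 : x = Sum.inl (v, 2)
  · subst h1
    rw [kc_v2 h]
    exact ⟨_, _, rfl⟩
  · by_cases h2 : x = Sum.inl (w, 1)
    · subst h2
      rw [kc_w1]
      exact ⟨_, _, rfl⟩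
    · by_cases h3 : x = Sum.inl (w, 2)
      · subst h3
        rw [kc_w2 h]
        exact ⟨_, _, rfl⟩
      · rw [kc_ne h1 h2 h3]
        exact hx

end

theorem NL.ins {V L : Type} {ι : Equiv.Perm (HV V L)} (hι : Val ι) (h : HV V L) {x : HV V L}
    (hx : NL (ι x)) : NL (TL.ins ι h (TL.em x)) := by
  by_cases e1 : x = h
  · subst e1
    rw [ins_h]
    exact ⟨_, _, rfl⟩
  · by_cases e2 : x = ι h
    · subst e2
      rw [ins_ih (hι.invol _) (hι.nofix _)]
      exact ⟨_, _, rfl⟩
    · rw [ins_em hι.invol e1 e2]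
      exact hx.em

theorem kb (x y : HV Bool Empty) (h : (x = Sum.inl (false, 2) ∧ y = Sum.inl (true, 1)) ∨
    (x = Sum.inl (true, 1) ∧ y = Sum.inl (true, 2)) ∨
    (x = Sum.inl (true, 2) ∧ y = Sum.inl (false, 2)) ∨
    (x ≠ Sum.inl (false, 2) ∧ x ≠ Sum.inl (true, 1) ∧ x ≠ Sum.inl (true, 2) ∧ y = x)) :
    kc false true x = y := by
  rcases h with ⟨rfl, rfl⟩ | ⟨rfl, rfl⟩ | ⟨rfl, rfl⟩ | ⟨h1, h2, h3, rfl⟩
  · exact kc_v2 (by simp)
  · exact kc_w1
  · exact kc_w2 (by simp)
  · exact kc_ne h1 h2 h3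

theorem kb_db : cj (kc false true) dbi = thi := by
  have e0 := kb (Sum.inl (false, 0)) _ (Or.inr (Or.inr (Or.inr ⟨by simp, by simp, by simp, rfl⟩)))
  have e1 := kb (Sum.inl (false, 1)) _ (Or.inr (Or.inr (Or.inr ⟨by simp, by simp, by simp, rfl⟩)))
  have e2 := kb (Sum.inl (false, 2)) _ (Or.inl ⟨rfl, rfl⟩)
  have f0 := kb (Sum.inl (true, 0)) _ (Or.inr (Or.inr (Or.inr ⟨by simp, by simp, by simp, rfl⟩)))
  have f1 := kb (Sum.inl (true, 1)) _ (Or.inr (Or.inl ⟨rfl, rfl⟩))
  have f2 := kb (Sum.inl (true, 2)) _ (Or.inr (Or.inr (Or.inl ⟨rfl, rfl⟩)))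
  apply cj_eq_of
  intro x
  change HV Bool Empty at x
  induction x using hb_cases with
  | h b k =>
    cases b <;> fin_cases k
    · exact (congrArg thi e0).trans f0.symm
    · exact (congrArg thi e1).trans e2.symm
    · exact (congrArg thi e2).trans e1.symm
    · exact (congrArg thi f0).trans e0.symm
    · exact (congrArg thi f1).trans f2.symm
    · exact (congrArg thi f2).trans f1.symm

/-- the slots of the twisted theta -/
def rt (b : Bool) : Equiv.Perm (Fin 3) := if b then Equiv.swap 1 2 else 1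

theorem kb_th : cj (kc false true) thi = cj (au (Equiv.refl _) (Equiv.refl _) rt) thi := by
  have e0 := kb (Sum.inl (false, 0)) _ (Or.inr (Or.inr (Or.inr ⟨by simp, by simp, by simp, rfl⟩)))
  have e1 := kb (Sum.inl (false, 1)) _ (Or.inr (Or.inr (Or.inr ⟨by simp, by simp, by simp, rfl⟩)))
  have e2 := kb (Sum.inl (false, 2)) _ (Or.inl ⟨rfl, rfl⟩)
  have f0 := kb (Sum.inl (true, 0)) _ (Or.inr (Or.inr (Or.inr ⟨by simp, by simp, by simp, rfl⟩)))
  have f1 := kb (Sum.inl (true, 1)) _ (Or.inr (Or.inl ⟨rfl, rfl⟩))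
  have f2 := kb (Sum.inl (true, 2)) _ (Or.inr (Or.inr (Or.inl ⟨rfl, rfl⟩)))
  set ι' : Equiv.Perm (HV Bool Empty) := cj (au (Equiv.refl _) (Equiv.refl _) rt) thi with hι'
  have g0 : ι' (Sum.inl (false, 0)) = Sum.inl (true, 0) := by
    have := cj_apply (au (Equiv.refl Bool) (Equiv.refl Empty) rt) thi (Sum.inl (false, 0))
    exact this
  have g1 : ι' (Sum.inl (false, 1)) = Sum.inl (true, 2) := by
    have := cj_apply (au (Equiv.refl Bool) (Equiv.refl Empty) rt) thi (Sum.inl (false, 1))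
    exact this
  have g2 : ι' (Sum.inl (false, 2)) = Sum.inl (true, 1) := by
    have := cj_apply (au (Equiv.refl Bool) (Equiv.refl Empty) rt) thi (Sum.inl (false, 2))
    exact this
  have g0' : ι' (Sum.inl (true, 0)) = Sum.inl (false, 0) := by
    have := cj_apply (au (Equiv.refl Bool) (Equiv.refl Empty) rt) thi (Sum.inl (true, 0))
    exact this
  have g1' : ι' (Sum.inl (true, 2)) = Sum.inl (false, 1) := by
    have := cj_apply (au (Equiv.refl Bool) (Equiv.refl Empty) rt) thi (Sum.inl (true, 1))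
    exact this
  have g2' : ι' (Sum.inl (true, 1)) = Sum.inl (false, 2) := by
    have := cj_apply (au (Equiv.refl Bool) (Equiv.refl Empty) rt) thi (Sum.inl (true, 2))
    exact this
  apply cj_eq_of
  intro x
  change HV Bool Empty at x
  induction x using hb_cases with
  | h b k =>
    cases b <;> fin_cases k
    · exact ((congrArg ι' e0).trans g0).trans f0.symm
    · exact ((congrArg ι' e1).trans g1).trans f1.symm
    · exact ((congrArg ι' e2).trans g2').trans f2.symm
    · exact ((congrArg ι' f0).trans g0').trans e0.symm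
    · exact ((congrArg ι' f1).trans g1').trans e1.symm
    · exact ((congrArg ι' f2).trans g2).trans e2.symm

theorem Lk.self (B : Dg) : Lk B B.ι := by
  refine ⟨[], Equiv.refl B.V, Equiv.refl B.L, fun _ => 1, ?_⟩
  show B.ι = cj (TL.au (Equiv.refl B.V) (Equiv.refl B.L) fun _ => 1) B.ι
  rw [au_one, cj_refl]

/-- the invariant of the dumbbells without legs on the bridge -/
def DI (D : Dg) : Prop := ∃ u v : D.V, u ≠ v ∧
    D.ι (Sum.inl (u, 0)) = Sum.inl (v, 0) ∧ D.p 1 = Sum.inl (u, 1) ∧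
    D.p 2 = Sum.inl (v, 1) ∧ NL (D.ι (D.p 1)) ∧
    NL (D.ι (D.p 2)) ∧ Lk th (cj (kc u v) D.ι) ∧
    Lk th (cj (kc u v) (cj (kc u v) D.ι))

theorem DI.base : DI db := by
  refine ⟨false, true, by simp, rfl, rfl, rfl, ⟨_, _, rfl⟩, ⟨_, _, rfl⟩, ?_, ?_⟩
  · show Lk th (cj (kc false true) dbi)
    rw [kb_db]
    exact Lk.self th
  · show Lk th (cj (kc false true) (cj (kc false true) dbi))
    rw [kb_db, kb_th]
    exact (Lk.self th).au (Equiv.refl _) (Equiv.refl _) rt

theorem DI.add {D : Dg} (hv : Val D.ι) (h : DI D) {k : Fin 3} (hk : k ≠ 0) : DI (D.add k) := by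
  obtain ⟨u, v, huv, h0, h1, h2, n1, n2, l1, l2⟩ := h
  have k12 : k = 1 ∨ k = 2 := by
    fin_cases k
    · exact absurd rfl hk
    · exact Or.inl rfl
    · exact Or.inr rfl
  have hk' : D.p k = Sum.inl (u, 1) ∨ D.p k = Sum.inl (v, 1) := by
    rcases k12 with rfl | rfl
    · exact Or.inl h1
    · exact Or.inr h2
  have nk : NL (D.p k) := by
    rcases hk' with h | h <;> rw [h] <;> exact ⟨_, _, rfl⟩
  have nk' : NL (D.ι (D.p k)) := by
    rcases k12 with rfl | rfl
    · exact n1
    · exact n2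
  have hh1 : (Sum.inl (u, 0) : HV D.V D.L) ≠ D.p k := by
    rcases hk' with h | h <;> rw [h] <;> simp
  have hh2 : (Sum.inl (u, 0) : HV D.V D.L) ≠ D.ι (D.p k) := by
    intro e
    have : D.ι (Sum.inl (u, 0)) = D.p k := by rw [e, hv.invol]
    rw [h0] at this
    rcases hk' with h | h <;> rw [h] at this <;> simp at this
  have hins : ∀ ι' : Equiv.Perm (HV D.V D.L), ∀ x, NL x → NL (ι' x) → Lk th ι' →
      Lk th (TL.ins ι' x) := fun ι' x a1 a2 a3 => Lk.ins val_th any_th a3 a1 a2
  have ek : ∀ ι' : Equiv.Perm (HV D.V D.L), ∀ x, cj (kc (some u) (some v)) (TL.ins ι' x) =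
      TL.ins (cj (kc u v) ι') (kc u v x) := by
    intro ι' x
    rw [← ex_kc huv]
    exact (ins_cj _ _ _).symm
  refine ⟨some u, some v, fun e => huv (Option.some.inj e), ?_, ?_, ?_, ?_, ?_, ?_, ?_⟩
  · show TL.ins D.ι (D.p k) (em (Sum.inl (u, 0))) = em (Sum.inl (v, 0))
    rw [ins_em hv.invol hh1 hh2, h0]
  · show em (D.p 1) = _
    rw [h1]; rfl
  · show em (D.p 2) = _
    rw [h2]; rfl
  · exact NL.ins hv _ n1
  · exact NL.ins hv _ n2
  · show Lk th (cj (kc (some u) (some v)) (TL.ins D.ι (D.p k)))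
    rw [ek]
    apply hins _ _ (nk.kc huv) _ l1
    rw [cj_apply]
    exact nk'.kc huv
  · show Lk th (cj (kc (some u) (some v)) (cj (kc (some u) (some v)) (TL.ins D.ι (D.p k))))
    rw [ek, ek]
    apply hins _ _ ((nk.kc huv).kc huv) _ l2
    rw [cj_apply, cj_apply]
    exact (nk'.kc huv).kc huv

/-- without legs on the bridge -/
theorem db_core (w : List (Fin 3)) (hw : 0 ∉ w) : DI (db.adds w) := by
  induction w with
  | nil => exact DI.base
  | cons k w ih =>
    have hk : k ≠ 0 := fun e => hw (by rw [e]; exact List.mem_cons_self)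
    exact DI.add (Dg.val_adds val_db w) (ih fun h => hw (List.mem_cons_of_mem _ h)) hk

theorem db_q {d : ℕ} {H : AddSubgroup A} (w : List (Fin 3))
    (hs : Sz d H (db.adds w).V (db.adds w).L) : q H (db.adds w).ι ∈ Sp d H := by
  classical
  have hv := Dg.val_adds val_db w
  by_cases hw : (0 : Fin 3) ∈ w
  · have hp := List.perm_cons_erase hw
    have e := (adds_perm db hp).q hs hv
    have hs' : Sz d H (db.adds (0 :: w.erase 0)).V (db.adds (0 :: w.erase 0)).L := by
      obtain ⟨s, s', -, -⟩ := adds_perm db hp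
      exact hs.congr s s'
    have h0 := db_bridge (w := w.erase 0) hs'
    rw [h0] at e
    have : q H (db.adds w).ι = 0 := by
      simpa using e.symm
    rw [this]
    exact zero_mem _
  · obtain ⟨u, v, huv, h0, -, -, -, -, l1, l2⟩ := db_core w hw
    obtain ⟨-, -, h3⟩ := q_ihx hs hv huv h0
    have m1 := l1.q_th hs
    have m2 := l2.q_th hs
    have e : q H (db.adds w).ι = -(q H (cj (kc u v) (db.adds w).ι) +
        q H (cj (kc u v) (cj (kc u v) (db.adds w).ι))) := by
      rw [eq_neg_iff_add_eq_zero, ← add_assoc]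
      unfold kc
      convert h3
    rw [e]
    exact neg_mem (add_mem m1 m2)

theorem Lk.q_db {d : ℕ} {H : AddSubgroup A} {V L : Type} [Finite V] [Finite L]
    {ι : Equiv.Perm (HV V L)} (h : Lk db ι) (hs : Sz d H V L) : q H ι ∈ Sp d H := by
  obtain ⟨w, s, s', r, rfl⟩ := h
  rw [q_au (hs.congr s.symm s'.symm) (Dg.val_adds val_db w)]
  apply units_smul_mem'
  exact db_q w (hs.congr s.symm s'.symm)

end Pool.Agent.Helper1.TL
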