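import Pool.Agent.Helper1.JD.Defs

namespace Pool.Agent.Helper1.TL

open Pool.Agent.Helper1.JD

/-- The subgroup spanned by the connected diagrams of degree `d` with at least three independent
loops (the first Betti number of the uni-trivalent graph is `(t - l) / 2 + 1`). -/
def threeLoop (d : ℕ) : AddSubgroup A :=
  AddSubgroup.closure
    {x | ∃ (t l : ℕ) (D : Diag t l), t + l = 2 * d ∧ l + 4 ≤ t ∧ D.Connected ∧ x = cls D}

end Pool.Agent.Helper1.TL
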