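import Pool.Agent.Helper1.TL.Fin
import Pool.Agent.Helper1.TL.Defs
import Pool.Agent.Helper1.JD.Str6

namespace Pool.Agent.Helper1.TL

set_option maxHeartbeats 400000

open Pool.Agent.Helper1.JD (A Kl Half Diag cls Valid cl_valid conn twoLoop wheel wheel_connected
  cls_eq_cl valid_of mem_Kl Kl_le cl_top Closed wheel_even wheel_rev exists_quat)

theorem legs_pos {t l : ℕ} (D : Diag t l) (hd : 0 < t + l) : 0 < l := by
  rcases Nat.eq_zero_or_pos l with rfl | h
  · exfalso
    have hne : (Set.univ : Set (Half t 0)).Nonempty := ⟨Sum.inl (⟨0, by omega⟩, 0), trivial⟩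
    obtain ⟨j, _⟩ := D.legs Set.univ ⟨fun _ _ => trivial, fun _ _ _ _ => trivial⟩ hne
    exact j.elim0
  · exact h

theorem three_eq {d : ℕ} (hd : 3 ≤ d) : threeLoop d = Kl d (d - 2) := by
  apply le_antisymm
  · unfold threeLoop
    rw [AddSubgroup.closure_le]
    rintro x ⟨t, l, D, h1, h2, h3, rfl⟩
    have hl := legs_pos D (by omega)
    rw [cls_eq_cl D h3 hl]
    exact mem_Kl (valid_of D h3 hl) h1 (by omega)
  · unfold Kl
    rw [AddSubgroup.closure_le]
    rintro x ⟨t, l, ι, h1, h2, h3, rfl⟩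
    exact AddSubgroup.subset_closure ⟨t, l, h3.diag, h1, by omega, h3.conn, cl_valid h3⟩

theorem two_eq {d : ℕ} (hd : 3 ≤ d) : twoLoop d = Kl d (d - 1) := by
  apply le_antisymm
  · unfold twoLoop
    rw [AddSubgroup.closure_le]
    rintro x ⟨t, l, D, h1, h2, h3, rfl⟩
    have hl := legs_pos D (by omega)
    rw [cls_eq_cl D h3 hl]
    exact mem_Kl (valid_of D h3 hl) h1 (by omega)
  · unfold Kl
    rw [AddSubgroup.closure_le]
    rintro x ⟨t, l, ι, h1, h2, h3, rfl⟩
    exact AddSubgroup.subset_closure ⟨t, l, h3.diag, h1, by omega, h3.conn, cl_valid h3⟩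

theorem conn_le {n : ℕ} (hn : 2 ≤ n) :
    conn (n + 1) ≤ AddSubgroup.zmultiples (cls (wheel n)) ⊔ twoLoop (n + 1) := by
  unfold conn
  rw [AddSubgroup.closure_le]
  rintro x ⟨t, l, D, h1, h2, rfl⟩
  have hl := legs_pos D (by omega)
  rw [cls_eq_cl D h2 hl]
  have h3 := Kl_le (d := n + 1) (by omega) l t D.ι (valid_of D h2 hl) h1
  have h4 : Kl (n + 1) (n + 1) ≤
      AddSubgroup.zmultiples (cls (wheel n)) ⊔ twoLoop (n + 1) := by
    unfold Kl
    rw [AddSubgroup.closure_le]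
    rintro x ⟨t, l, ι, h1, h2, h3, rfl⟩
    have hK : Kl (n + 1) n ≤ AddSubgroup.zmultiples (cls (wheel n)) ⊔ twoLoop (n + 1) := by
      rw [two_eq (by omega)]
      exact le_sup_right
    rcases Nat.lt_or_ge l (n + 1) with h | h
    · exact hK (mem_Kl h3 h1 (by omega))
    · have e1 : l = n + 1 := by omega
      have e2 : t = n + 1 := by omega
      subst e1
      subst e2
      exact cl_top hn h3 hK (AddSubgroup.mem_sup_left (AddSubgroup.mem_zmultiples _))
  exact h4 h3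

theorem dvd_of_twoLoop {d : ℕ} {W : A →+ ℤ}
    (hW : ∀ (t l : ℕ) (D : Diag t l), 1 ≤ t → 2 ^ (t + 1) ∣ W (cls D)) {x : A}
    (hx : x ∈ twoLoop d) : 2 ^ (d + 2) ∣ W x := by
  unfold twoLoop at hx
  induction hx using AddSubgroup.closure_induction with
  | mem x hx =>
    obtain ⟨t, l, D, h1, h2, h3, rfl⟩ := hx
    exact (pow_dvd_pow 2 (by omega)).trans (hW t l D (by omega))
  | zero => simp
  | add x y _ _ hx hy => rw [map_add]; exact dvd_add hx hy
  | neg x _ hx => rw [map_neg]; exact (dvd_neg).2 hx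

theorem not_dvd {n : ℕ} (hn : 2 ≤ n) :
    ¬ (2 ^ (n + 1 + 2) : ℤ) ∣ 2 ^ (n + 1) * (2 + (-2) ^ (n + 1)) := by
  rw [pow_add 2 (n + 1) 2, mul_dvd_mul_iff_left (by positivity)]
  obtain ⟨m, rfl⟩ : ∃ m, n = m + 2 := ⟨n - 2, by omega⟩
  intro h
  have e : (-2 : ℤ) ^ (m + 2 + 1) = 4 * (-2) ^ (m + 1) := by
    rw [show m + 2 + 1 = (m + 1) + 2 by ring, pow_add]; ring
  rw [e] at h
  have h2 : (4 : ℤ) ∣ 2 := by
    have h3 : (4 : ℤ) ∣ 4 * (-2) ^ (m + 1) := dvd_mul_right _ _
    have h4 : (2 : ℤ) ^ 2 = 4 := by norm_num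
    rw [h4] at h
    exact (dvd_add_left h3).1 h
  omega

/-- the first step -/
theorem first {n : ℕ} (hn : 2 ≤ n) {x : A} (hx : x ∈ conn (n + 1)) {m : ℤ} (hm : Odd m)
    (h : m • x ∈ twoLoop (n + 1)) : x ∈ twoLoop (n + 1) := by
  obtain ⟨W, hW1, hW2⟩ := exists_quat
  have hm0 : m ≠ 0 := by
    rintro rfl
    exact absurd hm (by decide)
  obtain ⟨y, hy, f, hf, rfl⟩ := AddSubgroup.mem_sup.1 (conn_le hn hx)
  obtain ⟨c, rfl⟩ := AddSubgroup.mem_zmultiples_iff.1 hy
  have h1 : (m * c) • cls (wheel n) ∈ twoLoop (n + 1) := by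
    have : (m * c) • cls (wheel n) = m • (c • cls (wheel n) + f) - m • f := by
      rw [mul_smul, smul_add, add_sub_cancel_right]
    rw [this]
    exact sub_mem h (zsmul_mem hf m)
  rcases Nat.even_or_odd (n + 1) with he | ho
  · have h2 := wheel_even n he _ (by
      have := h1
      rwa [two_eq (by omega)] at this)
    have hc : c = 0 := by
      rcases mul_eq_zero.1 h2 with h | h
      · exact absurd h hm0
      · exact h
    rw [hc, zero_smul, zero_add]
    exact hf
  · have hrev : (2 : ℤ) • cls (wheel n) ∈ twoLoop (n + 1) := by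
      rw [two_eq (by omega)]
      exact wheel_rev ho
    rcases Int.even_or_odd' c with ⟨k, rfl | rfl⟩
    · have : (2 * k) • cls (wheel n) = k • ((2 : ℤ) • cls (wheel n)) := by
        rw [smul_smul, mul_comm]
      rw [this]
      exact add_mem (zsmul_mem hrev k) hf
    · exfalso
      obtain ⟨j, hj⟩ := hm
      have h2 : cls (wheel n) ∈ twoLoop (n + 1) := by
        have e : cls (wheel n) = (m * (2 * k + 1)) • cls (wheel n) -
            (j * (2 * k + 1) + k) • ((2 : ℤ) • cls (wheel n)) := by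
          rw [hj, smul_smul, ← sub_smul]
          have : (2 * j + 1) * (2 * k + 1) - (j * (2 * k + 1) + k) * 2 = 1 := by ring
          rw [this, one_smul]
        rw [e]
        exact sub_mem h1 (zsmul_mem hrev _)
      have h3 := dvd_of_twoLoop hW1 h2
      rw [hW2] at h3
      exact not_dvd hn h3

theorem three_le_two {d : ℕ} : threeLoop d ≤ twoLoop d := by
  apply AddSubgroup.closure_mono
  rintro x ⟨t, l, D, h1, h2, h3, h4⟩
  exact ⟨t, l, D, h1, by omega, h3, h4⟩

theorem final {d : ℕ} (hd : 3 ≤ d) {x : A} (hx : x ∈ conn d) {n : ℤ} (hn : Odd n)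
    (h3 : Odd d → ¬ (3 : ℤ) ∣ n) (h : n • x ∈ threeLoop d) : x ∈ threeLoop d := by
  obtain ⟨m, rfl⟩ : ∃ m, d = m + 1 := ⟨d - 1, by omega⟩
  have h1 := first (by omega) hx hn (three_le_two h)
  rw [two_eq hd] at h1
  rw [three_eq hd] at h ⊢
  exact main_two hd h1 hn h3 h

end Pool.Agent.Helper1.TL
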