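import Pool.Agent.Helper1.TL.Gen

namespace Pool.Agent.Helper1.TL

set_option maxHeartbeats 400000

open Finset MvPolynomial
open Pool.Agent.Helper1.JD (A Kl)

/-- the degree -/
def dg (m : Fin 3 →₀ ℕ) : ℕ := m 0 + m 1 + m 2

/-- the word of a monomial -/
def wd (m : Fin 3 →₀ ℕ) : List (Fin 3) :=
  List.replicate (m 0) 0 ++ (List.replicate (m 1) 1 ++ List.replicate (m 2) 2)

theorem length_wd (m : Fin 3 →₀ ℕ) : (wd m).length = dg m := by
  unfold wd dg
  simp
  ring

theorem count_wd (m : Fin 3 →₀ ℕ) (k : Fin 3) : (wd m).count k = m k := by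
  unfold wd
  rw [List.count_append, List.count_append, List.count_replicate, List.count_replicate,
    List.count_replicate]
  fin_cases k <;> simp

/-- the monomial of a word -/
noncomputable def mc (w : List (Fin 3)) : Fin 3 →₀ ℕ :=
  Finsupp.equivFunOnFinite.symm fun k => w.count k

theorem mc_apply (w : List (Fin 3)) (k : Fin 3) : mc w k = w.count k := rfl

theorem wd_mc (w : List (Fin 3)) : w.Perm (wd (mc w)) := by
  rw [List.perm_iff_count]
  intro k
  rw [count_wd, mc_apply]

section
variable (d : ℕ) (H : AddSubgroup A)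

open Classical in
/-- the class of a monomial -/
noncomputable def lam0 (m : Fin 3 →₀ ℕ) : A ⧸ H :=
  if dg m + 1 = d then q H (th.adds (wd m)).ι else 0

/-- the class of a polynomial -/
noncomputable def lam : MvPolynomial (Fin 3) ℤ →ₗ[ℤ] A ⧸ H :=
  (MvPolynomial.basisMonomials (Fin 3) ℤ).constr ℤ (lam0 d H)

theorem lam_mono (m : Fin 3 →₀ ℕ) : lam d H (monomial m 1) = lam0 d H m := by
  have := (MvPolynomial.basisMonomials (Fin 3) ℤ).constr_basis ℤ (lam0 d H) m
  rw [MvPolynomial.coe_basisMonomials] at this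
  exact this

theorem lin_ext {G : Type*} [AddCommGroup G] (f g : MvPolynomial (Fin 3) ℤ →ₗ[ℤ] G)
    (h : ∀ m, f (monomial m 1) = g (monomial m 1)) : f = g := by
  apply (MvPolynomial.basisMonomials (Fin 3) ℤ).ext
  intro m
  rw [MvPolynomial.coe_basisMonomials]
  exact h m

variable {d H}

theorem lam0_word (hd : 2 ≤ d) (hH : Kl d (d - 2) ≤ H) {w : List (Fin 3)} {m : Fin 3 →₀ ℕ}
    (h : ∀ k, w.count k = m k) (hm : dg m + 1 = d) : lam0 d H m = q H (th.adds w).ι := by
  unfold lam0
  rw [if_pos hm]
  have hp : w.Perm (wd m) := by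
    rw [List.perm_iff_count]
    intro k
    rw [count_wd, h]
  have hl : w.length + 1 = d := by rw [hp.length_eq, length_wd, hm]
  exact th_q_perm (sz_th hd hH hl) hp

theorem dg_add (m : Fin 3 →₀ ℕ) (k : Fin 3) : dg (Finsupp.single k 1 + m) = dg m + 1 := by
  unfold dg
  fin_cases k <;> simp <;> ring

/-- multiplication with `e` -/
theorem lam_e (hd : 3 ≤ d) (hH : Kl d (d - 2) ≤ H) (p : MvPolynomial (Fin 3) ℤ) :
    lam d H ((X 0 + X 1 + X 2) * p) = 0 := by
  have key : (lam d H).comp (LinearMap.mulLeft ℤ (X 0 + X 1 + X 2 : MvPolynomial (Fin 3) ℤ)) = 0 := by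
    apply lin_ext
    intro m
    rw [LinearMap.comp_apply, LinearMap.mulLeft_apply, LinearMap.zero_apply]
    have e : ∀ k : Fin 3, (X k : MvPolynomial (Fin 3) ℤ) * monomial m 1 =
        monomial (Finsupp.single k 1 + m) 1 := by
      intro k
      rw [X, monomial_mul, one_mul]
    rw [add_mul, add_mul, e, e, e, map_add, map_add, lam_mono, lam_mono, lam_mono]
    by_cases h : dg m + 2 = d
    · have h' : ∀ k : Fin 3, lam0 d H (Finsupp.single k 1 + m) = q H (th.adds (k :: wd m)).ι := by
        intro k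
        apply lam0_word (by omega) hH
        · intro k'
          rw [List.count_cons, count_wd]
          simp only [Finsupp.coe_add, Pi.add_apply]
          by_cases hk : k = k'
          · subst hk; simp; ring
          · simp [hk]
        · rw [dg_add]; omega
      rw [h', h', h']
      have hs : Sz d H (th.adds (0 :: wd m)).V (th.adds (0 :: wd m)).L := by
        apply sz_th (by omega) hH
        rw [List.length_cons, length_wd]; omega
      have := th_e1 (w := wd m) hs
      rw [Fin.sum_univ_three] at this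
      exact this
    · unfold lam0
      rw [dg_add, dg_add, dg_add, if_neg (by omega), if_neg (by omega), if_neg (by omega)]
      simp
  have := LinearMap.congr_fun key p
  rw [LinearMap.comp_apply, LinearMap.mulLeft_apply, LinearMap.zero_apply] at this
  exact this

theorem lam_rename (hd : 2 ≤ d) (hH : Kl d (d - 2) ≤ H) (π : Equiv.Perm (Fin 3))
    (p : MvPolynomial (Fin 3) ℤ) : lam d H (rename π p) = lam d H p := by
  have key : (lam d H).comp ((rename π : MvPolynomial (Fin 3) ℤ →ₐ[ℤ] _).toLinearMap) =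
      lam d H := by
    apply lin_ext
    intro m
    show lam d H (rename π (monomial m 1)) = lam d H (monomial m 1)
    rw [rename_monomial, lam_mono, lam_mono]
    have hv : ∀ k, (Finsupp.mapDomain π m) k = m (π.symm k) := by
      intro k
      have := Finsupp.mapDomain_apply π.injective m (π.symm k)
      rwa [Equiv.apply_symm_apply] at this
    have hdg : dg (Finsupp.mapDomain π m) = dg m := by
      have h1 : ∀ n : Fin 3 →₀ ℕ, dg n = ∑ k, n k := fun n => by
        rw [Fin.sum_univ_three]; rfl
      rw [h1, h1]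
      exact Fintype.sum_equiv π.symm _ _ fun k => hv k
    by_cases h : dg m + 1 = d
    · have hl : (wd m).length + 1 = d := by rw [length_wd, h]
      have hs := sz_th hd hH hl
      rw [lam0_word hd hH (w := (wd m).map π) _ (by rw [hdg, h]), th_q_map hs]
      · unfold lam0
        rw [if_pos h]
      · intro k
        rw [hv, ← count_wd m]
        have := List.count_map_of_injective (wd m) π π.injective (π.symm k)
        rwa [Equiv.apply_symm_apply] at this
    · unfold lam0
      rw [if_neg (by rw [hdg]; exact h), if_neg h]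
  exact congrArg (fun f => f p) key

theorem lam_odd (hd : 2 ≤ d) (hH : Kl d (d - 2) ≤ H) (ho : Even d)
    (p : MvPolynomial (Fin 3) ℤ) : (2 : ℤ) • lam d H p = 0 := by
  have key : (2 : ℤ) • lam d H = 0 := by
    apply lin_ext
    intro m
    show (2 : ℤ) • lam d H (monomial m 1) = 0
    rw [lam_mono]
    unfold lam0
    by_cases h : dg m + 1 = d
    · have hl : (wd m).length + 1 = d := by rw [length_wd, h]
      rw [if_pos h]
      apply th_q_rev (sz_th hd hH hl)
      rw [length_wd]
      by_contra hn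
      rw [Nat.not_odd_iff_even] at hn
      have : Odd d := by rw [← h]; exact hn.add_one
      exact (Nat.not_odd_iff_even.2 ho) this
    · rw [if_neg h, smul_zero]
  exact congrArg (fun f => f p) key

/-- vanishing on the plane -/
theorem lam_plane (hd : 3 ≤ d) (hH : Kl d (d - 2) ≤ H) (p : MvPolynomial (Fin 3) ℤ)
    (hp : ∀ y z : ℤ, eval ![y, z, -y - z] p = 0) : lam d H p = 0 := by
  set I : Ideal (MvPolynomial (Fin 3) ℤ) := Ideal.span {X 0 + X 1 + X 2} with hI
  set ψ : MvPolynomial (Fin 3) ℤ →ₐ[ℤ] MvPolynomial (Fin 3) ℤ :=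
    aeval ![X 0, X 1, -X 0 - X 1] with hψ
  have h1 : (Ideal.Quotient.mkₐ ℤ I) = (Ideal.Quotient.mkₐ ℤ I).comp ψ := by
    apply MvPolynomial.algHom_ext
    intro i
    rw [AlgHom.comp_apply, hψ, aeval_X]
    fin_cases i
    · rfl
    · rfl
    · show (Ideal.Quotient.mk I) (X 2) = (Ideal.Quotient.mk I) (-X 0 - X 1)
      rw [Ideal.Quotient.eq, hI, Ideal.mem_span_singleton]
      exact ⟨1, by ring⟩
  have h2 : ψ p = 0 := by
    apply MvPolynomial.funext
    intro v
    rw [map_zero, hψ]
    have h3 : eval v (aeval ![X 0, X 1, -X 0 - X 1] p) = eval ![v 0, v 1, -v 0 - v 1] p := by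
      have h4 : ((aeval v : MvPolynomial (Fin 3) ℤ →ₐ[ℤ] ℤ).comp
          (aeval ![X 0, X 1, -X 0 - X 1] : MvPolynomial (Fin 3) ℤ →ₐ[ℤ] MvPolynomial (Fin 3) ℤ)) =
          aeval ![v 0, v 1, -v 0 - v 1] := by
        apply MvPolynomial.algHom_ext
        intro i
        rw [AlgHom.comp_apply, aeval_X, aeval_X]
        fin_cases i <;> simp
      have h5 := congrArg (fun f => f p) h4
      simpa [MvPolynomial.coe_aeval_eq_eval] using h5
    rw [h3]
    exact hp _ _
  have h3 := congrArg (fun f => f p) h1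
  have h4 : (Ideal.Quotient.mk I) p = 0 := by
    have h5 : (Ideal.Quotient.mk I) p = (Ideal.Quotient.mk I) (ψ p) := h3
    rw [h5, h2, map_zero]
  rw [Ideal.Quotient.eq_zero_iff_mem, hI, Ideal.mem_span_singleton] at h4
  obtain ⟨r, rfl⟩ := h4
  exact lam_e hd hH r

/-- the symmetrization -/
noncomputable def sy (p : MvPolynomial (Fin 3) ℤ) : MvPolynomial (Fin 3) ℤ :=
  rename (1 : Equiv.Perm (Fin 3)) p + rename (Equiv.addRight (1 : Fin 3)) p +
    rename (Equiv.addRight (2 : Fin 3)) p + rename (Equiv.swap (0 : Fin 3) 1) p +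
    rename (Equiv.swap (0 : Fin 3) 2) p + rename (Equiv.swap (1 : Fin 3) 2) p

theorem lam_sy (hd : 2 ≤ d) (hH : Kl d (d - 2) ≤ H) (p : MvPolynomial (Fin 3) ℤ) :
    lam d H (sy p) = (6 : ℤ) • lam d H p := by
  unfold sy
  simp only [map_add, lam_rename hd hH]
  module

end

end Pool.Agent.Helper1.TL
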