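import Pool.Agent.Helper1.TL.Op
import Pool.Agent.Helper1.TL.Lam

namespace Pool.Agent.Helper1.TL

set_option maxHeartbeats 400000

open Finset
open Pool.Agent.Helper1.JD (A Kl Half)

section
variable {V L V' L' : Type} [Fintype V] [Fintype L] [Fintype V'] [Fintype L']

open Classical in
/-- colourings -/
noncomputable def cl' (ι : Equiv.Perm (HV V L)) : Finset (HV V L → Q) :=
  Finset.univ.filter fun c => ∀ h, c (ι h) = (c h).swap

theorem mem_cl' {ι : Equiv.Perm (HV V L)} {c : HV V L → Q} :
    c ∈ cl' ι ↔ ∀ h, c (ι h) = (c h).swap := by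
  classical
  simp [cl']

/-- the product of the vertices -/
def vq (c : HV V L → Q) : ℤ :=
  ∏ i : V, T (c (Sum.inl (i, 0))) (c (Sum.inl (i, 1))) (c (Sum.inl (i, 2)))

/-- the state sum -/
noncomputable def ss (x : Fin 3 → ℤ) (ι : Equiv.Perm (HV V L)) (F : (HV V L → Q) → ℤ) : ℤ :=
  ∑ c ∈ cl' ι, vq c * F c * ∏ j, dx x (c (Sum.inr j))

theorem T_perm (d : Fin 3 → Q) (r : Equiv.Perm (Fin 3)) :
    T (d (r 0)) (d (r 1)) (d (r 2)) = (Equiv.Perm.sign r : ℤ) * T (d 0) (d 1) (d 2) := by
  induction r using Equiv.Perm.swap_induction_on generalizing d with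
  | one => simp
  | swap_mul f x y hxy ih =>
    have h1 := ih (fun k => d (Equiv.swap x y k))
    have h2 := T_comp d x y hxy
    rw [map_mul, Equiv.Perm.sign_swap hxy]
    simp only [Equiv.Perm.mul_apply]
    rw [h1, h2]
    simp

theorem ss_au (x : Fin 3 → ℤ) (ι : Equiv.Perm (HV V L)) (s : V ≃ V') (s' : L ≃ L')
    (r : V → Equiv.Perm (Fin 3)) (F : (HV V' L' → Q) → ℤ) :
    ss x (cj (au s s' r) ι) F =
      ((∏ i, Equiv.Perm.sign (r i) : ℤˣ) : ℤ) * ss x ι (fun c => F fun y => c ((au s s' r).symm y)) := by
  unfold ss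
  rw [Finset.mul_sum]
  refine Finset.sum_bij' (fun c _ => fun y => c (au s s' r y))
    (fun c _ => fun y => c ((au s s' r).symm y)) ?_ ?_ ?_ ?_ ?_
  · intro c hc
    rw [mem_cl'] at hc ⊢
    intro h
    rw [← hc, cj_apply]
  · intro c hc
    rw [mem_cl'] at hc ⊢
    intro h
    obtain ⟨y, rfl⟩ := (au s s' r).surjective h
    rw [cj_apply, Equiv.symm_apply_apply, Equiv.symm_apply_apply, hc]
  · intro c _
    funext y
    simp
  · intro c _
    funext y
    simp
  · intro c hc
    have e2 : vq (fun y => c (au s s' r y)) =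
        ((∏ i, Equiv.Perm.sign (r i) : ℤˣ) : ℤ) * vq c := by
      unfold vq
      push_cast
      rw [← Fintype.prod_equiv s (fun i => T (c (Sum.inl (s i, 0))) (c (Sum.inl (s i, 1)))
        (c (Sum.inl (s i, 2)))) _ (fun i => rfl), ← Finset.prod_mul_distrib]
      refine Finset.prod_congr rfl fun i _ => ?_
      exact T_perm (fun k => c (Sum.inl (s i, k))) (r i)
    have e3 : ∏ j, dx x (c (Sum.inr j)) = ∏ j, dx x (c (au s s' r (Sum.inr j))) := by
      exact (Fintype.prod_equiv s' (fun j => dx x (c (Sum.inr (s' j)))) _ (fun i => rfl)).symm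
    have e1 : F (fun y => c ((au s s' r) ((au s s' r).symm y))) = F c := by
      congr 1
      funext y
      rw [Equiv.apply_symm_apply]
    show vq c * F c * ∏ j, dx x (c (Sum.inr j)) = ((∏ i, Equiv.Perm.sign (r i) : ℤˣ) : ℤ) *
      (vq (fun y => c (au s s' r y)) * F (fun y => c ((au s s' r) ((au s s' r).symm y))) *
        ∏ j, dx x (c (au s s' r (Sum.inr j))))
    rw [e1, e2, e3, ← mul_assoc, ← mul_assoc, ← mul_assoc]
    have e4 : ((∏ i, Equiv.Perm.sign (r i) : ℤˣ) : ℤ) * ((∏ i, Equiv.Perm.sign (r i) : ℤˣ) : ℤ) =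
        1 := by
      rw [← Units.val_mul, Int.units_mul_self]
      rfl
    rw [e4, one_mul]

/-- extension of a colouring to an insertion -/
def xc (c : HV V L → Q) (a b k : Q) : HV (Option V) (Option L) → Q
  | Sum.inl (some v, k') => c (Sum.inl (v, k'))
  | Sum.inl (none, 0) => k
  | Sum.inl (none, 1) => a
  | Sum.inl (none, 2) => b
  | Sum.inr (some j) => c (Sum.inr j)
  | Sum.inr none => k.swap

omit [Fintype V] [Fintype L] in
theorem xc_em (c : HV V L → Q) (a b k : Q) (x : HV V L) : xc c a b k (em x) = c x := by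
  rcases x with ⟨i, k'⟩ | j <;> rfl

omit [Fintype V] [Fintype L] in
theorem xc_ext {c c' : HV (Option V) (Option L) → Q} (h1 : ∀ x, c (em x) = c' (em x))
    (h2 : ∀ k, c (nw k) = c' (nw k)) (h3 : c nl = c' nl) : c = c' := by
  funext x
  induction x using hv_cases with
  | h1 x => exact h1 x
  | h2 => exact h2 0
  | h3 => exact h2 1
  | h4 => exact h2 2
  | h5 => exact h3

/-- the factor of a half-edge -/
def dl (x : Fin 3 → ℤ) (a : Q) : ℤ := x a.2 - x a.1

theorem sum_dl (x : Fin 3 → ℤ) (a b : Q) : ∑ k : Q, T k a.swap b * dx x k.swap =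
    if b = a then dl x a else 0 := by
  unfold T dx dl
  rw [Fintype.sum_prod_type]
  rcases a with ⟨a1, a2⟩
  rcases b with ⟨b1, b2⟩
  fin_cases a1 <;> fin_cases a2 <;> fin_cases b1 <;> fin_cases b2 <;>
    simp [Fin.sum_univ_three] <;> ring

theorem vq_xc (c : HV V L → Q) (a b k : Q) : vq (xc c a b k) = T k a b * vq c := by
  unfold vq
  rw [Fintype.prod_option]
  rfl

theorem pr_xc (x : Fin 3 → ℤ) (c : HV V L → Q) (a b k : Q) :
    ∏ j, dx x (xc c a b k (Sum.inr j)) = dx x k.swap * ∏ j, dx x (c (Sum.inr j)) := by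
  rw [Fintype.prod_option]
  rfl

open Classical in
theorem ss_ins (x : Fin 3 → ℤ) {ι : Equiv.Perm (HV V L)} (hι : Val ι) (h : HV V L)
    (G : (HV V L → Q) → ℤ) :
    ss x (ins ι h) (fun c => G fun y => c (em y)) = ss x ι (fun c => G c * dl x (c h)) := by
  have hn : ι h ≠ h := hι.nofix h
  set Z : (HV V L → Q) → Q → ℤ := fun c b =>
    vq (Function.update c (ι h) b.swap) * G (Function.update c (ι h) b.swap) *
      ∏ j, dx x (Function.update c (ι h) b.swap (Sum.inr j)) with hZ
  have e1 : ss x (ins ι h) (fun c => G fun y => c (em y)) =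
      ∑ p ∈ (cl' ι) ×ˢ ((Finset.univ : Finset Q) ×ˢ (Finset.univ : Finset Q)),
        Z p.1 p.2.1 * (T p.2.2 (p.1 h).swap p.2.1 * dx x p.2.2.swap) := by
    unfold ss
    symm
    refine Finset.sum_bij' (fun p _ => xc (Function.update p.1 (ι h) p.2.1.swap) (p.1 h).swap
      p.2.1 p.2.2) (fun c _ => (Function.update (fun y => c (em y)) (ι h) (c (em h)).swap,
      (c (nw 2), c (nw 0)))) ?_ ?_ ?_ ?_ ?_
    · rintro ⟨c, b, k⟩ hc
      simp only [Finset.mem_product, Finset.mem_univ, and_true] at hc
      rw [mem_cl'] at hc ⊢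
      intro z
      induction z using hv_cases with
      | h1 y =>
        by_cases h1 : y = h
        · subst h1
          rw [ins_h, xc_em, Function.update_of_ne hn.symm]
          rfl
        · by_cases h2 : y = ι h
          · subst h2
            rw [ins_ih (hι.invol _) hn, xc_em, Function.update_self, Prod.swap_swap]
            rfl
          · rw [ins_em hι.invol h1 h2, xc_em, xc_em, Function.update_of_ne h2,
              Function.update_of_ne (fun e => h1 (ι.injective e))]
            exact hc y
      | h2 => rw [ins_0]; rfl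
      | h3 =>
        rw [ins_1, xc_em, Function.update_of_ne hn.symm]
        show c h = ((c h).swap).swap
        rw [Prod.swap_swap]
      | h4 =>
        rw [ins_2 hn, xc_em, Function.update_self]
        rfl
      | h5 =>
        rw [ins_l]
        show k = k.swap.swap
        rw [Prod.swap_swap]
    · intro c hc
      simp only [Finset.mem_product, Finset.mem_univ, and_true]
      rw [mem_cl'] at hc ⊢
      intro y
      by_cases h1 : y = h
      · subst h1
        rw [Function.update_self, Function.update_of_ne hn.symm]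
      · by_cases h2 : y = ι h
        · subst h2
          rw [hι.invol, Function.update_self, Function.update_of_ne hn.symm, Prod.swap_swap]
        · rw [Function.update_of_ne h2, Function.update_of_ne (fun e => h1 (ι.injective e)),
            ← ins_em hι.invol h1 h2, hc]
    · rintro ⟨c, b, k⟩ hc
      simp only [Finset.mem_product, Finset.mem_univ, and_true] at hc
      rw [mem_cl'] at hc
      refine Prod.ext ?_ rfl
      funext y
      show Function.update (fun y => xc (Function.update c (ι h) b.swap) (c h).swap b k (em y))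
        (ι h) (xc (Function.update c (ι h) b.swap) (c h).swap b k (em h)).swap y = c y
      rw [xc_em, Function.update_of_ne hn.symm]
      by_cases h2 : y = ι h
      · subst h2
        rw [Function.update_self, hc]
      · rw [Function.update_of_ne h2, xc_em, Function.update_of_ne h2]
    · intro c hc
      rw [mem_cl'] at hc
      apply xc_ext
      · intro y
        rw [xc_em]
        by_cases h2 : y = ι h
        · subst h2
          rw [Function.update_self]
          show (c (nw 2)).swap = _
          rw [← hc, ins_2 hn]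
        · rw [Function.update_of_ne h2]
          show Function.update (fun y => c (em y)) (ι h) (c (em h)).swap y = _
          rw [Function.update_of_ne h2]
      · intro m
        fin_cases m
        · rfl
        · show (Function.update (fun y => c (em y)) (ι h) (c (em h)).swap h).swap = c (nw 1)
          rw [Function.update_of_ne hn.symm, ← ins_h (ι := ι) (h := h), hc]
        · rfl
      · show (c (nw 0)).swap = c nl
        rw [← hc, ins_0]
    · rintro ⟨c, b, k⟩ hc
      show Z c b * (T k (c h).swap b * dx x k.swap) = _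
      rw [vq_xc, pr_xc]
      simp only [xc_em]
      rw [hZ]
      ring
  rw [e1, Finset.sum_product]
  unfold ss
  refine Finset.sum_congr rfl fun c hc => ?_
  rw [mem_cl'] at hc
  rw [Finset.sum_product]
  have e2 : ∀ b : Q, ∑ k : Q, Z c b * (T k (c h).swap b * dx x k.swap) =
      if b = c h then Z c b * dl x (c h) else 0 := by
    intro b
    rw [← Finset.mul_sum, sum_dl]
    split_ifs <;> simp
  rw [Finset.sum_congr rfl fun b _ => e2 b, Finset.sum_ite_eq' Finset.univ (c h),
    if_pos (Finset.mem_univ _)]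
  have e3 : Function.update c (ι h) (c h).swap = c := by
    rw [← hc]
    exact Function.update_eq_self _ _
  rw [hZ]
  show vq (Function.update c (ι h) (c h).swap) * G (Function.update c (ι h) (c h).swap) *
      (∏ j, dx x (Function.update c (ι h) (c h).swap (Sum.inr j))) * dl x (c h) = _
  rw [e3]
  ring

end

/-- the state sum of a marked diagram -/
noncomputable def SS (x : Fin 3 → ℤ) (D : Dg) (F : (Fin 3 → Q) → ℤ) : ℤ :=
  ss x D.ι fun c => F fun k => c (D.p k)

theorem SS_add (x : Fin 3 → ℤ) {D : Dg} (hD : Val D.ι) (F : (Fin 3 → Q) → ℤ) (k : Fin 3) :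
    SS x (D.add k) F = SS x D (fun m => F m * dl x (m k)) :=
  ss_ins x hD (D.p k) (fun c => F fun k => c (D.p k))

theorem SS_adds (x : Fin 3 → ℤ) {D : Dg} (hD : Val D.ι) (w : List (Fin 3)) :
    ∀ F : (Fin 3 → Q) → ℤ, SS x (D.adds w) F =
      SS x D (fun m => F m * (w.map fun k => dl x (m k)).prod) := by
  induction w with
  | nil =>
    intro F
    simp [Dg.adds]
  | cons k w ih =>
    intro F
    show SS x ((D.adds w).add k) F = _
    rw [SS_add x (Dg.val_adds hD w), ih]
    congr 1
    funext m
    rw [List.map_cons, List.prod_cons]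
    ring

theorem T_swaps (a b c : Q) : T a.swap b.swap c.swap = - T a b c := by
  unfold T
  simp only [Prod.fst_swap, Prod.snd_swap]
  have h1 : (a.1 = b.2 ∧ b.1 = c.2 ∧ c.1 = a.2) ↔ (a.2 = c.1 ∧ c.2 = b.1 ∧ b.2 = a.1) := by
    constructor
    · rintro ⟨h1, h2, h3⟩; exact ⟨h3.symm, h2.symm, h1.symm⟩
    · rintro ⟨h1, h2, h3⟩; exact ⟨h3.symm, h2.symm, h1.symm⟩
  have h2 : (a.1 = c.2 ∧ c.1 = b.2 ∧ b.1 = a.2) ↔ (a.2 = b.1 ∧ b.2 = c.1 ∧ c.2 = a.1) := by
    constructor
    · rintro ⟨h1, h2, h3⟩; exact ⟨h3.symm, h2.symm, h1.symm⟩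
    · rintro ⟨h1, h2, h3⟩; exact ⟨h3.symm, h2.symm, h1.symm⟩
  simp only [h1, h2]
  ring

theorem SS_th (x : Fin 3 → ℤ) (F : (Fin 3 → Q) → ℤ) :
    SS x th F = - ∑ m : Fin 3 → Q, T (m 0) (m 1) (m 2) ^ 2 * F m := by
  unfold SS ss
  rw [← Finset.sum_neg_distrib]
  symm
  refine Finset.sum_bij' (fun m _ => fun y : HV Bool Empty => match y with
    | Sum.inl (true, k) => m k
    | Sum.inl (false, k) => (m k).swap
    | Sum.inr j => j.elim) (fun c _ => fun k => c (Sum.inl (true, k))) ?_ ?_ ?_ ?_ ?_
  · intro m _
    rw [mem_cl']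
    intro y
    change HV Bool Empty at y
    induction y using hb_cases with
    | h b k =>
      cases b
      · show m k = ((m k).swap).swap
        rw [Prod.swap_swap]
      · rfl
  · intro c _
    exact Finset.mem_univ _
  · intro m _
    rfl
  · intro c hc
    rw [mem_cl'] at hc
    funext y
    change HV Bool Empty at y
    induction y using hb_cases with
    | h b k =>
      cases b
      · exact (hc (Sum.inl (true, k))).symm
      · rfl
  · intro m _
    have e : vq (fun y : HV Bool Empty => match y with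
        | Sum.inl (true, k) => m k
        | Sum.inl (false, k) => (m k).swap
        | Sum.inr j => j.elim) = - T (m 0) (m 1) (m 2) ^ 2 := by
      unfold vq
      rw [Fintype.prod_bool]
      show T (m 0) (m 1) (m 2) * T (m 0).swap (m 1).swap (m 2).swap = _
      rw [T_swaps]
      ring
    have e' : ∏ j : Empty, dx x ((fun y : HV Bool Empty => match y with
        | Sum.inl (true, k) => m k
        | Sum.inl (false, k) => (m k).swap
        | Sum.inr j => j.elim) (Sum.inr j)) = 1 := rfl
    show _ = vq (fun y : HV Bool Empty => match y with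
        | Sum.inl (true, k) => m k
        | Sum.inl (false, k) => (m k).swap
        | Sum.inr j => j.elim) * F m * 1
    rw [e]
    ring

/-- the value on theta with legs -/
theorem ss_word (x : Fin 3 → ℤ) (w : List (Fin 3)) :
    ss x (th.adds w).ι (fun _ => 1) = - ∑ m : Fin 3 → Q, T (m 0) (m 1) (m 2) ^ 2 *
      (w.map fun k => dl x (m k)).prod := by
  have := SS_adds x val_th w (fun _ => 1)
  rw [SS_th] at this
  simp only [one_mul] at this
  exact this

end Pool.Agent.Helper1.TL
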