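import Pool.Agent.Helper1.TL.Pol

namespace Pool.Agent.Helper1.TL

set_option maxHeartbeats 400000

open Finset MvPolynomial
open Pool.Agent.Helper1.JD (A Kl Half Diag cls Valid cherry_or_inj cl_valid)

section
variable {V L : Type} [Fintype V] [Fintype L]

theorem ss_fin {t l : ℕ} (x : Fin 3 → ℤ) (ι : Equiv.Perm (Half t l)) :
    ∑ c ∈ col ι, vp c * ∏ j, dx x (c (Sum.inr j)) = ss x ι (fun _ => 1) := by
  unfold ss
  have : col ι = cl' ι := by
    ext c
    rw [mem_col, mem_cl']
  rw [this]
  refine Finset.sum_congr rfl fun c _ => ?_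
  rw [mul_one]
  rfl

/-- the value of the weight on the class -/
theorem sig_q {d : ℕ} {H : AddSubgroup A} (hs : Sz d H V L) {ι : Equiv.Perm (HV V L)} (hι : Val ι)
    (x : Fin 3 → ℤ) (σ : A →+ ℤ)
    (h2 : ∀ (t l : ℕ) (D : Diag t l), t = Nat.card V → σ (cls D) =
      ∑ c ∈ col D.ι, vp c * ∏ j, dx x (c (Sum.inr j)))
    (hσ : H ≤ σ.ker) : QuotientAddGroup.lift H σ hσ (q H ι) = ss x ι (fun _ => 1) := by
  obtain ⟨n, ⟨e⟩⟩ := Finite.exists_equiv_fin V
  obtain ⟨m, ⟨f⟩⟩ := Finite.exists_equiv_fin L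
  have hn : n = Nat.card V := by
    rw [Nat.card_congr e, Nat.card_eq_fintype_card, Fintype.card_fin]
  have hm : 0 < m := by
    have := hs.pos
    rwa [Nat.card_congr f, Nat.card_eq_fintype_card, Fintype.card_fin] at this
  have h1 : Valid (cj (au e f fun _ => 1) ι) := (hι.au e f _).valid hm
  rw [q_num hs hι e f, QuotientAddGroup.lift_mk, cl_valid h1, h2 _ _ _ hn]
  have e1 : ∑ c ∈ col h1.diag.ι, vp c * ∏ j, dx x (c (Sum.inr j)) =
      ss x (cj (au e f fun _ => 1) ι) (fun _ => 1) := ss_fin x _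
  rw [e1, ss_au]
  simp

end

/-- polynomial representatives -/
theorem exists_poly {d : ℕ} (hd : 3 ≤ d) {H : AddSubgroup A} (hH : Kl d (d - 2) ≤ H)
    (σ : (Fin 3 → ℤ) → A →+ ℤ)
    (h2 : ∀ (x : Fin 3 → ℤ) (t l : ℕ) (D : Diag t l), t = d + 1 → σ x (cls D) =
      ∑ c ∈ col D.ι, vp c * ∏ j, dx x (c (Sum.inr j)))
    (hσ : ∀ x, H ≤ (σ x).ker) {y : A ⧸ H} (hy : y ∈ Sp d H) :
    ∃ p : MvPolynomial (Fin 3) ℤ, lam d H p = y ∧
      (∀ x, QuotientAddGroup.lift H (σ x) (hσ x) y = - ∑ m : Fin 3 → Q,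
        T (m 0) (m 1) (m 2) ^ 2 * eval (fun k => dl x (m k)) p) ∧
      ∀ (t : ℤ) (v : Fin 3 → ℤ), eval (fun i => t * v i) p = t ^ (d - 1) * eval v p := by
  unfold Sp at hy
  induction hy using AddSubgroup.closure_induction with
  | mem y hy =>
    obtain ⟨w, hw, rfl⟩ := hy
    have hs := sz_th (by omega) hH hw
    have hdg : dg (mc w) = w.length := by
      rw [← length_wd]
      exact (wd_mc w).length_eq.symm
    have hev : ∀ v : Fin 3 → ℤ, eval v (monomial (mc w) 1) = (w.map v).prod := by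
      intro v
      have h1 : (w.map v).prod = ((wd (mc w)).map v).prod := ((wd_mc w).map v).prod_eq
      rw [h1, eval_monomial, one_mul]
      unfold wd
      rw [List.map_append, List.map_append, List.prod_append, List.prod_append,
        List.map_replicate, List.map_replicate, List.map_replicate, List.prod_replicate,
        List.prod_replicate, List.prod_replicate, Finsupp.prod_fintype _ _ (fun i => pow_zero _),
        Fin.prod_univ_three, mul_assoc]
    refine ⟨monomial (mc w) 1, ?_, ?_, ?_⟩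
    · rw [lam_mono]
      exact lam0_word (by omega) hH (fun k => (mc_apply w k).symm) (by rw [hdg]; exact hw)
    · intro x
      obtain ⟨c1, c2⟩ := card_th w
      rw [sig_q hs (Dg.val_adds val_th w) x (σ x) (fun t l D ht => h2 x t l D (by
        rw [ht, c1]; omega)) (hσ x), ss_word]
      simp only [hev]
    · intro t v
      rw [hev, hev]
      have hl : d - 1 = w.length := by omega
      rw [hl]
      clear hs hdg hev hw hl
      induction w with
      | nil => simp
      | cons k w ih =>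
        rw [List.map_cons, List.prod_cons, ih, List.map_cons, List.prod_cons, List.length_cons,
          pow_succ]
        ring
  | zero =>
    refine ⟨0, by simp, fun x => by simp, fun t v => by simp⟩
  | add y z _ _ hy hz =>
    obtain ⟨p, h1, h3, h4⟩ := hy
    obtain ⟨r, k1, k3, k4⟩ := hz
    refine ⟨p + r, by rw [map_add, h1, k1], fun x => ?_, fun t v => ?_⟩
    · rw [map_add, h3, k3]
      simp only [map_add, mul_add, Finset.sum_add_distrib]
      ring
    · rw [map_add, map_add, h4, k4]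
      ring
  | neg y _ hy =>
    obtain ⟨p, h1, h3, h4⟩ := hy
    refine ⟨-p, by rw [map_neg, h1], fun x => ?_, fun t v => ?_⟩
    · rw [map_neg, h3]
      simp only [map_neg, mul_neg, Finset.sum_neg_distrib]
    · rw [map_neg, map_neg, h4]
      ring

/-- classes of diagrams with `d - 1` legs -/
theorem top_mem {d : ℕ} (hd : 3 ≤ d) {t l : ℕ} {ι : Equiv.Perm (Half t l)} (hι : Valid ι)
    (hsum : t + l = 2 * d) (hl : l = d - 1) :
    (QuotientAddGroup.mk (JD.cl ι) : A ⧸ Kl d (d - 2)) ∈ Sp d (Kl d (d - 2)) := by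
  have hl' : l - 1 = d - 2 := by omega
  rcases cherry_or_inj hd hι hsum with h | ⟨f, hf, hinj⟩
  · rw [hl'] at h
    rw [(QuotientAddGroup.eq_zero_iff _).2 h]
    exact zero_mem _
  · have hs : Sz d (Kl d (d - 2)) (Fin t) (Fin l) := by
      refine ⟨?_, ?_, ?_⟩
      · simpa using hsum
      · simpa using hι.2.2.2
      · rw [Nat.card_eq_fintype_card, Fintype.card_fin, hl']
    have hv := val_of hι
    have hq : q (Kl d (d - 2)) ι = QuotientAddGroup.mk (JD.cl ι) := by
      rw [q_num hs hv (Equiv.refl _) (Equiv.refl _), au_one, cj_refl]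
    rw [← hq]
    apply gen_q hs _ hv
    · constructor
      · intro j
        rw [hf]
        exact ⟨_, _, rfl⟩
      · intro j j' i k k' h1 h2
        apply hinj
        rw [hf] at h1 h2
        have e1 := congrArg Prod.fst (Sum.inl_injective h1)
        have e2 := congrArg Prod.fst (Sum.inl_injective h2)
        exact e1.trans e2.symm
    · simp
      omega

/-- elements of the second step of the filtration -/
theorem two_mem {d : ℕ} (hd : 3 ≤ d) {x : A} (hx : x ∈ Kl d (d - 1)) :
    (QuotientAddGroup.mk x : A ⧸ Kl d (d - 2)) ∈ Sp d (Kl d (d - 2)) := by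
  unfold Kl at hx
  induction hx using AddSubgroup.closure_induction with
  | mem x hx =>
    obtain ⟨t, l, ι, h1, h2, h3, rfl⟩ := hx
    by_cases hl : l = d - 1
    · exact top_mem hd h3 h1 hl
    · have : JD.cl ι ∈ Kl d (d - 2) := JD.mem_Kl h3 h1 (by omega)
      rw [(QuotientAddGroup.eq_zero_iff _).2 this]
      exact zero_mem _
  | zero => exact zero_mem _
  | add x y _ _ hx hy => rw [QuotientAddGroup.mk_add]; exact add_mem hx hy
  | neg x _ hx => rw [QuotientAddGroup.mk_neg]; exact neg_mem hx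

/-- the main step -/
theorem main_two {d : ℕ} (hd : 3 ≤ d) {x : A} (hx : x ∈ Kl d (d - 1)) {n : ℤ} (hn : Odd n)
    (h3 : Odd d → ¬ (3 : ℤ) ∣ n) (h : n • x ∈ Kl d (d - 2)) : x ∈ Kl d (d - 2) := by
  set H : AddSubgroup A := Kl d (d - 2) with hHdef
  have hy := two_mem hd hx
  rw [← hHdef] at hy
  have hnx : n • (QuotientAddGroup.mk x : A ⧸ H) = 0 := by
    rw [← QuotientAddGroup.mk_zsmul]
    exact (QuotientAddGroup.eq_zero_iff _).2 h
  choose σ σ1 σ2 using fun x : Fin 3 → ℤ => exists_sigma (d + 1) x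
  have hσ : ∀ x, H ≤ (σ x).ker := by
    intro x
    rw [hHdef]
    unfold Kl
    rw [AddSubgroup.closure_le]
    rintro y ⟨t, l, ι, h1, h2, h3, rfl⟩
    show σ x (JD.cl ι) = 0
    rw [cl_valid h3]
    exact σ1 x _ _ _ (by omega)
  obtain ⟨p, hp1, hp2, hp3⟩ := exists_poly hd (H := H) le_rfl σ σ2 hσ hy
  have hgoal : (QuotientAddGroup.mk x : A ⧸ H) = 0 → x ∈ H := fun e =>
    (QuotientAddGroup.eq_zero_iff _).1 e
  apply hgoal
  rcases Nat.even_or_odd d with he | ho
  · have h2 : (2 : ℤ) • (QuotientAddGroup.mk x : A ⧸ H) = 0 := by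
      rw [← hp1]
      exact lam_odd (by omega) le_rfl he p
    obtain ⟨k, hk⟩ := hn
    have : (QuotientAddGroup.mk x : A ⧸ H) =
        n • (QuotientAddGroup.mk x : A ⧸ H) - k • ((2 : ℤ) • (QuotientAddGroup.mk x : A ⧸ H)) := by
      rw [hk]
      module
    rw [this, hnx, h2, smul_zero, sub_zero]
  · have h3' := h3 ho
    have hn0 : n ≠ 0 := by
      rintro rfl
      exact h3' (dvd_zero _)
    have hP : ∀ v : Fin 3 → ℤ, ∑ m : Fin 3 → Q, T (m 0) (m 1) (m 2) ^ 2 *
        eval (fun k => dl v (m k)) p = 0 := by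
      intro v
      have e1 : n * QuotientAddGroup.lift H (σ v) (hσ v) (QuotientAddGroup.mk x : A ⧸ H) = 0 := by
        rw [← smul_eq_mul, ← map_zsmul, hnx, map_zero]
      have e2 := (mul_eq_zero.1 e1).resolve_left hn0
      rw [hp2 v] at e2
      exact neg_eq_zero.1 e2
    have hel : Even (d - 1) := by
      obtain ⟨k, hk⟩ := ho
      exact ⟨k, by omega⟩
    have h6 : lam d H (sy p) = 0 :=
      lam_plane hd le_rfl _ (plane_zero hel (by omega) hp3 hP)
    rw [lam_sy (by omega) le_rfl, hp1] at h6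
    have hc : IsCoprime n 6 := by
      have c2 : IsCoprime n 2 := by
        obtain ⟨k, hk⟩ := hn
        exact ⟨1, -k, by rw [hk]; ring⟩
      have c3 : IsCoprime n 3 := by
        rw [isCoprime_comm]
        exact (Int.prime_three.coprime_iff_not_dvd).2 h3'
      have := c2.mul_right c3
      norm_num at this
      exact this
    obtain ⟨a, b, hab⟩ := hc
    have : (QuotientAddGroup.mk x : A ⧸ H) =
        a • (n • (QuotientAddGroup.mk x : A ⧸ H)) + b • ((6 : ℤ) • (QuotientAddGroup.mk x : A ⧸ H)) := by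
      calc (QuotientAddGroup.mk x : A ⧸ H) = (1 : ℤ) • (QuotientAddGroup.mk x : A ⧸ H) :=
            (one_smul _ _).symm
        _ = (a * n + b * 6) • (QuotientAddGroup.mk x : A ⧸ H) := by rw [hab]
        _ = _ := by module
    rw [this, hnx, h6, smul_zero, smul_zero, add_zero]

end Pool.Agent.Helper1.TL
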