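import Pool.Agent.Helper1.TL.Bs

namespace Pool.Agent.Helper1.TL

set_option maxHeartbeats 400000

open Finset
open Pool.Agent.Helper1.JD (A Kl)

/-- no two legs at a vertex -/
structure NC {V L : Type} (ι : Equiv.Perm (HV V L)) : Prop where
  inl : ∀ j, NL (ι (Sum.inr j))
  inj : ∀ j j' i k k', ι (Sum.inr j) = Sum.inl (i, k) → ι (Sum.inr j') = Sum.inl (i, k') → j = j'

theorem NC.au {V L V' L' : Type} {ι : Equiv.Perm (HV V L)} (h : NC ι) (s : V ≃ V') (s' : L ≃ L')
    (r : V → Equiv.Perm (Fin 3)) : NC (cj (TL.au s s' r) ι) := by
  have e : ∀ j, cj (TL.au s s' r) ι (Sum.inr (s' j)) = TL.au s s' r (ι (Sum.inr j)) := by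
    intro j
    exact cj_apply (TL.au s s' r) ι (Sum.inr j)
  constructor
  · intro j
    obtain ⟨j, rfl⟩ := s'.surjective j
    rw [e, NL.au_iff]
    exact h.inl j
  · intro j j' i k k' h1 h2
    obtain ⟨j, rfl⟩ := s'.surjective j
    obtain ⟨j', rfl⟩ := s'.surjective j'
    rw [e] at h1 h2
    obtain ⟨a, m, ha⟩ := h.inl j
    obtain ⟨a', m', ha'⟩ := h.inl j'
    rw [ha, au_inl] at h1
    rw [ha', au_inl] at h2
    have h3 := (Prod.mk.inj (Sum.inl_injective h1)).1
    have h4 := (Prod.mk.inj (Sum.inl_injective h2)).1
    have h5 : a = a' := s.injective (h3.trans h4.symm)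
    subst h5
    rw [h.inj j j' a m m' ha ha']

/-- removing a leg -/
theorem uninsert {V L : Type} [Nonempty V] {κ : Equiv.Perm (HV (Option V) (Option L))}
    (hκ : Val κ) (hn : NC κ) (h0 : κ nl = nw 0) :
    ∃ (ι : Equiv.Perm (HV V L)) (a : HV V L), Val ι ∧ NC ι ∧ NL a ∧ NL (ι a) ∧
      κ = ins ι a := by
  have h0' : κ (nw 0) = nl := by rw [← h0, hκ.invol]
  have notclosed : κ (nw 1) ≠ nw 2 := by
    intro h12
    have h21 : κ (nw 2) = nw 1 := by rw [← h12, hκ.invol]
    obtain ⟨v⟩ := ‹Nonempty V›
    have := hκ.conn {x | (∃ k, x = nw k) ∨ x = nl} (by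
      rintro x (⟨k, rfl⟩ | rfl)
      · fin_cases k
        · exact Or.inr h0'
        · exact Or.inl ⟨2, h12⟩
        · exact Or.inl ⟨1, h21⟩
      · exact Or.inl ⟨0, h0⟩) (by
      rintro i k k' (⟨m, e⟩ | e)
      · have h1 : i = none := (Prod.mk.inj (Sum.inl_injective e)).1
        subst h1
        exact Or.inl ⟨k', rfl⟩
      · cases e) ⟨nl, Or.inr rfl⟩ (Sum.inl (some v, 0))
    rcases this with ⟨m, e⟩ | e
    · cases (Prod.mk.inj (Sum.inl_injective e)).1
    · cases e
  have ha : ∃ a : HV V L, κ (nw 1) = em a ∧ NL a := by
    have key : ∀ x, κ (nw 1) = x → ∃ a : HV V L, x = em a ∧ NL a := by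
      intro x hx
      induction x using hv_cases with
      | h1 x =>
        refine ⟨x, rfl, ?_⟩
        rcases x with ⟨i, k⟩ | j
        · exact ⟨i, k, rfl⟩
        · exfalso
          have h1 : κ (Sum.inr (some j)) = Sum.inl (none, 1) := by
            have : κ (em (Sum.inr j)) = nw 1 := by rw [← hx, hκ.invol]
            exact this
          have := hn.inj (some j) none none 1 0 h1 h0
          cases this
      | h2 =>
        exfalso
        have : κ (nw 0) = nw 1 := by rw [← hx, hκ.invol]
        rw [h0'] at this
        exact nw_ne_nl _ this.symm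
      | h3 => exact absurd hx (hκ.nofix _)
      | h4 => exact absurd hx notclosed
      | h5 =>
        exfalso
        have : κ nl = nw 1 := by rw [← hx, hκ.invol]
        rw [h0, nw_inj] at this
        exact absurd this (by decide)
    exact key _ rfl
  obtain ⟨a, ha, na⟩ := ha
  have hb : ∃ b : HV V L, κ (nw 2) = em b ∧ NL b := by
    have key : ∀ x, κ (nw 2) = x → ∃ a : HV V L, x = em a ∧ NL a := by
      intro x hx
      induction x using hv_cases with
      | h1 x =>
        refine ⟨x, rfl, ?_⟩
        rcases x with ⟨i, k⟩ | j
        · exact ⟨i, k, rfl⟩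
        · exfalso
          have h1 : κ (Sum.inr (some j)) = Sum.inl (none, 2) := by
            have : κ (em (Sum.inr j)) = nw 2 := by rw [← hx, hκ.invol]
            exact this
          have := hn.inj (some j) none none 2 0 h1 h0
          cases this
      | h2 =>
        exfalso
        have : κ (nw 0) = nw 2 := by rw [← hx, hκ.invol]
        rw [h0'] at this
        exact nw_ne_nl _ this.symm
      | h3 =>
        exfalso
        apply notclosed
        rw [← hx, hκ.invol]
      | h4 => exact absurd hx (hκ.nofix _)
      | h5 =>
        exfalso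
        have : κ nl = nw 2 := by rw [← hx, hκ.invol]
        rw [h0, nw_inj] at this
        exact absurd this (by decide)
    exact key _ rfl
  obtain ⟨b, hb, nb⟩ := hb
  have ha' : κ (em a) = nw 1 := by rw [← ha, hκ.invol]
  have hb' : κ (em b) = nw 2 := by rw [← hb, hκ.invol]
  have hab : a ≠ b := by
    rintro rfl
    rw [ha', nw_inj] at hb'
    exact absurd hb' (by decide)
  have hx : ∀ x, ∃ y : HV V L, (x = a → y = b) ∧ (x = b → y = a) ∧
      (x ≠ a → x ≠ b → κ (em x) = em y) := by
    intro x
    by_cases h1 : x = a
    · exact ⟨b, fun _ => rfl, fun h => absurd (h1.symm.trans h) hab, fun h => absurd h1 h⟩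
    · by_cases h2 : x = b
      · exact ⟨a, fun h => absurd h h1, fun _ => rfl, fun _ h => absurd h2 h⟩
      · have key : ∀ z, κ (em x) = z → ∃ y : HV V L, z = em y := by
          intro z hz
          induction z using hv_cases with
          | h1 z => exact ⟨z, rfl⟩
          | h2 =>
            exfalso
            have : κ (nw 0) = em x := by rw [← hz, hκ.invol]
            rw [h0'] at this
            exact em_ne_nl _ this.symm
          | h3 =>
            exfalso
            have : κ (nw 1) = em x := by rw [← hz, hκ.invol]
            rw [ha] at this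
            exact h1 (em_injective this).symm
          | h4 =>
            exfalso
            have : κ (nw 2) = em x := by rw [← hz, hκ.invol]
            rw [hb] at this
            exact h2 (em_injective this).symm
          | h5 =>
            exfalso
            have : κ nl = em x := by rw [← hz, hκ.invol]
            rw [h0] at this
            exact em_ne_nw _ _ this.symm
        obtain ⟨y, hy⟩ := key _ rfl
        exact ⟨y, fun h => absurd h h1, fun h => absurd h h2, fun _ _ => hy⟩
  choose f f1 f2 f3 using hx
  have fa : f a = b := f1 a rfl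
  have fb : f b = a := f2 b rfl
  have ff : ∀ x, f (f x) = x := by
    intro x
    by_cases h1 : x = a
    · rw [h1, fa, fb]
    · by_cases h2 : x = b
      · rw [h2, fb, fa]
      · have h3 := f3 x h1 h2
        have h4 : f x ≠ a := by
          intro e
          rw [e] at h3
          have : κ (em a) = em x := by rw [← h3, hκ.invol]
          rw [ha'] at this
          exact em_ne_nw _ _ this.symm
        have h5 : f x ≠ b := by
          intro e
          rw [e] at h3
          have : κ (em b) = em x := by rw [← h3, hκ.invol]
          rw [hb'] at this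
          exact em_ne_nw _ _ this.symm
        have h6 := f3 (f x) h4 h5
        apply em_injective
        rw [← h6, ← h3, hκ.invol]
  have fn : ∀ x, f x ≠ x := by
    intro x
    by_cases h1 : x = a
    · rw [h1, fa]; exact hab.symm
    · by_cases h2 : x = b
      · rw [h2, fb]; exact hab
      · intro e
        have h3 := f3 x h1 h2
        rw [e] at h3
        exact hκ.nofix _ h3
  set ι : Equiv.Perm (HV V L) := ⟨f, f, ff, ff⟩ with hι
  have hιf : ∀ x, ι x = f x := fun _ => rfl
  have hins : κ = ins ι a := by
    apply ins_unique (ι := ι) ff fn hκ.invol h0' ha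
    · rw [hιf, fa, hb]
    · intro x h1 h2
      rw [hιf, fa] at h2
      rw [hιf, f3 x h1 h2]
  have hv : Val ι := by
    apply val_of_ins (h := a) ff fn
    rw [← hins]
    exact hκ
  refine ⟨ι, a, hv, ?_, na, by rw [hιf, fa]; exact nb, hins⟩
  have hleg : ∀ j, κ (Sum.inr (some j)) = em (ι (Sum.inr j)) := by
    intro j
    have h1 : (Sum.inr j : HV V L) ≠ a := by
      rintro rfl
      obtain ⟨i, k, e⟩ := na
      cases e
    have h2 : (Sum.inr j : HV V L) ≠ b := by
      rintro rfl
      obtain ⟨i, k, e⟩ := nb
      cases e
    exact f3 _ h1 h2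
  constructor
  · intro j
    have := hn.inl (some j)
    rw [hleg] at this
    exact this.of_em
  · intro j j' i k k' h1 h2
    have e1 : κ (Sum.inr (some j)) = Sum.inl (some i, k) := by rw [hleg, h1]; rfl
    have e2 : κ (Sum.inr (some j')) = Sum.inl (some i, k') := by rw [hleg, h2]; rfl
    exact Option.some.inj (hn.inj _ _ _ _ _ e1 e2)

/-- three slots -/
theorem base_aux {ι : Equiv.Perm (HV Bool Empty)} (hι : Val ι)
    (h0 : ι (Sum.inl (false, 0)) = Sum.inl (true, 0)) : Lk th ι ∨ Lk db ι := by
  have hi := hι.invol
  have h0' : ι (Sum.inl (true, 0)) = Sum.inl (false, 0) := by rw [← h0, hi]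
  have key : ∀ x, ι (Sum.inl (false, 1)) = x → x = Sum.inl (false, 2) ∨ x = Sum.inl (true, 1) ∨
      x = Sum.inl (true, 2) := by
    intro x hx
    induction x using hb_cases with
    | h b k =>
      cases b <;> fin_cases k
      · exfalso
        have : ι (Sum.inl (false, 0)) = Sum.inl (false, 1) := by
          rw [← hi (Sum.inl (false, 1)), hx]; rfl
        rw [h0] at this
        simp at this
      · exact absurd hx (hι.nofix _)
      · exact Or.inl rfl
      · exfalso
        have : ι (Sum.inl (true, 0)) = Sum.inl (false, 1) := by
          rw [← hi (Sum.inl (false, 1)), hx]; rfl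
        rw [h0'] at this
        simp at this
      · exact Or.inr (Or.inl rfl)
      · exact Or.inr (Or.inr rfl)
  rcases key _ rfl with h1 | h1 | h1
  · -- dumbbell
    right
    have h1' : ι (Sum.inl (false, 2)) = Sum.inl (false, 1) := by rw [← h1, hi]
    have key2 : ∀ x, ι (Sum.inl (true, 1)) = x → x = Sum.inl (true, 2) := by
      intro x hx
      have hx' : ι x = Sum.inl (true, 1) := by rw [← hx, hi]
      induction x using hb_cases with
      | h b k =>
        cases b <;> fin_cases k
        · exfalso
          have := h0.symm.trans hx'
          simp at this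
        · exfalso
          have := h1.symm.trans hx'
          simp at this
        · exfalso
          have := h1'.symm.trans hx'
          simp at this
        · exfalso
          have := h0'.symm.trans hx'
          simp at this
        · exact absurd hx (hι.nofix _)
        · rfl
    have h2 := key2 _ rfl
    have h2' : ι (Sum.inl (true, 2)) = Sum.inl (true, 1) := by rw [← h2, hi]
    have : ι = dbi := by
      ext x : 1
      induction x using hb_cases with
      | h b k =>
        cases b <;> fin_cases k
        · exact h0
        · exact h1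
        · exact h1'
        · exact h0'
        · exact h2
        · exact h2'
    rw [this]
    exact Lk.self db
  · left
    have h1' : ι (Sum.inl (true, 1)) = Sum.inl (false, 1) := by rw [← h1, hi]
    have key2 : ∀ x, ι (Sum.inl (false, 2)) = x → x = Sum.inl (true, 2) := by
      intro x hx
      have hx' : ι x = Sum.inl (false, 2) := by rw [← hx, hi]
      induction x using hb_cases with
      | h b k =>
        cases b <;> fin_cases k
        · exfalso
          have := h0.symm.trans hx'
          simp at this
        · exfalso
          have := h1.symm.trans hx'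
          simp at this
        · exact absurd hx (hι.nofix _)
        · exfalso
          have := h0'.symm.trans hx'
          simp at this
        · exfalso
          have := h1'.symm.trans hx'
          simp at this
        · rfl
    have h2 := key2 _ rfl
    have h2' : ι (Sum.inl (true, 2)) = Sum.inl (false, 2) := by rw [← h2, hi]
    have : ι = thi := by
      ext x : 1
      induction x using hb_cases with
      | h b k =>
        cases b <;> fin_cases k
        · exact h0
        · exact h1
        · exact h2
        · exact h0'
        · exact h1'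
        · exact h2'
    rw [this]
    exact Lk.self th
  · left
    have h1' : ι (Sum.inl (true, 2)) = Sum.inl (false, 1) := by rw [← h1, hi]
    have key2 : ∀ x, ι (Sum.inl (false, 2)) = x → x = Sum.inl (true, 1) := by
      intro x hx
      have hx' : ι x = Sum.inl (false, 2) := by rw [← hx, hi]
      induction x using hb_cases with
      | h b k =>
        cases b <;> fin_cases k
        · exfalso
          have := h0.symm.trans hx'
          simp at this
        · exfalso
          have := h1.symm.trans hx'
          simp at this
        · exact absurd hx (hι.nofix _)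
        · exfalso
          have := h0'.symm.trans hx'
          simp at this
        · rfl
        · exfalso
          have := h1'.symm.trans hx'
          simp at this
    have h2 := key2 _ rfl
    have h2' : ι (Sum.inl (true, 1)) = Sum.inl (false, 2) := by rw [← h2, hi]
    have : ι = cj (au (Equiv.refl _) (Equiv.refl _) rt) thi := by
      symm
      apply cj_eq_of
      intro x
      induction x using hb_cases with
      | h b k =>
        cases b <;> fin_cases k
        · exact h0
        · exact h1
        · exact h2
        · exact h0'
        · exact h1'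
        · exact h2'
    rw [this]
    exact (Lk.self th).au (Equiv.refl _) (Equiv.refl _) rt

theorem base_class {ι : Equiv.Perm (HV Bool Empty)} (hι : Val ι) : Lk th ι ∨ Lk db ι := by
  classical
  have hi := hι.invol
  obtain ⟨k, k', h⟩ : ∃ k k', ι (Sum.inl (false, k)) = Sum.inl (true, k') := by
    by_contra hcon
    push Not at hcon
    have := hι.conn {x | ∃ k, x = Sum.inl (false, k)} (by
      rintro x ⟨k, rfl⟩
      have key : ∀ y, ι (Sum.inl (false, k)) = y → ∃ k', y = Sum.inl (false, k') := by
        intro y hy
        induction y using hb_cases with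
        | h b m =>
          cases b
          · exact ⟨m, rfl⟩
          · exact absurd hy (hcon k m)
      exact key _ rfl) (by
      rintro i k k' ⟨m, e⟩
      have := (Prod.mk.inj (Sum.inl_injective e)).1
      subst this
      exact ⟨k', rfl⟩) ⟨Sum.inl (false, 0), 0, rfl⟩ (Sum.inl (true, 0))
    obtain ⟨m, e⟩ := this
    simp at e
  set r : Bool → Equiv.Perm (Fin 3) := fun b => if b then Equiv.swap k' 0 else Equiv.swap k 0
    with hr
  have hv := hι.au (Equiv.refl Bool) (Equiv.refl Empty) r
  have h0 : cj (au (Equiv.refl Bool) (Equiv.refl Empty) r) ι (Sum.inl (false, 0)) =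
      Sum.inl (true, 0) := by
    have := cj_apply (au (Equiv.refl Bool) (Equiv.refl Empty) r) ι (Sum.inl (false, k))
    rw [h, au_inl, au_inl] at this
    have e1 : r false k = 0 := Equiv.swap_apply_left _ _
    have e2 : r true k' = 0 := Equiv.swap_apply_left _ _
    rw [e1, e2] at this
    exact this
  have hback : ι = cj (au (Equiv.refl Bool) (Equiv.refl Empty) (fun b => (r b)⁻¹))
      (cj (au (Equiv.refl Bool) (Equiv.refl Empty) r) ι) := by
    rw [← cj_trans, au_trans]
    have : (fun i => (r (Equiv.refl Bool i))⁻¹ * r i) = fun _ => (1 : Equiv.Perm (Fin 3)) := by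
      funext i
      exact inv_mul_cancel _
    rw [this]
    show ι = cj (au (Equiv.refl Bool) (Equiv.refl Empty) fun _ => 1) ι
    rw [au_one, cj_refl]
  rw [hback]
  rcases base_aux hv h0 with h1 | h1
  · exact Or.inl (h1.au _ _ _)
  · exact Or.inr (h1.au _ _ _)

/-- every connected diagram with two loops and no two legs at a vertex is obtained from theta or
the dumbbell -/
theorem gen_all : ∀ (n : ℕ) (V L : Type) [Finite V] [Finite L] (ι : Equiv.Perm (HV V L)),
    Nat.card L = n → Nat.card V = n + 2 → Val ι → NC ι → Lk th ι ∨ Lk db ι := by
  intro n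
  induction n with
  | zero =>
    intro V L _ _ ι hL hV hι hn
    have eV : Nonempty (V ≃ Bool) := by
      haveI := Fintype.ofFinite V
      refine ⟨Fintype.equivOfCardEq ?_⟩
      rw [← Nat.card_eq_fintype_card, hV]
      rfl
    have eL : Nonempty (L ≃ Empty) := by
      haveI := Fintype.ofFinite L
      refine ⟨Fintype.equivOfCardEq ?_⟩
      rw [← Nat.card_eq_fintype_card, hL]
      rfl
    obtain ⟨s⟩ := eV
    obtain ⟨s'⟩ := eL
    have hback : ι = cj (au s.symm s'.symm (fun _ => 1)) (cj (au s s' fun _ => 1) ι) := by
      have e : (au s.symm s'.symm fun _ => 1) = (au s s' fun _ => 1).symm := by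
        ext x : 1
        rcases x with ⟨i, k⟩ | j <;> rfl
      rw [e, cj_symm]
    rw [hback]
    rcases base_class (hι.au s s' fun _ => 1) with h1 | h1
    · exact Or.inl (h1.au _ _ _)
    · exact Or.inr (h1.au _ _ _)
  | succ n ih =>
    intro V L _ _ ι hL hV hι hn
    classical
    have hj : Nonempty L := by
      apply Finite.card_pos_iff.1
      omega
    obtain ⟨j⟩ := hj
    obtain ⟨x, k, hx⟩ := hn.inl j
    set V0 : Type := {y : V // y ≠ x} with hV0
    set L0 : Type := {y : L // y ≠ j} with hL0
    let s : V ≃ Option V0 := (Equiv.optionSubtypeNe x).symm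
    let s' : L ≃ Option L0 := (Equiv.optionSubtypeNe j).symm
    have sx : s x = none := by
      show (Equiv.optionSubtypeNe x).symm x = none
      rw [Equiv.symm_apply_eq]
      simp
    have sj : s' j = none := by
      show (Equiv.optionSubtypeNe j).symm j = none
      rw [Equiv.symm_apply_eq]
      simp
    have cV : Nat.card V0 = n + 2 := by
      have h1 := Nat.card_congr s
      rw [Finite.card_option] at h1
      omega
    have cL : Nat.card L0 = n := by
      have h1 := Nat.card_congr s'
      rw [Finite.card_option] at h1
      omega
    haveI : Nonempty V0 := by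
      apply Finite.card_pos_iff.1
      omega
    set r : V → Equiv.Perm (Fin 3) := fun i => if i = x then Equiv.swap k 0 else 1 with hr
    have h0 : cj (au s s' r) ι nl = nw 0 := by
      have := cj_apply (au s s' r) ι (Sum.inr j)
      rw [hx, au_inl, au_inr, sx, sj] at this
      have e1 : r x k = 0 := by
        rw [hr]
        show (if x = x then Equiv.swap k 0 else 1) k = 0
        rw [if_pos rfl, Equiv.swap_apply_left]
      rw [e1] at this
      exact this
    obtain ⟨ι0, a, v0, n0, na, na', hins⟩ := uninsert (hι.au s s' r) (hn.au s s' r) h0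
    have h1 : Lk th (cj (au s s' r) ι) ∨ Lk db (cj (au s s' r) ι) := by
      rw [hins]
      rcases ih V0 L0 ι0 cL cV v0 n0 with h | h
      · exact Or.inl (h.ins val_th any_th na na')
      · exact Or.inr (h.ins val_db any_db na na')
    have hback : ι = cj (au s.symm s'.symm (fun i => (r (s.symm i))⁻¹)) (cj (au s s' r) ι) := by
      have e : (au s.symm s'.symm fun i => (r (s.symm i))⁻¹) = (au s s' r).symm := by
        ext x : 1
        rcases x with ⟨i, k⟩ | j <;> rfl
      rw [e, cj_symm]
    rw [hback]
    rcases h1 with h1 | h1
    · exact Or.inl (h1.au _ _ _)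
    · exact Or.inr (h1.au _ _ _)

/-- the classes of connected diagrams with two loops are spanned by theta -/
theorem gen_q {d : ℕ} {H : AddSubgroup A} {V L : Type} [Finite V] [Finite L]
    {ι : Equiv.Perm (HV V L)} (hs : Sz d H V L) (h2 : Nat.card V = Nat.card L + 2) (hι : Val ι)
    (hn : NC ι) : q H ι ∈ Sp d H := by
  rcases gen_all _ V L ι rfl h2 hι hn with h | h
  · exact h.q_th hs
  · exact h.q_db hs

end Pool.Agent.Helper1.TL
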