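import Pool.Agent.Helper1.JD.Str4

namespace Pool.Agent.Helper1.TL

set_option maxHeartbeats 400000

open Finset
open Pool.Agent.Helper1.JD (Half Closed Diag Valid Kl A cl_lperm lperm vperm SM_vperm SM_slots slots
  kap cl_ihx mem_Kl Kl_mono valid_lperm valid_vperm valid_kap)

/-- half-edges with arbitrary sets of vertices and legs -/
abbrev HV (V L : Type) : Type := (V × Fin 3) ⊕ L

/-- connected fixed point free involutions -/
structure Val {V L : Type} (ι : Equiv.Perm (HV V L)) : Prop where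
  invol : ∀ h, ι (ι h) = h
  nofix : ∀ h, ι h ≠ h
  conn : ∀ P : Set (HV V L), (∀ h ∈ P, ι h ∈ P) →
    (∀ (i : V) (k k' : Fin 3), Sum.inl (i, k) ∈ P → Sum.inl (i, k') ∈ P) → P.Nonempty → ∀ h, h ∈ P

/-- conjugation -/
def cj {V V' L L' : Type} (g : HV V L ≃ HV V' L') (ι : Equiv.Perm (HV V L)) :
    Equiv.Perm (HV V' L') := g.symm.trans (ι.trans g)

section
variable {V V' V'' L L' L'' : Type}

theorem cj_apply (g : HV V L ≃ HV V' L') (ι : Equiv.Perm (HV V L)) (x : HV V L) :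
    cj g ι (g x) = g (ι x) := by simp [cj]

theorem cj_trans (g : HV V L ≃ HV V' L') (g' : HV V' L' ≃ HV V'' L'') (ι : Equiv.Perm (HV V L)) :
    cj (g.trans g') ι = cj g' (cj g ι) := rfl

theorem cj_mul (g g' ι : Equiv.Perm (HV V L)) : cj (g * g') ι = cj g (cj g' ι) := rfl

theorem cj_jd {t l : ℕ} (g ι : Equiv.Perm (Half t l)) : JD.cj g ι = cj g ι := rfl

theorem cj_one (ι : Equiv.Perm (HV V L)) : cj (1 : Equiv.Perm (HV V L)) ι = ι := rfl

theorem cj_refl (ι : Equiv.Perm (HV V L)) : cj (Equiv.refl (HV V L)) ι = ι := rfl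

theorem cj_symm (g : HV V L ≃ HV V' L') (ι : Equiv.Perm (HV V L)) :
    cj g.symm (cj g ι) = ι := by
  ext x : 1
  simp [cj]

theorem cj_eq_of {g : HV V L ≃ HV V' L'} {ι : Equiv.Perm (HV V L)}
    {ι' : Equiv.Perm (HV V' L')} (h : ∀ x, ι' (g x) = g (ι x)) : cj g ι = ι' := by
  ext x : 1
  obtain ⟨y, rfl⟩ := g.surjective x
  rw [cj_apply, h]

/-- renumbering of the vertices, the legs and the slots -/
def au (s : V ≃ V') (s' : L ≃ L') (r : V → Equiv.Perm (Fin 3)) : HV V L ≃ HV V' L' where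
  toFun
    | Sum.inl (i, k) => Sum.inl (s i, r i k)
    | Sum.inr j => Sum.inr (s' j)
  invFun
    | Sum.inl (i, k) => Sum.inl (s.symm i, (r (s.symm i)).symm k)
    | Sum.inr j => Sum.inr (s'.symm j)
  left_inv := by rintro (⟨i, k⟩ | j) <;> simp
  right_inv := by rintro (⟨i, k⟩ | j) <;> simp

theorem au_inl (s : V ≃ V') (s' : L ≃ L') (r : V → Equiv.Perm (Fin 3)) (i : V) (k : Fin 3) :
    au s s' r (Sum.inl (i, k)) = Sum.inl (s i, r i k) := rfl

theorem au_inr (s : V ≃ V') (s' : L ≃ L') (r : V → Equiv.Perm (Fin 3)) (j : L) :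
    au s s' r (Sum.inr j) = Sum.inr (s' j) := rfl

theorem au_trans (s : V ≃ V') (s' : L ≃ L') (r : V → Equiv.Perm (Fin 3))
    (u : V' ≃ V'') (u' : L' ≃ L'') (r' : V' → Equiv.Perm (Fin 3)) :
    (au s s' r).trans (au u u' r') = au (s.trans u) (s'.trans u') fun i => r' (s i) * r i := by
  ext x : 1
  rcases x with ⟨i, k⟩ | j <;> rfl

theorem au_one : au (Equiv.refl V) (Equiv.refl L) (fun _ => 1) = Equiv.refl (HV V L) := by
  ext x : 1
  rcases x with ⟨i, k⟩ | j <;> rfl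

/-- validity is preserved if closed sets can be pulled back -/
theorem val_cj {g : HV V L ≃ HV V' L'} {ι : Equiv.Perm (HV V L)} (h : Val ι)
    (hg : ∀ P : Set (HV V' L'), (∀ h ∈ P, cj g ι h ∈ P) →
      (∀ (i : V') (k k' : Fin 3), Sum.inl (i, k) ∈ P → Sum.inl (i, k') ∈ P) →
      ∀ (i : V) (k k' : Fin 3), g (Sum.inl (i, k)) ∈ P → g (Sum.inl (i, k')) ∈ P) :
    Val (cj g ι) := by
  refine ⟨?_, ?_, ?_⟩
  · intro x
    obtain ⟨y, rfl⟩ := g.surjective x
    rw [cj_apply, cj_apply, h.invol]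
  · intro x
    obtain ⟨y, rfl⟩ := g.surjective x
    rw [cj_apply]
    exact fun e => h.nofix y (g.injective e)
  · intro P h1 h2 hne x
    obtain ⟨y, rfl⟩ := g.surjective x
    refine h.conn (g ⁻¹' P) ?_ ?_ ?_ y
    · intro z hz
      show g (ι z) ∈ P
      rw [← cj_apply]
      exact h1 _ hz
    · intro i k k' hk
      exact hg P h1 h2 i k k' hk
    · obtain ⟨x, hx⟩ := hne
      exact ⟨g.symm x, by simpa using hx⟩

theorem Val.au {ι : Equiv.Perm (HV V L)} (h : Val ι) (s : V ≃ V') (s' : L ≃ L')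
    (r : V → Equiv.Perm (Fin 3)) : Val (cj (TL.au s s' r) ι) := by
  apply val_cj h
  intro P _ h2 i k k' hk
  exact h2 _ _ _ hk

theorem Val.valid {t l : ℕ} {ι : Equiv.Perm (Half t l)} (h : Val ι) (hl : 0 < l) : Valid ι :=
  ⟨h.invol, h.nofix, fun P hP hne => Set.eq_univ_of_forall (h.conn P hP.1 hP.2 hne), hl⟩

theorem val_of {t l : ℕ} {ι : Equiv.Perm (Half t l)} (h : Valid ι) : Val ι :=
  ⟨h.1, h.2.1, fun P h1 h2 hne x => by rw [h.2.2.1 P ⟨h1, h2⟩ hne]; trivial⟩

/-- `y` is the class -/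
def Rep (H : AddSubgroup A) (ι : Equiv.Perm (HV V L)) (y : A ⧸ H) : Prop :=
  ∃ (t l : ℕ) (e : V ≃ Fin t) (f : L ≃ Fin l),
    y = QuotientAddGroup.mk (JD.cl (cj (au e f fun _ => 1) ι))

/-- the sizes -/
structure Sz (d : ℕ) (H : AddSubgroup A) (V L : Type) : Prop where
  sum : Nat.card V + Nat.card L = 2 * d
  pos : 0 < Nat.card L
  le : Kl d (Nat.card L - 1) ≤ H

theorem Rep.unique {d : ℕ} {H : AddSubgroup A} (hs : Sz d H V L) {ι : Equiv.Perm (HV V L)}
    (hι : Val ι) {x y : A ⧸ H} (hx : Rep H ι x) (hy : Rep H ι y) : x = y := by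
  obtain ⟨t, l, e, f, rfl⟩ := hx
  obtain ⟨t', l', e', f', rfl⟩ := hy
  have ht : Nat.card V = t := by rw [Nat.card_congr e, Nat.card_eq_fintype_card, Fintype.card_fin]
  have ht' : Nat.card V = t' := by rw [Nat.card_congr e', Nat.card_eq_fintype_card, Fintype.card_fin]
  have hl : Nat.card L = l := by rw [Nat.card_congr f, Nat.card_eq_fintype_card, Fintype.card_fin]
  have hl' : Nat.card L = l' := by rw [Nat.card_congr f', Nat.card_eq_fintype_card, Fintype.card_fin]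
  subst ht hl
  subst ht' 
  subst hl'
  have h1 : Valid (cj (au e f fun _ => 1) ι) := (hι.au e f _).valid hs.pos
  have h2 := valid_vperm (e.symm.trans e') h1
  have e1 : cj (au e' f' fun _ => 1) ι = JD.cj (lperm (f.symm.trans f'))
      (JD.cj (vperm (e.symm.trans e')) (cj (au e f fun _ => 1) ι)) := by
    rw [cj_jd, cj_jd, ← cj_trans, ← cj_trans]
    congr 1
    ext x : 1
    rcases x with ⟨i, k⟩ | j
    · show Sum.inl (e' i, k) = Sum.inl (e' (e.symm (e i)), k)
      rw [Equiv.symm_apply_apply]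
    · show Sum.inr (f' j) = Sum.inr (f' (f.symm (f j)))
      rw [Equiv.symm_apply_apply]
  have h3 := cl_lperm (f.symm.trans f') h2 hs.sum
  have h4 := (SM_vperm (e.symm.trans e') _ h1).2
  rw [one_smul] at h4
  rw [h4, ← e1] at h3
  symm
  rw [QuotientAddGroup.eq, neg_add_eq_sub]
  rw [← neg_sub]
  exact neg_mem (hs.le h3)

theorem exists_rep (H : AddSubgroup A) [Finite V] [Finite L] (ι : Equiv.Perm (HV V L)) :
    ∃ x, Rep H ι x := by
  obtain ⟨n, ⟨e⟩⟩ := Finite.exists_equiv_fin V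
  obtain ⟨m, ⟨f⟩⟩ := Finite.exists_equiv_fin L
  exact ⟨_, n, m, e, f, rfl⟩

/-- the class -/
noncomputable def q (H : AddSubgroup A) [Finite V] [Finite L] (ι : Equiv.Perm (HV V L)) : A ⧸ H :=
  (exists_rep H ι).choose

theorem q_rep (H : AddSubgroup A) [Finite V] [Finite L] (ι : Equiv.Perm (HV V L)) :
    Rep H ι (q H ι) := (exists_rep H ι).choose_spec

theorem q_num {d : ℕ} {H : AddSubgroup A} [Finite V] [Finite L] (hs : Sz d H V L)
    {ι : Equiv.Perm (HV V L)} (hι : Val ι) {t l : ℕ} (e : V ≃ Fin t) (f : L ≃ Fin l) :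
    q H ι = QuotientAddGroup.mk (JD.cl (cj (au e f fun _ => 1) ι)) :=
  (q_rep H ι).unique hs hι ⟨t, l, e, f, rfl⟩

theorem Sz.congr {d : ℕ} {H : AddSubgroup A} (hs : Sz d H V L) (s : V ≃ V') (s' : L ≃ L') :
    Sz d H V' L' := by
  have h1 := Nat.card_congr s
  have h2 := Nat.card_congr s'
  refine ⟨?_, ?_, ?_⟩
  · rw [← h1, ← h2]; exact hs.sum
  · rw [← h2]; exact hs.pos
  · rw [← h2]; exact hs.le

theorem q_iso {d : ℕ} {H : AddSubgroup A} [Finite V] [Finite L] [Finite V'] [Finite L']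
    (hs : Sz d H V L)
    {ι : Equiv.Perm (HV V L)} (hι : Val ι) (s : V ≃ V') (s' : L ≃ L') :
    q H (cj (au s s' fun _ => 1) ι) = q H ι := by
  obtain ⟨n, ⟨e⟩⟩ := Finite.exists_equiv_fin V'
  obtain ⟨m, ⟨f⟩⟩ := Finite.exists_equiv_fin L'
  rw [q_num (hs.congr s s') (hι.au s s' _) e f, q_num hs hι (s.trans e) (s'.trans f), ← cj_trans,
    au_trans]
  rfl

theorem q_slots {d : ℕ} {H : AddSubgroup A} [Fintype V] [Finite L] (hs : Sz d H V L)
    {ι : Equiv.Perm (HV V L)} (hι : Val ι) (r : V → Equiv.Perm (Fin 3)) :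
    q H (cj (au (Equiv.refl V) (Equiv.refl L) r) ι) =
      ((∏ i, Equiv.Perm.sign (r i) : ℤˣ) : ℤ) • q H ι := by
  obtain ⟨n, ⟨e⟩⟩ := Finite.exists_equiv_fin V
  obtain ⟨m, ⟨f⟩⟩ := Finite.exists_equiv_fin L
  have hm : 0 < m := by
    have := hs.pos
    rwa [Nat.card_congr f, Nat.card_eq_fintype_card, Fintype.card_fin] at this
  have h1 : Valid (cj (au e f fun _ => 1) ι) := (hι.au e f _).valid hm
  rw [q_num hs (hι.au _ _ r) e f, q_num hs hι e f]
  have e1 : cj (au e f fun _ => 1) (cj (au (Equiv.refl V) (Equiv.refl L) r) ι) =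
      JD.cj (slots fun i => r (e.symm i)) (cj (au e f fun _ => 1) ι) := by
    rw [cj_jd, ← cj_trans, ← cj_trans]
    congr 1
    ext x : 1
    rcases x with ⟨i, k⟩ | j
    · show Sum.inl (e i, r i k) = Sum.inl (e i, r (e.symm (e i)) k)
      rw [Equiv.symm_apply_apply]
    · rfl
  rw [e1, (SM_slots (fun i => r (e.symm i)) _ h1).2]
  have e2 : ∏ i : Fin n, (Equiv.Perm.sign (r (e.symm i)) : ℤ) =
      ((∏ i, Equiv.Perm.sign (r i) : ℤˣ) : ℤ) := by
    push_cast
    exact Fintype.prod_equiv e.symm _ _ fun i => rfl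
  rw [e2]
  exact QuotientAddGroup.mk_zsmul _ _ _

theorem q_au {d : ℕ} {H : AddSubgroup A} [Fintype V] [Finite L] [Finite V'] [Finite L']
    (hs : Sz d H V L) {ι : Equiv.Perm (HV V L)} (hι : Val ι) (s : V ≃ V') (s' : L ≃ L')
    (r : V → Equiv.Perm (Fin 3)) :
    q H (cj (au s s' r) ι) = ((∏ i, Equiv.Perm.sign (r i) : ℤˣ) : ℤ) • q H ι := by
  have e : au s s' r = (au (Equiv.refl V) (Equiv.refl L) r).trans (au s s' fun _ => 1) := by
    rw [au_trans]
    rfl
  rw [e, cj_trans, q_iso hs (hι.au _ _ _), q_slots hs hι]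

/-- the move of the IHX relation at the edge of the slots `0` of `v` and `w` -/
def kp [DecidableEq V] [DecidableEq L] (v w : V) : Equiv.Perm (HV V L) :=
  Equiv.swap (Sum.inl (v, 2)) (Sum.inl (w, 2)) * Equiv.swap (Sum.inl (v, 2)) (Sum.inl (w, 1))

theorem q_ihx {d : ℕ} {H : AddSubgroup A} [DecidableEq V] [DecidableEq L] [Finite V] [Finite L]
    (hs : Sz d H V L) {ι : Equiv.Perm (HV V L)} (hι : Val ι) {v w : V} (hvw : v ≠ w)
    (he : ι (Sum.inl (v, 0)) = Sum.inl (w, 0)) :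
    Val (cj (kp v w) ι) ∧ Val (cj (kp v w) (cj (kp v w) ι)) ∧
    q H ι + q H (cj (kp v w) ι) + q H (cj (kp v w) (cj (kp v w) ι)) = 0 := by
  obtain ⟨n, ⟨e⟩⟩ := Finite.exists_equiv_fin V
  obtain ⟨m, ⟨f⟩⟩ := Finite.exists_equiv_fin L
  have hm : 0 < m := by
    have := hs.pos
    rwa [Nat.card_congr f, Nat.card_eq_fintype_card, Fintype.card_fin] at this
  set a : HV V L ≃ Half n m := au e f fun _ => 1 with ha
  have hE : e v ≠ e w := fun h => hvw (e.injective h)
  have h1 : Valid (cj a ι) := (hι.au e f _).valid hm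
  have he' : cj a ι (Sum.inl (e v, 0)) = Sum.inl (e w, 0) := by
    have := cj_apply a ι (Sum.inl (v, 0))
    rw [he] at this
    exact this
  have h2 := valid_kap hE h1 he'
  have he'' := JD.kap_edge hE he'
  have h3 := valid_kap hE h2 he''
  have key : ∀ ι' : Equiv.Perm (HV V L), cj a (cj (kp v w) ι') =
      JD.cj (kap (e v) (e w)) (cj a ι') := by
    intro ι'
    rw [cj_jd, ← cj_trans, ← cj_trans]
    congr 1
    ext x : 1
    have hs : ∀ (x y z : HV V L), a (Equiv.swap x y z) = Equiv.swap (a x) (a y) (a z) := by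
      intro x y z
      simp only [Equiv.swap_apply_def, a.injective.eq_iff]
      split_ifs <;> rfl
    show a (Equiv.swap (Sum.inl (v, 2)) (Sum.inl (w, 2)) (Equiv.swap (Sum.inl (v, 2))
      (Sum.inl (w, 1)) x)) = _
    rw [hs, hs]
    rfl
  have hv : ∀ ι' : Equiv.Perm (HV V L), Val (cj a ι') → Val ι' := by
    intro ι' h
    have := h.au e.symm f.symm fun _ => 1
    have e2 : (au e.symm f.symm fun _ => 1) = a.symm := by
      ext x : 1
      rcases x with ⟨i, k⟩ | j <;> rfl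
    rw [e2, cj_symm] at this
    exact this
  have v1 : Val (cj (kp v w) ι) := hv _ (by rw [key]; exact val_of h2)
  have v2 : Val (cj (kp v w) (cj (kp v w) ι)) := hv _ (by rw [key, key]; exact val_of h3)
  refine ⟨v1, v2, ?_⟩
  rw [q_num hs hι e f, q_num hs v1 e f, q_num hs v2 e f, ← ha]
  simp only [key]
  rw [← QuotientAddGroup.mk_add, ← QuotientAddGroup.mk_add, cl_ihx hE h1 he']
  rfl

end

end Pool.Agent.Helper1.TL
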