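import Pool.Agent.Helper1.TL.Inv

namespace Pool.Agent.Helper1.TL

set_option maxHeartbeats 400000

open Finset
open Pool.Agent.Helper1.JD (Half Diag Moved vperm lperm emb ret moved_apply moved_apply' Free gen
  Rel A cls)

section
variable {K : Type*} [CommRing K] {R : Type*} [Ring R] [Algebra K R] {B : Type*} [AddCommGroup B]
  [Module K B] (ħ : K) (X : Q → R) (τ : R →ₗ[K] B)
variable {t l : ℕ}

theorem comm_lv (hX : ∀ a b, X a * X b - X b * X a = ħ • ∑ k : Q, T k.swap a b • X k) :
    ∀ (l : ℕ) (a : Q) (c : Fin l → Q), X a * lv X c - lv X c * X a =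
      ħ • ∑ j : Fin l, ∑ k : Q, T k.swap a (c j) • lv X (Function.update c j k)
  | 0, a, c => by simp [lv]
  | l + 1, a, c => by
    have ih := comm_lv hX l a (fun j => c j.succ)
    rw [Fin.sum_univ_succ, lv_cons]
    have e0 : ∀ k : Q, lv X (Function.update c 0 k) = X k * lv X (fun j => c j.succ) := by
      intro k
      rw [lv_cons, Function.update_self]
      congr 2
    have e1 : ∀ (i : Fin l) (k : Q), lv X (Function.update c i.succ k) =
        X (c 0) * lv X (Function.update (fun j => c j.succ) i k) := by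
      intro i k
      rw [lv_cons, Function.update_of_ne (Fin.succ_ne_zero i).symm]
      congr 2
      funext j
      by_cases hj : j = i
      · subst hj
        rw [Function.update_self, Function.update_self]
      · rw [Function.update_of_ne hj, Function.update_of_ne]
        exact fun h => hj (Fin.succ_injective _ h)
    simp only [e0, e1]
    have e2 : X a * (X (c 0) * lv X fun j => c j.succ) - X (c 0) * (lv X fun j => c j.succ) * X a =
        (X a * X (c 0) - X (c 0) * X a) * (lv X fun j => c j.succ) +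
        X (c 0) * (X a * (lv X fun j => c j.succ) - (lv X fun j => c j.succ) * X a) := by
      noncomm_ring
    rw [e2, hX, ih, smul_mul_assoc, Finset.sum_mul, mul_smul_comm, Finset.mul_sum, ← smul_add]
    congr 2
    · refine Finset.sum_congr rfl fun k _ => ?_
      rw [smul_mul_assoc]
    · refine Finset.sum_congr rfl fun j _ => ?_
      rw [Finset.mul_sum]
      refine Finset.sum_congr rfl fun k _ => ?_
      rw [mul_smul_comm]

theorem gsum_sub (D : Diag t l) (ψ ψ' : (Fin l → Q) → B) :
    gsum D ψ - gsum D ψ' = gsum D (fun c => ψ c - ψ' c) := by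
  unfold gsum
  rw [← Finset.sum_sub_distrib]
  refine Finset.sum_congr rfl fun c _ => ?_
  rw [smul_sub]

theorem gsum_add (D : Diag t l) (ψ ψ' : (Fin l → Q) → B) :
    gsum D ψ + gsum D ψ' = gsum D (fun c => ψ c + ψ' c) := by
  unfold gsum
  rw [← Finset.sum_add_distrib]
  refine Finset.sum_congr rfl fun c _ => ?_
  rw [smul_add]

theorem gsum_sum {I : Type*} (s : Finset I) (D : Diag t l) (ψ : I → (Fin l → Q) → B) :
    ∑ i ∈ s, gsum D (ψ i) = gsum D (fun c => ∑ i ∈ s, ψ i c) := by
  unfold gsum
  rw [Finset.sum_comm]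
  refine Finset.sum_congr rfl fun c _ => ?_
  rw [Finset.smul_sum]

theorem gsum_smul (k : K) (D : Diag t l) (ψ : (Fin l → Q) → B) :
    gsum D (fun c => k • ψ c) = k • gsum D ψ := by
  unfold gsum
  rw [Finset.smul_sum]
  refine Finset.sum_congr rfl fun c _ => ?_
  rw [smul_comm]

theorem gsum_congr (D : Diag t l) {ψ ψ' : (Fin l → Q) → B} (h : ∀ c, ψ c = ψ' c) :
    gsum D ψ = gsum D ψ' := by
  congr 1
  funext c
  exact h c

theorem gsum_zero (D : Diag t l) : gsum D (fun _ => (0 : B)) = 0 := by
  unfold gsum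
  simp

/-- auxiliary function -/
def fz (z : Q) (c : Fin (l + 1) → Q) : B :=
  if c (Fin.last l) = z then ħ • τ (lv X fun j => c j.castSucc) else 0

theorem fz_cs (z : Q) (c : Fin (l + 1) → Q) (j : Fin l) (b : Q) :
    fz ħ X τ z (Function.update c j.castSucc b) =
      if c (Fin.last l) = z then ħ • τ (lv X (Function.update (fun j => c j.castSucc) j b))
        else 0 := by
  unfold fz
  have e3 : Function.update c j.castSucc b (Fin.last l) = c (Fin.last l) :=
    Function.update_of_ne (Fin.castSucc_lt_last j).ne' _ _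
  have e4 : (fun j' : Fin l => Function.update c j.castSucc b j'.castSucc) =
      Function.update (fun j => c j.castSucc) j b := by
    funext j'
    by_cases hj : j' = j
    · subst hj
      rw [Function.update_self, Function.update_self]
    · rw [Function.update_of_ne hj, Function.update_of_ne]
      exact fun h => hj (Fin.castSucc_injective _ h)
  rw [e3, e4]

theorem fz_last (z : Q) (c : Fin (l + 1) → Q) (b : Q) :
    fz ħ X τ z (Function.update c (Fin.last l) b) =
      if b = z then ħ • τ (lv X fun j => c j.castSucc) else 0 := by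
  unfold fz
  rw [Function.update_self]
  have e4 : (fun j' : Fin l => Function.update c (Fin.last l) b j'.castSucc) =
      fun j => c j.castSucc := by
    funext j'
    exact Function.update_of_ne (Fin.castSucc_lt_last j').ne _ _
  rw [e4]

theorem sum_last (z a : Q) (x : B) :
    ∑ b : Q, T b.swap z a • (if b = z then x else 0) = T z.swap z a • x := by
  rw [Finset.sum_eq_single z]
  · rw [if_pos rfl]
  · intro b _ hb
    rw [if_neg hb, smul_zero]
  · intro h
    exact absurd (mem_univ z) h

theorem sum_cs (a : Q) (f : Q → ℤ) (x : B) :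
    ∑ z : Q, f z • (if a = z then x else 0) = f a • x := by
  rw [Finset.sum_eq_single a]
  · rw [if_pos rfl]
  · intro b _ hb
    rw [if_neg hb.symm, smul_zero]
  · intro h
    exact absurd (mem_univ a) h

theorem front_aux
    (hX : ∀ a b, X a * X b - X b * X a = ħ • ∑ k : Q, T k.swap a b • X k)
    (c : Fin (l + 1) → Q) :
    τ (X (c (Fin.last l)) * lv X (fun j => c j.castSucc)) -
        τ (lv X (fun j => c j.castSucc) * X (c (Fin.last l))) =
      ∑ z : Q, ∑ j : Fin (l + 1), ∑ b : Q, T b.swap z (c j) •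
        fz ħ X τ z (Function.update c j b) := by
  rw [← map_sub, comm_lv ħ X hX, map_smul, map_sum]
  have e2 : ∀ z : Q, ∑ j : Fin (l + 1), ∑ b : Q, T b.swap z (c j) •
      fz ħ X τ z (Function.update c j b) =
      (∑ j : Fin l, ∑ b : Q, T b.swap z (c j.castSucc) •
        (if c (Fin.last l) = z then ħ • τ (lv X (Function.update (fun j => c j.castSucc) j b))
          else 0)) +
      T z.swap z (c (Fin.last l)) • ħ • τ (lv X fun j => c j.castSucc) := by
    intro z
    rw [Fin.sum_univ_castSucc]
    congr 1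
    · refine Finset.sum_congr rfl fun j _ => ?_
      refine Finset.sum_congr rfl fun b _ => ?_
      rw [fz_cs]
    · rw [← sum_last]
      refine Finset.sum_congr rfl fun b _ => ?_
      rw [fz_last]
  rw [Finset.sum_congr rfl fun z _ => e2 z, Finset.sum_add_distrib, ← Finset.sum_smul,
    sum_T_tr, zero_smul, add_zero, Finset.sum_comm, Finset.smul_sum]
  refine Finset.sum_congr rfl fun j _ => ?_
  rw [Finset.sum_comm, map_sum, Finset.smul_sum]
  refine Finset.sum_congr rfl fun b _ => ?_
  rw [sum_cs (c (Fin.last l)) (fun z => T b.swap z (c j.castSucc)), map_zsmul, smul_comm]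

/-- moving the last leg to the front -/
theorem gsum_front (h2 : ∀ b : B, (2 : ℤ) • b = 0 → b = 0)
    (hX : ∀ a b, X a * X b - X b * X a = ħ • ∑ k : Q, T k.swap a b • X k) (D : Diag t (l + 1)) :
    gsum D (fun c => τ (X (c (Fin.last l)) * lv X (fun j => c j.castSucc))) =
      gsum D (fun c => τ (lv X (fun j => c j.castSucc) * X (c (Fin.last l)))) := by
  rw [← sub_eq_zero, gsum_sub, gsum_congr D (front_aux ħ X τ hX), ← gsum_sum]
  refine Finset.sum_eq_zero fun z _ => ?_
  exact gsum_inv h2 D z (fz ħ X τ z)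

/-- the weight -/
def wt (D : Diag t l) : B := ħ ^ t • gsum D (fun c => τ (lv X c))

theorem gsum_rot (h2 : ∀ b : B, (2 : ℤ) • b = 0 → b = 0)
    (hX : ∀ a b, X a * X b - X b * X a = ħ • ∑ k : Q, T k.swap a b • X k)
    {D D' : Diag t l} (h : Moved (lperm (finRotate l)) D D') :
    gsum D' (fun c => τ (lv X c)) = gsum D (fun c => τ (lv X c)) := by
  cases l with
  | zero =>
    rw [gsum_moved h]
    rfl
  | succ l =>
    have h1 : gsum D (fun c => τ (lv X c)) =
        gsum D (fun c => τ (lv X (fun j => c j.castSucc) * X (c (Fin.last l)))) :=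
      gsum_congr D fun c => by rw [lv_snoc]
    rw [h1, ← gsum_front ħ X τ h2 hX D, gsum_moved h]
    unfold gsum
    refine Finset.sum_congr rfl fun c _ => ?_
    have a0 : (lperm (finRotate (l + 1)) : Equiv.Perm (Half t (l + 1))).symm (Sum.inr 0) =
          Sum.inr (Fin.last l) := by
      rw [Equiv.symm_apply_eq]
      simp [lperm]
    have a1 : ∀ j : Fin l, (lperm (finRotate (l + 1)) : Equiv.Perm (Half t (l + 1))).symm
        (Sum.inr j.succ) = Sum.inr j.castSucc := by
      intro j
      rw [Equiv.symm_apply_eq]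
      simp [lperm]
    congr 1
    rw [lv_cons, a0]
    simp only [a1]

theorem lv_two (c : Fin (l + 2) → Q) :
    lv X c = lv X (fun j : Fin l => c ⟨j, by omega⟩) *
      (X (c ⟨l, by omega⟩) * X (c ⟨l + 1, by omega⟩)) := by
  rw [lv_snoc, lv_snoc, mul_assoc]
  rfl

theorem wt_stu (hX : ∀ a b, X a * X b - X b * X a = ħ • ∑ k : Q, T k.swap a b • X k)
    (D U : Diag t (l + 2)) (S : Diag (t + 1) (l + 1))
    (hU : Moved (lperm (Equiv.swap ⟨l, by omega⟩ ⟨l + 1, by omega⟩)) D U)
    (hS : ∀ h, S.ι (emb h) = emb (D.ι h))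
    (hS' : S.ι (Sum.inl (Fin.last t, 0)) = Sum.inr (Fin.last l)) :
    wt ħ X τ D - wt ħ X τ U - wt ħ X τ S = 0 := by
  unfold wt
  rw [gsum_moved hU, pow_succ, mul_smul, ← smul_sub, ← smul_sub]
  unfold gsum
  rw [sum_col_S D S hS hS', Finset.smul_sum (r := ħ),
    ← Finset.sum_sub_distrib, ← Finset.sum_sub_distrib, Finset.sum_eq_zero, smul_zero]
  intro c _
  have hs : ∀ x, (lperm (Equiv.swap ⟨l, by omega⟩ ⟨l + 1, by omega⟩) :
      Equiv.Perm (Half t (l + 2))).symm (Sum.inr x) =
      Sum.inr (Equiv.swap (⟨l, by omega⟩ : Fin (l + 2)) ⟨l + 1, by omega⟩ x) := by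
    intro x
    rw [Equiv.symm_apply_eq]
    show Sum.inr x = Sum.inr (Equiv.swap (⟨l, by omega⟩ : Fin (l + 2)) ⟨l + 1, by omega⟩
      (Equiv.swap (⟨l, by omega⟩ : Fin (l + 2)) ⟨l + 1, by omega⟩ x))
    rw [Equiv.swap_apply_self]
  set M : R := lv X (fun j : Fin l => c (Sum.inr ⟨j, by omega⟩)) with hM
  set a : Q := c (Sum.inr ⟨l, by omega⟩) with ha
  set b : Q := c (Sum.inr ⟨l + 1, by omega⟩) with hb
  have e0 : lv X (fun j => c (Sum.inr j)) = M * (X a * X b) := lv_two X _
  have e1 : lv X (fun j => c ((lperm (Equiv.swap ⟨l, by omega⟩ ⟨l + 1, by omega⟩) :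
      Equiv.Perm (Half t (l + 2))).symm (Sum.inr j))) = M * (X b * X a) := by
    rw [lv_two]
    simp only [hs, Equiv.swap_apply_left, Equiv.swap_apply_right]
    rw [hM]
    congr 2
    funext j
    rw [Equiv.swap_apply_of_ne_of_ne]
    · intro h; have := congrArg Fin.val h; have := j.2; simp at *; omega
    · intro h; have := congrArg Fin.val h; have := j.2; simp at *; omega
  have e2 : ∀ k : Q, lv X (fun j => ext c k (Sum.inr j)) = M * X k := by
    intro k
    rw [lv_snoc, ext_r]
    simp only [ext_rc]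
    rfl
  have e3 : vp (fun x => c ((lperm (Equiv.swap ⟨l, by omega⟩ ⟨l + 1, by omega⟩) :
      Equiv.Perm (Half t (l + 2))).symm x)) = vp c := rfl
  simp only [e2]
  rw [e0, e1, e3, ← smul_sub, ← map_sub, ← mul_sub, hX]
  simp only [vp_ext]
  rw [mul_smul_comm, map_smul, smul_comm (vp c) ħ, ← smul_sub, Finset.mul_sum, map_sum,
    Finset.smul_sum, ← Finset.sum_sub_distrib, Finset.sum_eq_zero, smul_zero]
  intro k _
  rw [mul_smul_comm, map_zsmul, smul_smul, sub_self]

/-- the weight system on the free group -/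
def weight0 : Free →+ B := FreeAbelianGroup.lift fun p => wt ħ X τ p.2

theorem weight0_gen (D : Diag t l) : weight0 ħ X τ (gen D) = wt ħ X τ D := by
  unfold weight0 gen
  rw [FreeAbelianGroup.lift_apply_of]

theorem weight0_rel (h2 : ∀ b : B, (2 : ℤ) • b = 0 → b = 0) (h9 : ∀ b : B, (9 : ℤ) • b = 0 → b = 0)
    (hX : ∀ a b, X a * X b - X b * X a = ħ • ∑ k : Q, T k.swap a b • X k) {x : Free}
    (hx : Rel x) : weight0 ħ X τ x = 0 := by
  cases hx with
  | vert s D D' h =>
    rw [map_sub, weight0_gen, weight0_gen]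
    unfold wt
    rw [gsum_vert s h, sub_self]
  | rot D D' h =>
    rw [map_sub, weight0_gen, weight0_gen]
    unfold wt
    rw [gsum_rot ħ X τ h2 hX h, sub_self]
  | as i k k' hk D D' h =>
    rw [map_add, weight0_gen, weight0_gen]
    unfold wt
    rw [gsum_as i k k' hk h, smul_neg, neg_add_cancel]
  | ihx i j k k' hij D D' D'' he h' h'' =>
    rw [map_add, map_add, weight0_gen, weight0_gen, weight0_gen]
    unfold wt
    rw [← smul_add, ← smul_add, gsum_ihx h9 i j k k' hij D D' D'' he h' h'', smul_zero]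
  | stu D U S hU hS hS' =>
    rw [map_sub, map_sub, weight0_gen, weight0_gen, weight0_gen, wt_stu ħ X τ hX D U S hU hS hS']

theorem exists_weight (h2 : ∀ b : B, (2 : ℤ) • b = 0 → b = 0)
    (h9 : ∀ b : B, (9 : ℤ) • b = 0 → b = 0)
    (hX : ∀ a b, X a * X b - X b * X a = ħ • ∑ k : Q, T k.swap a b • X k) :
    ∃ W : A →+ B, ∀ (t l : ℕ) (D : Diag t l), W (cls D) = wt ħ X τ D := by
  have hle : AddSubgroup.closure {x : Free | Rel x} ≤ (weight0 ħ X τ).ker := by
    rw [AddSubgroup.closure_le]
    intro x hx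
    exact weight0_rel ħ X τ h2 h9 hX hx
  refine ⟨QuotientAddGroup.lift _ (weight0 ħ X τ) hle, fun t l D => ?_⟩
  unfold cls
  rw [QuotientAddGroup.lift_mk, weight0_gen]

end

end Pool.Agent.Helper1.TL
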