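import Pool.Agent.Helper1.TL.Wt

namespace Pool.Agent.Helper1.TL

open Finset
open Pool.Agent.Helper1.JD (Half Diag Moved vperm lperm emb ret moved_apply moved_apply' n01 n02 n12)

theorem jacobi' (p q r s : Q) : ∑ m : Q, (T m p q * T m.swap r s + T m p s * T m.swap q r +
    T m p r * T m.swap s q) = 0 := by
  have h := jacobi p q r s
  rw [← (Equiv.prodComm (Fin 3) (Fin 3)).sum_comp] at h
  rw [← h]
  refine Finset.sum_congr rfl fun m _ => ?_
  simp only [Equiv.prodComm_apply, Prod.swap_swap]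
  ring

section
variable {B : Type*} [AddCommGroup B] {t l : ℕ}

theorem gsum_ihx (h9 : ∀ b : B, (9 : ℤ) • b = 0 → b = 0) (i j : Fin t) (k k' : Fin 3) (hij : i ≠ j)
    (D D' D'' : Diag t l)
    (he : D.ι (Sum.inl (i, k)) = Sum.inl (j, k'))
    (h' : Moved (Equiv.swap (Sum.inl (i, k + 2)) (Sum.inl (j, k' + 2)) *
      Equiv.swap (Sum.inl (i, k + 2)) (Sum.inl (j, k' + 1))) D D')
    (h'' : Moved (Equiv.swap (Sum.inl (i, k + 2)) (Sum.inl (j, k' + 2)) *
      Equiv.swap (Sum.inl (i, k + 2)) (Sum.inl (j, k' + 1))) D' D'') (ψ : (Fin l → Q) → B) :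
    gsum D ψ + gsum D' ψ + gsum D'' ψ = 0 := by
  set g : Equiv.Perm (Half t l) := Equiv.swap (Sum.inl (i, k + 2)) (Sum.inl (j, k' + 2)) *
      Equiv.swap (Sum.inl (i, k + 2)) (Sum.inl (j, k' + 1)) with hg
  have hgg : Moved (g * g) D D'' := by
    unfold Moved at *
    rw [h'', h']
    group
  rw [gsum_moved h', gsum_moved hgg]
  unfold gsum
  rw [← Finset.sum_add_distrib, ← Finset.sum_add_distrib]
  have hkk : k ≠ k + 2 := n02 k
  have hkk1 : k + 1 ≠ k + 2 := n12 k
  have hk'1 : k' ≠ k' + 1 := n01 k'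
  have hk'2 : k' ≠ k' + 2 := n02 k'
  have hk'12 : k' + 1 ≠ k' + 2 := n12 k'
  have hk01 : k ≠ k + 1 := n01 k
  have gs : ∀ x, g.symm x = Equiv.swap (Sum.inl (i, k + 2)) (Sum.inl (j, k' + 1))
      (Equiv.swap (Sum.inl (i, k + 2)) (Sum.inl (j, k' + 2)) x) := by
    intro x
    rw [Equiv.symm_apply_eq, hg]
    simp
  have ga : g.symm (Sum.inl (i, k + 2)) = Sum.inl (j, k' + 2) := by
    rw [gs, Equiv.swap_apply_left, Equiv.swap_apply_of_ne_of_ne]
    · simp [hij.symm]
    · simp [hk'12.symm]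
  have gb1 : g.symm (Sum.inl (j, k' + 1)) = Sum.inl (i, k + 2) := by
    rw [gs, Equiv.swap_apply_of_ne_of_ne (a := Sum.inl (i, k + 2)) (b := Sum.inl (j, k' + 2)),
      Equiv.swap_apply_right]
    · simp [hij.symm]
    · simp [hk'12]
  have gb2 : g.symm (Sum.inl (j, k' + 2)) = Sum.inl (j, k' + 1) := by
    rw [gs, Equiv.swap_apply_right, Equiv.swap_apply_left]
  have gne : ∀ x, x ≠ Sum.inl (i, k + 2) → x ≠ Sum.inl (j, k' + 1) → x ≠ Sum.inl (j, k' + 2) →
      g.symm x = x := by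
    intro x h1 h2 h3
    rw [gs, Equiv.swap_apply_of_ne_of_ne h1 h3, Equiv.swap_apply_of_ne_of_ne h1 h2]
  have gi0 : g.symm (Sum.inl (i, k)) = Sum.inl (i, k) :=
    gne _ (by simp [hkk]) (by simp [hij]) (by simp [hij])
  have gi1 : g.symm (Sum.inl (i, k + 1)) = Sum.inl (i, k + 1) :=
    gne _ (by simp) (by simp [hij]) (by simp [hij])
  have gj0 : g.symm (Sum.inl (j, k')) = Sum.inl (j, k') :=
    gne _ (by simp [hij.symm]) (by simp) (by simp [hk'2])
  have gv : ∀ v, v ≠ i → v ≠ j → ∀ s, g.symm (Sum.inl (v, s)) = Sum.inl (v, s) := by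
    intro v h1 h2 s
    exact gne _ (by simp [h1]) (by simp [h2]) (by simp [h2])
  have gl : ∀ r, g.symm (Sum.inr r) = Sum.inr r := by
    intro r
    exact gne _ (by simp) (by simp) (by simp)
  have ggs : ∀ x, (g * g).symm x = g.symm (g.symm x) := by
    intro x
    rw [Equiv.symm_apply_eq]
    simp
  -- the summand
  have hF : ∀ c : Half t l → Q, c ∈ col D.ι →
      vp c • ψ (fun j => c (Sum.inr j)) +
        vp (fun x => c (g.symm x)) • ψ (fun j => c (g.symm (Sum.inr j))) +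
        vp (fun x => c ((g * g).symm x)) • ψ (fun j => c ((g * g).symm (Sum.inr j))) =
      ((T (c (Sum.inl (i, k))) (c (Sum.inl (i, k + 1))) (c (Sum.inl (i, k + 2))) *
        T (c (Sum.inl (i, k))).swap (c (Sum.inl (j, k' + 1))) (c (Sum.inl (j, k' + 2))) +
        T (c (Sum.inl (i, k))) (c (Sum.inl (i, k + 1))) (c (Sum.inl (j, k' + 2))) *
        T (c (Sum.inl (i, k))).swap (c (Sum.inl (i, k + 2))) (c (Sum.inl (j, k' + 1))) +
        T (c (Sum.inl (i, k))) (c (Sum.inl (i, k + 1))) (c (Sum.inl (j, k' + 1))) *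
        T (c (Sum.inl (i, k))).swap (c (Sum.inl (j, k' + 2))) (c (Sum.inl (i, k + 2)))) *
        rest i j c) • ψ (fun j => c (Sum.inr j)) := by
    intro c hc
    rw [mem_col] at hc
    have hce : c (Sum.inl (j, k')) = (c (Sum.inl (i, k))).swap := by rw [← he, hc]
    have l1 : (fun j => c (g.symm (Sum.inr j))) = fun j => c (Sum.inr j) := by
      simp only [gl]
    have l2 : (fun j => c ((g * g).symm (Sum.inr j))) = fun j => c (Sum.inr j) := by
      simp only [ggs, gl]
    rw [l1, l2, ← add_smul, ← add_smul]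
    congr 1
    rw [vp_two hij k k' c c (fun _ _ _ _ => rfl),
      vp_two hij k k' c (fun x => c (g.symm x)) (fun v h1 h2 s => by rw [gv v h1 h2]),
      vp_two hij k k' c (fun x => c ((g * g).symm x))
        (fun v h1 h2 s => by rw [ggs, gv v h1 h2, gv v h1 h2])]
    simp only [ggs, ga, gb1, gb2, gi0, gi1, gj0, hce]
    ring
  rw [Finset.sum_congr rfl hF]
  apply h9
  rw [sum_rec D.invol D.nofix he]
  refine Finset.sum_eq_zero fun c _ => ?_
  have sx : ∀ m, rec2 (Sum.inl (i, k)) (Sum.inl (j, k')) m c (Sum.inl (i, k)) = m := by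
    intro m; unfold rec2; rw [if_pos rfl]
  have sne : ∀ m h, h ≠ Sum.inl (i, k) → h ≠ Sum.inl (j, k') →
      rec2 (Sum.inl (i, k)) (Sum.inl (j, k')) m c h = c h := by
    intro m h h1 h2; unfold rec2; rw [if_neg h1, if_neg h2]
  have s1 : ∀ m, rec2 (Sum.inl (i, k)) (Sum.inl (j, k')) m c (Sum.inl (i, k + 1)) =
      c (Sum.inl (i, k + 1)) := fun m => sne m _ (by simp [hk01.symm]) (by simp [hij])
  have s2 : ∀ m, rec2 (Sum.inl (i, k)) (Sum.inl (j, k')) m c (Sum.inl (i, k + 2)) =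
      c (Sum.inl (i, k + 2)) := fun m => sne m _ (by simp [hkk.symm]) (by simp [hij])
  have s3 : ∀ m, rec2 (Sum.inl (i, k)) (Sum.inl (j, k')) m c (Sum.inl (j, k' + 1)) =
      c (Sum.inl (j, k' + 1)) := fun m => sne m _ (by simp [hij.symm]) (by simp [hk'1.symm])
  have s4 : ∀ m, rec2 (Sum.inl (i, k)) (Sum.inl (j, k')) m c (Sum.inl (j, k' + 2)) =
      c (Sum.inl (j, k' + 2)) := fun m => sne m _ (by simp [hij.symm]) (by simp [hk'2.symm])
  have sr : ∀ m, rest i j (rec2 (Sum.inl (i, k)) (Sum.inl (j, k')) m c) = rest i j c := by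
    intro m
    unfold rest
    refine Finset.prod_congr rfl fun v hv => ?_
    have h1 : v ≠ j := Finset.ne_of_mem_erase hv
    have h2 : v ≠ i := Finset.ne_of_mem_erase (Finset.mem_of_mem_erase hv)
    rw [sne m _ (by simp [h2]) (by simp [h1]), sne m _ (by simp [h2]) (by simp [h1]),
      sne m _ (by simp [h2]) (by simp [h1])]
  have sl : ∀ m, (fun x => rec2 (Sum.inl (i, k)) (Sum.inl (j, k')) m c (Sum.inr x)) =
      fun x => c (Sum.inr x) := by
    intro m
    funext x
    exact sne m _ (by simp) (by simp)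
  simp only [sx, s1, s2, s3, s4, sr, sl]
  rw [← Finset.sum_smul, ← Finset.sum_mul, jacobi', zero_mul, zero_smul]

end

/-! ### STU -/

section
variable {t l : ℕ}

/-- extension of a colouring of `T` to `S` -/
def ext (c : Half t (l + 2) → Q) (k : Q) (h : Half (t + 1) (l + 1)) : Q :=
  match ret h with
  | some x => c x
  | none => match h with
    | Sum.inl _ => k.swap
    | Sum.inr _ => k

theorem ext_emb (c : Half t (l + 2) → Q) (k : Q) (h) : ext c k (emb h) = c h := by
  unfold ext; rw [JD.ret_emb]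

theorem ext_l0 (c : Half t (l + 2) → Q) (k : Q) : ext c k (Sum.inl (Fin.last t, 0)) = k.swap := by
  unfold ext; rw [JD.ret_last0]

theorem ext_l1 (c : Half t (l + 2) → Q) (k : Q) :
    ext c k (Sum.inl (Fin.last t, 1)) = c (Sum.inr ⟨l, by omega⟩) := by
  unfold ext; rw [JD.ret_last1]

theorem ext_l2 (c : Half t (l + 2) → Q) (k : Q) :
    ext c k (Sum.inl (Fin.last t, 2)) = c (Sum.inr ⟨l + 1, by omega⟩) := by
  unfold ext; rw [JD.ret_last2]

theorem ext_cs (c : Half t (l + 2) → Q) (k : Q) (i : Fin t) (s : Fin 3) :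
    ext c k (Sum.inl (i.castSucc, s)) = c (Sum.inl (i, s)) := by
  unfold ext; rw [JD.ret_castSucc]

theorem ext_r (c : Half t (l + 2) → Q) (k : Q) : ext c k (Sum.inr (Fin.last l)) = k := by
  unfold ext; rw [JD.ret_inr_last]

theorem ext_rc (c : Half t (l + 2) → Q) (k : Q) (j : Fin l) :
    ext c k (Sum.inr j.castSucc) = c (Sum.inr ⟨j, by omega⟩) := by
  unfold ext; rw [JD.ret_inr_castSucc]

variable {B : Type*} [AddCommGroup B]

theorem sum_col_S (D : Diag t (l + 2)) (S : Diag (t + 1) (l + 1))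
    (hS : ∀ h, S.ι (emb h) = emb (D.ι h))
    (hS' : S.ι (Sum.inl (Fin.last t, 0)) = Sum.inr (Fin.last l))
    (F : (Half (t + 1) (l + 1) → Q) → B) :
    ∑ c ∈ col S.ι, F c = ∑ c ∈ col D.ι, ∑ k : Q, F (ext c k) := by
  have hS'' : S.ι (Sum.inr (Fin.last l)) = Sum.inl (Fin.last t, 0) := by rw [← hS', S.invol]
  rw [← Finset.sum_product']
  symm
  refine Finset.sum_bij' (fun p _ => ext p.1 p.2)
    (fun c _ => (fun h => c (emb h), c (Sum.inr (Fin.last l)))) ?_ ?_ ?_ ?_ ?_
  · rintro ⟨c, k⟩ hc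
    simp only [Finset.mem_product, mem_univ, and_true] at hc
    rw [mem_col] at hc ⊢
    intro h
    induction h using JD.half_cases' with
    | h1 h => rw [hS, ext_emb, ext_emb]; exact hc h
    | h2 => rw [hS', ext_r, ext_l0, Prod.swap_swap]
    | h3 => rw [hS'', ext_r, ext_l0]
  · intro c hc
    simp only [Finset.mem_product, mem_univ, and_true]
    rw [mem_col] at hc ⊢
    intro h
    rw [← hS, hc]
  · rintro ⟨c, k⟩ hc
    simp only [Prod.mk.injEq]
    constructor
    · funext h; rw [ext_emb]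
    · rw [ext_r]
  · intro c hc
    rw [mem_col] at hc
    funext h
    induction h using JD.half_cases' with
    | h1 h => rw [ext_emb]
    | h2 =>
      rw [ext_l0, ← hS'', hc]
    | h3 => rw [ext_r]
  · intro p _
    rfl

theorem vp_ext (c : Half t (l + 2) → Q) (k : Q) :
    vp (ext c k) =
      vp c * T k.swap (c (Sum.inr ⟨l, by omega⟩)) (c (Sum.inr ⟨l + 1, by omega⟩)) := by
  unfold vp
  rw [Fin.prod_univ_castSucc]
  congr 1
  · refine Finset.prod_congr rfl fun i _ => ?_
    rw [ext_cs, ext_cs, ext_cs]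
  · rw [ext_l0, ext_l1, ext_l2]

variable {R : Type*} [Ring R] (X : Q → R)

theorem lv_snoc (c : Fin (l + 1) → Q) :
    lv X c = lv X (fun j => c j.castSucc) * X (c (Fin.last l)) := by
  unfold lv
  rw [List.ofFn_succ', List.concat_eq_append, List.prod_append, List.prod_singleton]

theorem lv_cons (c : Fin (l + 1) → Q) :
    lv X c = X (c 0) * lv X (fun j => c j.succ) := by
  unfold lv
  rw [List.ofFn_succ, List.prod_cons]

end

end Pool.Agent.Helper1.TL
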