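import Pool.Agent.Helper1.TL.Gr

namespace Pool.Agent.Helper1.TL

set_option maxHeartbeats 400000

open Finset
open Pool.Agent.Helper1.JD (A)

section
variable {V L V' L' : Type}

/-- old half-edges -/
def em : HV V L → HV (Option V) (Option L)
  | Sum.inl (i, k) => Sum.inl (some i, k)
  | Sum.inr j => Sum.inr (some j)

/-- new half-edges -/
def nw (k : Fin 3) : HV (Option V) (Option L) := Sum.inl (none, k)

/-- the new leg -/
def nl : HV (Option V) (Option L) := Sum.inr none

theorem hv_cases {P : HV (Option V) (Option L) → Prop} (h1 : ∀ x, P (em x)) (h2 : P (nw 0))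
    (h3 : P (nw 1)) (h4 : P (nw 2)) (h5 : P nl) (x) : P x := by
  rcases x with ⟨_ | i, k⟩ | _ | j
  · fin_cases k
    · exact h2
    · exact h3
    · exact h4
  · exact h1 (Sum.inl (i, k))
  · exact h5
  · exact h1 (Sum.inr j)

theorem em_injective : Function.Injective (em : HV V L → HV (Option V) (Option L)) := by
  rintro (⟨i, k⟩ | j) (⟨i', k'⟩ | j') h <;> simp [em] at h <;> simp [h]

theorem em_inj {x y : HV V L} : em x = em y ↔ x = y := em_injective.eq_iff

theorem em_ne_nw (x : HV V L) (k : Fin 3) : em x ≠ nw k := by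
  rcases x with ⟨i, k'⟩ | j <;> simp [em, nw]

theorem em_ne_nl (x : HV V L) : em x ≠ nl := by
  rcases x with ⟨i, k'⟩ | j <;> simp [em, nl]

theorem nw_ne_nl (k : Fin 3) : (nw k : HV (Option V) (Option L)) ≠ nl := by
  simp [nw, nl]

theorem nw_inj {k k' : Fin 3} : (nw k : HV (Option V) (Option L)) = nw k' ↔ k = k' := by
  simp [nw]

/-- a disjoint new part -/
def plf (ι : HV V L → HV V L) : HV (Option V) (Option L) → HV (Option V) (Option L)
  | Sum.inl (some v, k) => em (ι (Sum.inl (v, k)))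
  | Sum.inl (none, 0) => Sum.inr none
  | Sum.inl (none, 1) => Sum.inl (none, 2)
  | Sum.inl (none, 2) => Sum.inl (none, 1)
  | Sum.inr (some j) => em (ι (Sum.inr j))
  | Sum.inr none => Sum.inl (none, 0)

theorem plf_em (ι : HV V L → HV V L) (x : HV V L) : plf ι (em x) = em (ι x) := by
  rcases x with ⟨i, k⟩ | j <;> rfl

/-- a disjoint new part -/
def pl (ι : Equiv.Perm (HV V L)) : Equiv.Perm (HV (Option V) (Option L)) where
  toFun := plf ι
  invFun := plf ι.symm
  left_inv x := by
    induction x using hv_cases with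
    | h1 x => rw [plf_em, plf_em, Equiv.symm_apply_apply]
    | h2 => rfl
    | h3 => rfl
    | h4 => rfl
    | h5 => rfl
  right_inv x := by
    induction x using hv_cases with
    | h1 x => rw [plf_em, plf_em, Equiv.apply_symm_apply]
    | h2 => rfl
    | h3 => rfl
    | h4 => rfl
    | h5 => rfl

theorem pl_em (ι : Equiv.Perm (HV V L)) (x : HV V L) : pl ι (em x) = em (ι x) := plf_em _ _

theorem pl_0 (ι : Equiv.Perm (HV V L)) : pl ι (nw 0) = nl := rfl
theorem pl_1 (ι : Equiv.Perm (HV V L)) : pl ι (nw 1) = nw 2 := rfl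
theorem pl_2 (ι : Equiv.Perm (HV V L)) : pl ι (nw 2) = nw 1 := rfl
theorem pl_l (ι : Equiv.Perm (HV V L)) : pl ι nl = nw 0 := rfl

open Classical in
/-- the swap of the insertion -/
noncomputable def sw (h : HV V L) : Equiv.Perm (HV (Option V) (Option L)) :=
  Equiv.swap (em h) (nw 2)

/-- insertion of a leg at the edge of the half-edge `h` -/
noncomputable def ins (ι : Equiv.Perm (HV V L)) (h : HV V L) :
    Equiv.Perm (HV (Option V) (Option L)) := cj (sw h) (pl ι)

theorem sw_h (h : HV V L) : sw h (em h) = nw 2 := by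
  classical
  unfold sw; rw [Equiv.swap_apply_left]

theorem sw_2 (h : HV V L) : sw h (nw 2) = em h := by
  classical
  unfold sw; rw [Equiv.swap_apply_right]

theorem sw_em {h x : HV V L} (hx : x ≠ h) : sw h (em x) = em x := by
  classical
  unfold sw; rw [Equiv.swap_apply_of_ne_of_ne (fun e => hx (em_injective e)) (em_ne_nw _ _)]

theorem sw_0 (h : HV V L) : sw h (nw 0) = nw 0 := by
  classical
  unfold sw
  rw [Equiv.swap_apply_of_ne_of_ne (em_ne_nw _ _).symm (by rw [Ne, nw_inj]; decide)]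

theorem sw_1 (h : HV V L) : sw h (nw 1) = nw 1 := by
  classical
  unfold sw
  rw [Equiv.swap_apply_of_ne_of_ne (em_ne_nw _ _).symm (by rw [Ne, nw_inj]; decide)]

theorem sw_l (h : HV V L) : sw h nl = nl := by
  classical
  unfold sw
  rw [Equiv.swap_apply_of_ne_of_ne (em_ne_nl _).symm (nw_ne_nl _).symm]

variable {ι : Equiv.Perm (HV V L)} {h : HV V L}

theorem ins_0 : ins ι h (nw 0) = nl := by
  have := cj_apply (sw h) (pl ι) (nw 0)
  rwa [sw_0, pl_0, sw_l] at this

theorem ins_l : ins ι h nl = nw 0 := by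
  have := cj_apply (sw h) (pl ι) nl
  rwa [sw_l, pl_l, sw_0] at this

theorem ins_1 : ins ι h (nw 1) = em h := by
  have := cj_apply (sw h) (pl ι) (nw 1)
  rwa [sw_1, pl_1, sw_2] at this

theorem ins_h : ins ι h (em h) = nw 1 := by
  have := cj_apply (sw h) (pl ι) (nw 2)
  rwa [sw_2, pl_2, sw_1] at this

theorem ins_2 (hn : ι h ≠ h) : ins ι h (nw 2) = em (ι h) := by
  have := cj_apply (sw h) (pl ι) (em h)
  rwa [sw_h, pl_em, sw_em hn] at this

theorem ins_ih (hi : ι (ι h) = h) (hn : ι h ≠ h) : ins ι h (em (ι h)) = nw 2 := by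
  have := cj_apply (sw h) (pl ι) (em (ι h))
  rwa [sw_em hn, pl_em, hi, sw_h] at this

theorem ins_em (hi : ∀ x, ι (ι x) = x) {x : HV V L} (h1 : x ≠ h) (h2 : x ≠ ι h) :
    ins ι h (em x) = em (ι x) := by
  have := cj_apply (sw h) (pl ι) (em x)
  rwa [sw_em h1, pl_em, sw_em (fun e => h2 (by rw [← e, hi]))] at this

/-- the characterization of the insertion -/
theorem ins_unique (hi : ∀ x, ι (ι x) = x) (hn : ∀ x, ι x ≠ x)
    {κ : Equiv.Perm (HV (Option V) (Option L))} (hκ : ∀ x, κ (κ x) = x)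
    (h0 : κ (nw 0) = nl) (h1 : κ (nw 1) = em h) (h2 : κ (nw 2) = em (ι h))
    (h3 : ∀ x, x ≠ h → x ≠ ι h → κ (em x) = em (ι x)) : κ = ins ι h := by
  ext x : 1
  induction x using hv_cases with
  | h1 x =>
    by_cases e1 : x = h
    · subst e1
      rw [ins_h, ← h1, hκ]
    · by_cases e2 : x = ι h
      · subst e2
        rw [ins_ih (hi _) (hn _), ← h2, hκ]
      · rw [h3 x e1 e2, ins_em hi e1 e2]
  | h2 => rw [h0, ins_0]
  | h3 => rw [h1, ins_1]
  | h4 => rw [h2, ins_2 (hn _)]
  | h5 => rw [ins_l, ← h0, hκ]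

theorem ins_invol (hi : ∀ x, ι (ι x) = x) (x) : ins ι h (ins ι h x) = x := by
  have hp : ∀ x, pl ι (pl ι x) = x := by
    intro x
    induction x using hv_cases with
    | h1 x => rw [pl_em, pl_em, hi]
    | h2 => rfl
    | h3 => rfl
    | h4 => rfl
    | h5 => rfl
  obtain ⟨y, rfl⟩ := (sw h).surjective x
  unfold ins
  rw [cj_apply, cj_apply, hp]

theorem ins_nofix (hn : ∀ x, ι x ≠ x) (x) : ins ι h x ≠ x := by
  have hp : ∀ x, pl ι x ≠ x := by
    intro x
    induction x using hv_cases with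
    | h1 x => rw [pl_em]; exact fun e => hn x (em_injective e)
    | h2 => rw [pl_0]; exact (nw_ne_nl _).symm
    | h3 => rw [pl_1]; rw [Ne, nw_inj]; decide
    | h4 => rw [pl_2]; rw [Ne, nw_inj]; decide
    | h5 => rw [pl_l]; exact nw_ne_nl _
  obtain ⟨y, rfl⟩ := (sw h).surjective x
  unfold ins
  rw [cj_apply]
  exact fun e => hp y ((sw h).injective e)

theorem val_ins (hι : Val ι) (h : HV V L) : Val (ins ι h) := by
  refine ⟨ins_invol hι.invol, ins_nofix hι.nofix, ?_⟩
  intro P hP1 hP2 hne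
  have p0 : ∀ k k', nw k ∈ P → nw k' ∈ P := fun k k' hk => hP2 _ _ _ hk
  have hh1 : nw 1 ∈ P → em h ∈ P := fun e => by
    have := hP1 _ e
    rwa [ins_1] at this
  have hh1' : em h ∈ P → nw 1 ∈ P := fun e => by
    have := hP1 _ e
    rwa [ins_h] at this
  have hh2 : nw 2 ∈ P → em (ι h) ∈ P := fun e => by
    have := hP1 _ e
    rwa [ins_2 (hι.nofix _)] at this
  have hh2' : em (ι h) ∈ P → nw 2 ∈ P := fun e => by
    have := hP1 _ e
    rwa [ins_ih (hι.invol _) (hι.nofix _)] at this
  have hne' : {x : HV V L | em x ∈ P}.Nonempty := by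
    obtain ⟨x, hx⟩ := hne
    induction x using hv_cases with
    | h1 x => exact ⟨x, hx⟩
    | h2 => exact ⟨h, hh1 (p0 _ _ hx)⟩
    | h3 => exact ⟨h, hh1 (p0 _ _ hx)⟩
    | h4 => exact ⟨h, hh1 (p0 _ _ hx)⟩
    | h5 =>
      have := hP1 _ hx
      rw [ins_l] at this
      exact ⟨h, hh1 (p0 _ _ this)⟩
  have hall := hι.conn {x : HV V L | em x ∈ P} (by
    intro x hx
    show em (ι x) ∈ P
    by_cases e1 : x = h
    · subst e1
      exact hh2 (p0 _ _ (hh1' hx))
    · by_cases e2 : x = ι h
      · subst e2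
        rw [hι.invol]
        exact hh1 (p0 _ _ (hh2' hx))
      · rw [← ins_em hι.invol e1 e2]
        exact hP1 _ hx) (fun i k k' hk => hP2 (some i) k k' hk) hne'
  have hn1 : nw 1 ∈ P := hh1' (hall h)
  intro x
  induction x using hv_cases with
  | h1 x => exact hall x
  | h2 => exact p0 _ _ hn1
  | h3 => exact hn1
  | h4 => exact p0 _ _ hn1
  | h5 =>
    have := hP1 _ (p0 1 0 hn1)
    rwa [ins_0] at this

/-- the converse -/
theorem val_of_ins (hi : ∀ x, ι (ι x) = x) (hn : ∀ x, ι x ≠ x) (hv : Val (ins ι h)) : Val ι := by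
  refine ⟨hi, hn, ?_⟩
  intro P hP1 hP2 hne
  have hall := hv.conn {x | (∃ y ∈ P, x = em y) ∨ ((∃ k, x = nw k) ∧ h ∈ P) ∨ (x = nl ∧ h ∈ P)} (by
    rintro x (⟨y, hy, rfl⟩ | ⟨⟨k, rfl⟩, hh⟩ | ⟨rfl, hh⟩)
    · by_cases e1 : y = h
      · subst e1
        rw [ins_h]
        exact Or.inr (Or.inl ⟨⟨1, rfl⟩, hy⟩)
      · by_cases e2 : y = ι h
        · subst e2
          rw [ins_ih (hi _) (hn _)]
          refine Or.inr (Or.inl ⟨⟨2, rfl⟩, ?_⟩)
          have := hP1 _ hy
          rwa [hi] at this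
        · rw [ins_em hi e1 e2]
          exact Or.inl ⟨_, hP1 _ hy, rfl⟩
    · fin_cases k
      · exact Or.inr (Or.inr ⟨ins_0, hh⟩)
      · exact Or.inl ⟨h, hh, ins_1⟩
      · exact Or.inl ⟨ι h, hP1 _ hh, ins_2 (hn _)⟩
    · rw [ins_l]
      exact Or.inr (Or.inl ⟨⟨0, rfl⟩, hh⟩)) (by
    rintro i k k' (⟨y, hy, e⟩ | ⟨⟨m, e⟩, hh⟩ | ⟨e, hh⟩)
    · rcases y with ⟨i', m⟩ | j
      · have h1 : i = some i' := (Prod.mk.inj (Sum.inl_injective e)).1
        subst h1
        exact Or.inl ⟨Sum.inl (i', k'), hP2 _ _ _ hy, rfl⟩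
      · cases e
    · have h1 : i = none := (Prod.mk.inj (Sum.inl_injective e)).1
      subst h1
      exact Or.inr (Or.inl ⟨⟨k', rfl⟩, hh⟩)
    · cases e) (by
    obtain ⟨x, hx⟩ := hne
    exact ⟨em x, Or.inl ⟨x, hx, rfl⟩⟩)
  intro x
  rcases hall (em x) with ⟨y, hy, e⟩ | ⟨⟨k, e⟩, _⟩ | ⟨e, _⟩
  · rw [em_injective e]; exact hy
  · exact absurd e (em_ne_nw _ _)
  · exact absurd e (em_ne_nl _)

/-! ### functoriality -/

/-- extension of a bijection -/
def ex (g : HV V L ≃ HV V' L') : HV (Option V) (Option L) ≃ HV (Option V') (Option L') where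
  toFun
    | Sum.inl (some v, k) => em (g (Sum.inl (v, k)))
    | Sum.inl (none, k) => Sum.inl (none, k)
    | Sum.inr (some j) => em (g (Sum.inr j))
    | Sum.inr none => Sum.inr none
  invFun
    | Sum.inl (some v, k) => em (g.symm (Sum.inl (v, k)))
    | Sum.inl (none, k) => Sum.inl (none, k)
    | Sum.inr (some j) => em (g.symm (Sum.inr j))
    | Sum.inr none => Sum.inr none
  left_inv := by
    rintro (⟨_ | i, k⟩ | _ | j)
    · rfl
    · show (match em (g (Sum.inl (i, k))) with
        | Sum.inl (some v, k) => em (g.symm (Sum.inl (v, k)))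
        | Sum.inl (none, k) => Sum.inl (none, k)
        | Sum.inr (some j) => em (g.symm (Sum.inr j))
        | Sum.inr none => Sum.inr none) = _
      have : ∀ y : HV V' L', (match em y with
        | Sum.inl (some v, k) => em (g.symm (Sum.inl (v, k)))
        | Sum.inl (none, k) => Sum.inl (none, k)
        | Sum.inr (some j) => em (g.symm (Sum.inr j))
        | Sum.inr none => Sum.inr none) = (em (g.symm y) : HV (Option V) (Option L)) := by
        rintro (⟨i, k⟩ | j) <;> rfl
      rw [this, Equiv.symm_apply_apply]; rfl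
    · rfl
    · have : ∀ y : HV V' L', (match em y with
        | Sum.inl (some v, k) => em (g.symm (Sum.inl (v, k)))
        | Sum.inl (none, k) => Sum.inl (none, k)
        | Sum.inr (some j) => em (g.symm (Sum.inr j))
        | Sum.inr none => Sum.inr none) = (em (g.symm y) : HV (Option V) (Option L)) := by
        rintro (⟨i, k⟩ | j) <;> rfl
      show (match em (g (Sum.inr j)) with
        | Sum.inl (some v, k) => em (g.symm (Sum.inl (v, k)))
        | Sum.inl (none, k) => Sum.inl (none, k)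
        | Sum.inr (some j) => em (g.symm (Sum.inr j))
        | Sum.inr none => Sum.inr none) = _
      rw [this, Equiv.symm_apply_apply]; rfl
  right_inv := by
    have : ∀ y : HV V L, (match em y with
        | Sum.inl (some v, k) => em (g (Sum.inl (v, k)))
        | Sum.inl (none, k) => Sum.inl (none, k)
        | Sum.inr (some j) => em (g (Sum.inr j))
        | Sum.inr none => Sum.inr none) = (em (g y) : HV (Option V') (Option L')) := by
        rintro (⟨i, k⟩ | j) <;> rfl
    rintro (⟨_ | i, k⟩ | _ | j)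
    · rfl
    · show (match em (g.symm (Sum.inl (i, k))) with
        | Sum.inl (some v, k) => em (g (Sum.inl (v, k)))
        | Sum.inl (none, k) => Sum.inl (none, k)
        | Sum.inr (some j) => em (g (Sum.inr j))
        | Sum.inr none => Sum.inr none) = _
      rw [this, Equiv.apply_symm_apply]; rfl
    · rfl
    · show (match em (g.symm (Sum.inr j)) with
        | Sum.inl (some v, k) => em (g (Sum.inl (v, k)))
        | Sum.inl (none, k) => Sum.inl (none, k)
        | Sum.inr (some j) => em (g (Sum.inr j))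
        | Sum.inr none => Sum.inr none) = _
      rw [this, Equiv.apply_symm_apply]; rfl

theorem ex_em (g : HV V L ≃ HV V' L') (x : HV V L) : ex g (em x) = em (g x) := by
  rcases x with ⟨i, k⟩ | j <;> rfl

theorem ex_nw (g : HV V L ≃ HV V' L') (k : Fin 3) : ex g (nw k) = nw k := rfl

theorem ex_nl (g : HV V L ≃ HV V' L') : ex g nl = nl := rfl

theorem pl_cj (g : HV V L ≃ HV V' L') (ι : Equiv.Perm (HV V L)) :
    pl (cj g ι) = cj (ex g) (pl ι) := by
  symm
  apply cj_eq_of
  intro x
  induction x using hv_cases with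
  | h1 x => rw [pl_em, ex_em, ex_em, pl_em, cj_apply]
  | h2 => rfl
  | h3 => rfl
  | h4 => rfl
  | h5 => rfl

theorem ins_cj (g : HV V L ≃ HV V' L') (ι : Equiv.Perm (HV V L)) (h : HV V L) :
    ins (cj g ι) (g h) = cj (ex g) (ins ι h) := by
  unfold ins
  rw [pl_cj, ← cj_trans, ← cj_trans]
  congr 1
  ext x : 1
  show sw (g h) (ex g x) = ex g (sw h x)
  induction x using hv_cases with
  | h1 x =>
    by_cases e : x = h
    · subst e
      rw [ex_em, sw_h, sw_h, ex_nw]
    · rw [sw_em e, ex_em, sw_em (fun e' => e (g.injective e'))]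
  | h2 => rw [ex_nw, sw_0, sw_0, ex_nw]
  | h3 => rw [ex_nw, sw_1, sw_1, ex_nw]
  | h4 => rw [ex_nw, sw_2, sw_2, ex_em]
  | h5 => rw [ex_nl, sw_l, sw_l, ex_nl]

/-- extension of the slot permutations -/
def er (r : V → Equiv.Perm (Fin 3)) (r0 : Equiv.Perm (Fin 3)) : Option V → Equiv.Perm (Fin 3)
  | some i => r i
  | none => r0

theorem ex_au (s : V ≃ V') (s' : L ≃ L') (r : V → Equiv.Perm (Fin 3)) :
    ex (au s s' r) = au (Equiv.optionCongr s) (Equiv.optionCongr s') (er r 1) := by
  ext x : 1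
  rcases x with ⟨_ | i, k⟩ | _ | j <;> rfl

theorem prod_er [Fintype V] (r : V → Equiv.Perm (Fin 3)) (r0 : Equiv.Perm (Fin 3)) :
    ∏ i, Equiv.Perm.sign (er r r0 i) = Equiv.Perm.sign r0 * ∏ i, Equiv.Perm.sign (r i) := by
  rw [Fintype.prod_option]
  rfl

/-! ### flip -/

theorem flip (hι : Val ι) (h : HV V L) : ins ι (ι h) =
    cj (au (Equiv.refl _) (Equiv.refl _) (er (fun _ => 1) (Equiv.swap 1 2))) (ins ι h) := by
  set g : HV (Option V) (Option L) ≃ HV (Option V) (Option L) :=
    au (Equiv.refl _) (Equiv.refl _) (er (fun _ => 1) (Equiv.swap 1 2)) with hg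
  have gem : ∀ x, g (em x) = em x := by
    rintro (⟨i, k⟩ | j) <;> rfl
  have g0 : g (nw 0) = nw 0 := by
    show Sum.inl (none, Equiv.swap (1 : Fin 3) 2 0) = _
    rw [Equiv.swap_apply_of_ne_of_ne (by decide) (by decide)]; rfl
  have g1 : g (nw 1) = nw 2 := by
    show Sum.inl (none, Equiv.swap (1 : Fin 3) 2 1) = _
    rw [Equiv.swap_apply_left]; rfl
  have g2 : g (nw 2) = nw 1 := by
    show Sum.inl (none, Equiv.swap (1 : Fin 3) 2 2) = _
    rw [Equiv.swap_apply_right]; rfl
  have gl : g nl = nl := rfl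
  symm
  apply cj_eq_of
  intro x
  have hi := hι.invol
  have hn := hι.nofix
  have hn' : ι (ι h) ≠ ι h := hn _
  induction x using hv_cases with
  | h1 x =>
    rw [gem]
    by_cases e1 : x = h
    · subst e1
      rw [ins_h, g1]
      have := ins_ih (ι := ι) (h := ι x) (hi _) hn'
      rwa [hi] at this
    · by_cases e2 : x = ι h
      · subst e2
        rw [ins_ih (hi _) (hn _), g2, ins_h]
      · rw [ins_em hi e1 e2, gem, ins_em hi e2 (by rw [hi]; exact e1)]
  | h2 => rw [g0, ins_0, ins_0, gl]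
  | h3 => rw [g1, ins_1, gem, ins_2 hn', hi]
  | h4 => rw [g2, ins_1, ins_2 (hn _), gem]
  | h5 => rw [gl, ins_l, ins_l, g0]

/-! ### two insertions -/

/-- exchange of the two new vertices -/
def ox (W : Type) : Option (Option W) ≃ Option (Option W) where
  toFun
    | none => some none
    | some none => none
    | some (some x) => some (some x)
  invFun
    | none => some none
    | some none => none
    | some (some x) => some (some x)
  left_inv := by rintro (_ | _ | x) <;> rfl
  right_inv := by rintro (_ | _ | x) <;> rfl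

/-- exchange of the two new parts -/
def xx (V L : Type) : HV (Option (Option V)) (Option (Option L)) ≃
    HV (Option (Option V)) (Option (Option L)) := au (ox V) (ox L) fun _ => 1

theorem xx_em (x : HV V L) : xx V L (em (em x)) = em (em x) := by
  rcases x with ⟨i, k⟩ | j <;> rfl

theorem xx_nw (k : Fin 3) : xx V L (nw k) = em (nw k) := rfl
theorem xx_em_nw (k : Fin 3) : xx V L (em (nw k)) = nw k := rfl
theorem xx_nl : xx V L nl = em nl := rfl
theorem xx_em_nl : xx V L (em nl) = nl := rfl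

theorem xx_pl (ι : Equiv.Perm (HV V L)) : cj (xx V L) (pl (pl ι)) = pl (pl ι) := by
  apply cj_eq_of
  intro x
  induction x using hv_cases with
  | h1 x =>
    induction x using hv_cases with
    | h1 x => rw [xx_em, pl_em, pl_em, xx_em]
    | h2 => rfl
    | h3 => rfl
    | h4 => rfl
    | h5 => rfl
  | h2 => rfl
  | h3 => rfl
  | h4 => rfl
  | h5 => rfl

theorem ins_ins (x y : HV V L) : ins (ins ι x) (em y) =
    cj (sw (em y) * ex (sw x)) (pl (pl ι)) := by
  unfold ins
  rw [pl_cj, ← cj_mul]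

theorem comm {x y : HV V L} (hxy : x ≠ y) : ins (ins ι y) (em x) =
    cj (xx V L) (ins (ins ι x) (em y)) := by
  have E1 : cj (xx V L) (ins (ins ι x) (em y)) =
      cj ((xx V L) * (sw (em y) * ex (sw x)) * (xx V L)) (pl (pl ι)) := by
    rw [ins_ins, cj_mul _ (xx V L), xx_pl, ← cj_mul]
  rw [E1, ins_ins]
  congr 1
  ext z : 1
  show sw (em x) (ex (sw y) z) = xx V L (sw (em y) (ex (sw x) (xx V L z)))
  have a1 : ∀ k : Fin 3, k ≠ 2 → ∀ x : HV V L, sw x (nw k) = nw k := by
    intro k hk x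
    fin_cases k
    · exact sw_0 _
    · exact sw_1 _
    · exact absurd rfl hk
  induction z using hv_cases with
  | h1 z =>
    induction z using hv_cases with
    | h1 z =>
      by_cases e1 : z = x
      · subst e1
        rw [xx_em, ex_em, sw_em hxy, sw_h, ex_em, sw_h, sw_em (em_ne_nw _ _).symm, xx_em_nw]
      · by_cases e2 : z = y
        · subst e2
          rw [xx_em, ex_em, sw_h, ex_em, sw_em e1, sw_h, xx_nw, sw_em (em_ne_nw _ _).symm]
        · rw [xx_em, ex_em, sw_em e2, sw_em (fun e => e1 (em_injective e)), ex_em, sw_em e1,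
            sw_em (fun e => e2 (em_injective e)), xx_em]
    | h2 => rw [xx_em_nw, ex_nw, sw_0, xx_nw, ex_em, sw_0, sw_em (em_ne_nw _ _).symm]
    | h3 => rw [xx_em_nw, ex_nw, sw_1, xx_nw, ex_em, sw_1, sw_em (em_ne_nw _ _).symm]
    | h4 =>
      rw [xx_em_nw, ex_nw, sw_2, xx_em, ex_em, sw_2, sw_em (fun e => hxy (em_injective e).symm)]
    | h5 => rw [xx_em_nl, ex_nl, sw_l, xx_nl, ex_em, sw_l, sw_em (em_ne_nl _).symm]
  | h2 => rw [xx_nw, ex_nw, sw_0, ex_em, sw_0, sw_em (em_ne_nw _ _).symm, xx_em_nw]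
  | h3 => rw [xx_nw, ex_nw, sw_1, ex_em, sw_1, sw_em (em_ne_nw _ _).symm, xx_em_nw]
  | h4 =>
    rw [xx_nw, ex_nw, sw_2, ex_em, sw_2, sw_em (fun e => hxy (em_injective e)), xx_em]
  | h5 => rw [xx_nl, ex_nl, sw_l, ex_em, sw_l, sw_em (em_ne_nl _).symm, xx_em_nl]

/-- insertion behind the new vertex -/
theorem behind (hι : Val ι) (x : HV V L) : ins (ins ι x) (nw 2) =
    cj (xx V L) (ins (ins ι x) (em x)) := by
  have hi := hι.invol
  have hn := hι.nofix
  have v1 := val_ins hι x
  have v2 := val_ins v1 (em x)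
  symm
  apply ins_unique v1.invol v1.nofix
  · intro z
    obtain ⟨y, rfl⟩ := (xx V L).surjective z
    rw [cj_apply, cj_apply, v2.invol]
  · have := cj_apply (xx V L) (ins (ins ι x) (em x)) (em (nw 0))
    rw [xx_em_nw, ins_em v1.invol (em_ne_nw _ _).symm (by rw [ins_h, Ne, nw_inj]; decide),
      ins_0, xx_em_nl] at this
    exact this
  · have := cj_apply (xx V L) (ins (ins ι x) (em x)) (em (nw 1))
    have h2 : ins (ins ι x) (em x) (em (nw 1)) = nw 2 := by
      have := ins_ih (ι := ins ι x) (h := em x) (v1.invol _) (v1.nofix _)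
      rwa [ins_h] at this
    rw [xx_em_nw, h2, xx_nw] at this
    exact this
  · have := cj_apply (xx V L) (ins (ins ι x) (em x)) (em (nw 2))
    rw [xx_em_nw, ins_em v1.invol (em_ne_nw _ _).symm (by rw [ins_h, Ne, nw_inj]; decide),
      ins_2 (hn _), xx_em] at this
    rw [this, ins_2 (hn _)]
  · intro z h1 h2
    rw [ins_2 (hn _)] at h2
    induction z using hv_cases with
    | h1 z =>
      by_cases e1 : z = x
      · subst e1
        have := cj_apply (xx V L) (ins (ins ι z) (em z)) (em (em z))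
        rw [xx_em, ins_h, xx_nw] at this
        rw [this, ins_h]
      · have e2 : z ≠ ι x := fun e => h2 (by rw [e])
        have := cj_apply (xx V L) (ins (ins ι x) (em x)) (em (em z))
        rw [xx_em, ins_em v1.invol (fun e => e1 (em_injective e)) (by
          rw [ins_h]; exact em_ne_nw _ _), ins_em hi e1 e2, xx_em] at this
        rw [this, ins_em hi e1 e2]
    | h2 =>
      have := cj_apply (xx V L) (ins (ins ι x) (em x)) (nw 0)
      rw [xx_nw, ins_0, xx_nl] at this
      rw [this, ins_0]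
    | h3 =>
      have := cj_apply (xx V L) (ins (ins ι x) (em x)) (nw 1)
      rw [xx_nw, ins_1, xx_em] at this
      rw [this, ins_1]
    | h4 => exact absurd rfl h1
    | h5 =>
      have := cj_apply (xx V L) (ins (ins ι x) (em x)) nl
      rw [xx_nl, ins_l, xx_nw] at this
      rw [this, ins_l]

end

end Pool.Agent.Helper1.TL
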