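import Pool.Agent.Helper1.TL.Ihx

namespace Pool.Agent.Helper1.TL

open Finset Polynomial
open Pool.Agent.Helper1.JD (Half Diag Moved vperm lperm emb ret moved_apply moved_apply' n01 n02 n12)

section
variable {B : Type*} [AddCommGroup B] {t l : ℕ}

/-- insertion of the structure constants at a half-edge -/
def ad (ι : Half t l → Half t l) (z : Q) (Φ : (Half t l → Q) → B) (h : Half t l) : B :=
  ∑ c ∈ col ι, ∑ b : Q, T b.swap z (c h) • Φ (Function.update c h b)

theorem ad_edge {ι : Half t l → Half t l} (hι : ∀ h, ι (ι h) = h) (hne : ∀ h, ι h ≠ h) (z : Q)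
    (Φ : (Half t l → Q) → B) (h : Half t l) : ad ι z Φ (ι h) = - ad ι z Φ h := by
  have hn : ι h ≠ h := hne h
  unfold ad
  rw [← Finset.sum_product', ← Finset.sum_product', ← Finset.sum_neg_distrib]
  symm
  refine Finset.sum_bij' (fun p _ => (rec2 h (ι h) p.2 p.1, p.1 (ι h)))
    (fun p _ => (rec2 h (ι h) p.2.swap p.1, p.1 h)) ?_ ?_ ?_ ?_ ?_
  · rintro ⟨c, m⟩ hc
    simp only [Finset.mem_product, mem_univ, and_true] at hc ⊢
    exact rec2_mem hι hne rfl m hc
  · rintro ⟨c, m⟩ hc
    simp only [Finset.mem_product, mem_univ, and_true] at hc ⊢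
    exact rec2_mem hι hne rfl _ hc
  · rintro ⟨c, m⟩ hc
    simp only [Finset.mem_product, mem_univ, and_true] at hc
    rw [mem_col] at hc
    refine Prod.ext ?_ ?_
    · funext x
      show rec2 h (ι h) (c (ι h)).swap (rec2 h (ι h) m c) x = c x
      unfold rec2
      by_cases h1 : x = h
      · rw [if_pos h1, h1, hc, Prod.swap_swap]
      · rw [if_neg h1, if_neg h1]
        by_cases h2 : x = ι h
        · rw [if_pos h2, h2, Prod.swap_swap]
        · rw [if_neg h2, if_neg h2]
    · show rec2 h (ι h) m c h = m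
      unfold rec2
      rw [if_pos rfl]
  · rintro ⟨c, m⟩ hc
    simp only [Finset.mem_product, mem_univ, and_true] at hc
    rw [mem_col] at hc
    refine Prod.ext ?_ ?_
    · funext x
      show rec2 h (ι h) (c h) (rec2 h (ι h) m.swap c) x = c x
      unfold rec2
      by_cases h1 : x = h
      · rw [if_pos h1, h1]
      · rw [if_neg h1, if_neg h1]
        by_cases h2 : x = ι h
        · rw [if_pos h2, h2, hc]
        · rw [if_neg h2, if_neg h2]
    · show rec2 h (ι h) m.swap c (ι h) = m
      unfold rec2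
      rw [if_neg hn, if_pos rfl, Prod.swap_swap]
  · rintro ⟨c, m⟩ hc
    simp only [Finset.mem_product, mem_univ, and_true] at hc
    rw [mem_col] at hc
    show -(T m.swap z (c h) • Φ (Function.update c h m)) =
      T (c (ι h)).swap z (rec2 h (ι h) m c (ι h)) •
        Φ (Function.update (rec2 h (ι h) m c) (ι h) (c (ι h)))
    have e1 : rec2 h (ι h) m c (ι h) = m.swap := by
      unfold rec2
      rw [if_neg hn, if_pos rfl]
    have e2 : Function.update (rec2 h (ι h) m c) (ι h) (c (ι h)) = Function.update c h m := by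
      funext x
      by_cases h2 : x = ι h
      · subst h2
        rw [Function.update_self, Function.update_of_ne hn]
      · rw [Function.update_of_ne h2]
        unfold rec2
        by_cases h1 : x = h
        · subst h1
          rw [if_pos rfl, Function.update_self]
        · rw [if_neg h1, if_neg h2, Function.update_of_ne h1]
    rw [e1, e2, hc, Prod.swap_swap, T_swap02 m.swap z (c h), neg_smul]

theorem sum_ad {ι : Half t l → Half t l} (h2 : ∀ b : B, (2 : ℤ) • b = 0 → b = 0)
    (hι : ∀ h, ι (ι h) = h) (hne : ∀ h, ι h ≠ h) (z : Q)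
    (Φ : (Half t l → Q) → B) : ∑ h, ad ι z Φ h = 0 := by
  have e : ∑ h, ad ι z Φ h = ∑ h, ad ι z Φ (ι h) :=
    (Equiv.sum_comp (⟨ι, ι, hι, hι⟩ : Equiv.Perm (Half t l)) (ad ι z Φ)).symm
  simp only [ad_edge hι hne, Finset.sum_neg_distrib] at e
  apply h2
  rw [two_zsmul]
  nth_rewrite 1 [e]
  exact neg_add_cancel _

theorem ad_vertex (ι : Half t l → Half t l) (z : Q) (ψ : (Fin l → Q) → B) (i : Fin t) :
    ∑ s : Fin 3, ad ι z (fun c => vp c • ψ fun j => c (Sum.inr j)) (Sum.inl (i, s)) = 0 := by
  unfold ad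
  rw [Finset.sum_comm]
  refine Finset.sum_eq_zero fun c _ => ?_
  set r : ℤ := ∏ v ∈ univ.erase i,
    T (c (Sum.inl (v, 0))) (c (Sum.inl (v, 1))) (c (Sum.inl (v, 2))) with hr
  have hv : ∀ (s : Fin 3) (b : Q), vp (Function.update c (Sum.inl (i, s)) b) =
      T (Function.update c (Sum.inl (i, s)) b (Sum.inl (i, 0)))
        (Function.update c (Sum.inl (i, s)) b (Sum.inl (i, 1)))
        (Function.update c (Sum.inl (i, s)) b (Sum.inl (i, 2))) * r := by
    intro s b
    unfold vp
    rw [← Finset.mul_prod_erase univ _ (mem_univ i), hr]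
    congr 1
    refine Finset.prod_congr rfl fun v hv => ?_
    have h1 : v ≠ i := Finset.ne_of_mem_erase hv
    rw [Function.update_of_ne (by simp [h1]), Function.update_of_ne (by simp [h1]),
      Function.update_of_ne (by simp [h1])]
  have hl : ∀ (s : Fin 3) (b : Q), (fun j => Function.update c (Sum.inl (i, s)) b (Sum.inr j)) =
      fun j => c (Sum.inr j) := by
    intro s b
    funext j
    rw [Function.update_of_ne (by simp)]
  simp only [hv, hl]
  rw [Fin.sum_univ_three]
  have u0 : ∀ (s s' : Fin 3) (b : Q), s' ≠ s → Function.update c (Sum.inl (i, s)) b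
      (Sum.inl (i, s')) = c (Sum.inl (i, s')) := by
    intro s s' b h
    rw [Function.update_of_ne (by simp [h])]
  simp only [Function.update_self, u0 0 1 _ (by decide), u0 0 2 _ (by decide),
    u0 1 0 _ (by decide), u0 1 2 _ (by decide), u0 2 0 _ (by decide), u0 2 1 _ (by decide)]
  rw [← Finset.sum_add_distrib, ← Finset.sum_add_distrib]
  have hJ := jacobi z (c (Sum.inl (i, 0))) (c (Sum.inl (i, 1))) (c (Sum.inl (i, 2)))
  have e : ∀ b : Q, T b.swap z (c (Sum.inl (i, 0))) • (T b (c (Sum.inl (i, 1)))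
      (c (Sum.inl (i, 2))) * r) • (ψ fun j => c (Sum.inr j)) +
      T b.swap z (c (Sum.inl (i, 1))) • (T (c (Sum.inl (i, 0))) b
      (c (Sum.inl (i, 2))) * r) • (ψ fun j => c (Sum.inr j)) +
      T b.swap z (c (Sum.inl (i, 2))) • (T (c (Sum.inl (i, 0))) (c (Sum.inl (i, 1))) b
        * r) • (ψ fun j => c (Sum.inr j)) =
      ((T b.swap z (c (Sum.inl (i, 0))) * T b (c (Sum.inl (i, 1))) (c (Sum.inl (i, 2))) +
        T b.swap z (c (Sum.inl (i, 1))) * T b (c (Sum.inl (i, 2))) (c (Sum.inl (i, 0))) +
        T b.swap z (c (Sum.inl (i, 2))) * T b (c (Sum.inl (i, 0))) (c (Sum.inl (i, 1)))) * r) •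
        (ψ fun j => c (Sum.inr j)) := by
    intro b
    rw [smul_smul, smul_smul, smul_smul, ← add_smul, ← add_smul,
      ← T_cyc (c (Sum.inl (i, 0))) b (c (Sum.inl (i, 2))),
      T_cyc b (c (Sum.inl (i, 0))) (c (Sum.inl (i, 1)))]
    congr 1
    ring
  rw [Finset.sum_congr rfl fun b _ => e b, ← Finset.sum_smul, ← Finset.sum_mul, hJ, zero_mul,
    zero_smul]

/-- invariance -/
theorem gsum_inv (h2 : ∀ b : B, (2 : ℤ) • b = 0 → b = 0) (D : Diag t l) (z : Q)
    (ψ : (Fin l → Q) → B) :
    gsum D (fun c => ∑ j : Fin l, ∑ b : Q, T b.swap z (c j) • ψ (Function.update c j b)) = 0 := by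
  have h := sum_ad h2 D.invol D.nofix z (fun c => vp c • ψ fun j => c (Sum.inr j))
  rw [Fintype.sum_sum_type, Fintype.sum_prod_type] at h
  rw [Finset.sum_eq_zero fun i _ => ad_vertex D.ι z ψ i, zero_add] at h
  rw [← h]
  unfold gsum ad
  rw [Finset.sum_comm]
  refine Finset.sum_congr rfl fun c _ => ?_
  rw [Finset.smul_sum]
  refine Finset.sum_congr rfl fun j _ => ?_
  rw [Finset.smul_sum]
  refine Finset.sum_congr rfl fun b _ => ?_
  have e1 : vp (Function.update c (Sum.inr j) b) = vp c := by
    unfold vp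
    refine Finset.prod_congr rfl fun v _ => ?_
    rw [Function.update_of_ne (by simp), Function.update_of_ne (by simp),
      Function.update_of_ne (by simp)]
  have e2 : (fun j' => Function.update c (Sum.inr j) b (Sum.inr j')) =
      Function.update (fun j => c (Sum.inr j)) j b := by
    funext j'
    by_cases hj : j' = j
    · subst hj
      rw [Function.update_self, Function.update_self]
    · rw [Function.update_of_ne hj, Function.update_of_ne (by simpa using hj)]
  beta_reduce
  rw [e1, e2, smul_comm]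

end

end Pool.Agent.Helper1.TL
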