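import Pool.Agent.Helper1.TL.Hom

namespace Pool.Agent.Helper1.TL

set_option maxHeartbeats 400000

open MvPolynomial
open Pool.Agent.Helper1.JD (Half Diag A cls)

/-- scalars -/
abbrev K0 : Type := Polynomial ℤ

/-- functions on the matrices -/
abbrev P0 : Type := MvPolynomial Q K0

/-- the action of the elementary matrices by derivations -/
noncomputable def dr (a : Q) : Derivation K0 P0 P0 :=
  MvPolynomial.mkDerivation K0 (fun b : Q => if b.1 = a.2 then (X (a.1, b.2) : P0) else 0)

theorem dr_X (a b : Q) : dr a (X b) = if b.1 = a.2 then (X (a.1, b.2) : P0) else 0 := by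
  unfold dr
  rw [MvPolynomial.mkDerivation_X]

theorem dr_comm (a b : Q) : ⁅dr a, dr b⁆ =
    (if a.2 = b.1 then dr (a.1, b.2) else 0) - (if b.2 = a.1 then dr (b.1, a.2) else 0) := by
  apply MvPolynomial.derivation_ext
  intro c
  rw [Derivation.commutator_apply, Derivation.sub_apply]
  have h0 : ∀ a : Q, (dr a) (0 : P0) = 0 := fun a => map_zero _
  have e : ∀ (p : Prop) [Decidable p] (D : Derivation K0 P0 P0) (x : P0),
      (if p then D else 0) x = if p then D x else 0 := by
    intro p _ D x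
    split_ifs <;> rfl
  rw [e, e, dr_X, dr_X, dr_X, dr_X, apply_ite (dr a), apply_ite (dr b), h0, h0, dr_X, dr_X]
  have s1 : (b.1 = a.2) ↔ (a.2 = b.1) := eq_comm
  have s2 : (a.1 = b.2) ↔ (b.2 = a.1) := eq_comm
  dsimp only
  simp only [s1, s2]
  split_ifs <;> simp

/-- the operators -/
noncomputable def EE (a : Q) : Module.End K0 P0 :=
  LinearMap.mulLeft K0 (X a) + (Polynomial.X : K0) • (dr a : P0 →ₗ[K0] P0)

theorem EE_apply (a : Q) (p : P0) : EE a p = X a * p + (Polynomial.X : K0) • dr a p := rfl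

theorem EE_comm (a b : Q) : EE a * EE b - EE b * EE a =
    (Polynomial.X : K0) • ∑ k : Q, T k.swap a b • EE k := by
  rw [sum_T a b EE]
  apply LinearMap.ext
  intro p
  have hc := congrArg (fun D : Derivation K0 P0 P0 => D p) (dr_comm a b)
  simp only [Derivation.commutator_apply, Derivation.sub_apply] at hc
  have e : ∀ (q : Prop) [Decidable q] (D : Derivation K0 P0 P0) (x : P0),
      (if q then D else 0) x = if q then D x else 0 := by
    intro q _ D x
    split_ifs <;> rfl
  have e' : ∀ (q : Prop) [Decidable q] (D : Module.End K0 P0) (x : P0),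
      (if q then D else 0) x = if q then D x else 0 := by
    intro q _ D x
    split_ifs <;> rfl
  rw [e, e] at hc
  rw [LinearMap.sub_apply, Module.End.mul_apply, Module.End.mul_apply, LinearMap.smul_apply,
    LinearMap.sub_apply, e', e']
  simp only [EE_apply, map_add, Derivation.leibniz, map_smul, dr_X, smul_eq_mul]
  have hc' : dr a (dr b p) = dr b (dr a p) + ((if a.2 = b.1 then dr (a.1, b.2) p else 0) -
      if b.2 = a.1 then dr (b.1, a.2) p else 0) := by
    rw [← hc]; ring
  rw [hc']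
  have s1 : (b.1 = a.2) ↔ (a.2 = b.1) := eq_comm
  have s2 : (a.1 = b.2) ↔ (b.2 = a.1) := eq_comm
  simp only [s1, s2]
  simp only [smul_eq_C_mul]
  split_ifs <;> ring

/-- evaluation at a diagonal matrix -/
noncomputable def ev (x : Fin 3 → ℤ) : P0 →ₐ[K0] K0 :=
  MvPolynomial.aeval fun a : Q => if a.1 = a.2 then Polynomial.C (x a.1) else 0

/-- evaluation at a diagonal matrix -/
noncomputable def tau (x : Fin 3 → ℤ) : Module.End K0 P0 →ₗ[K0] K0 where
  toFun f := ev x (f 1)
  map_add' f g := by rw [LinearMap.add_apply, map_add]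
  map_smul' k f := by rw [LinearMap.smul_apply, map_smul]; rfl

/-- the diagonal matrix -/
def dx (x : Fin 3 → ℤ) (a : Q) : ℤ := if a.1 = a.2 then x a.1 else 0

theorem ev_EE (x : Fin 3 → ℤ) (a : Q) (p : P0) :
    (ev x (EE a p)).coeff 0 = dx x a * (ev x p).coeff 0 := by
  rw [EE_apply, map_add, map_mul, map_smul, Polynomial.coeff_add, Polynomial.mul_coeff_zero,
    smul_eq_mul, Polynomial.coeff_X_mul_zero, add_zero]
  congr 1
  unfold ev dx
  rw [MvPolynomial.aeval_X]
  split_ifs
  · exact Polynomial.coeff_C_zero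
  · exact Polynomial.coeff_zero 0

theorem ev_lv (x : Fin 3 → ℤ) : ∀ (l : ℕ) (c : Fin l → Q),
    (tau x (lv EE c)).coeff 0 = ∏ j, dx x (c j)
  | 0, c => by
    show (ev x ((lv EE c) 1)).coeff 0 = _
    unfold lv
    simp
  | l + 1, c => by
    have ih := ev_lv x l (fun j => c j.succ)
    rw [lv_cons, Fin.prod_univ_succ, ← ih]
    exact ev_EE x (c 0) (lv EE (fun j => c j.succ) 1)

theorem exists_sigma (m : ℕ) (x : Fin 3 → ℤ) : ∃ σ : A →+ ℤ,
    (∀ (t l : ℕ) (D : Diag t l), m < t → σ (cls D) = 0) ∧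
    ∀ (t l : ℕ) (D : Diag t l), t = m → σ (cls D) =
      ∑ c ∈ col D.ι, vp c * ∏ j, dx x (c (Sum.inr j)) := by
  have h2 : ∀ b : K0, (2 : ℤ) • b = 0 → b = 0 := fun b hb => by
    rcases smul_eq_zero.1 hb with h | h
    · exact absurd h (by norm_num)
    · exact h
  have h9 : ∀ b : K0, (9 : ℤ) • b = 0 → b = 0 := fun b hb => by
    rcases smul_eq_zero.1 hb with h | h
    · exact absurd h (by norm_num)
    · exact h
  obtain ⟨W, hW⟩ := exists_weight (Polynomial.X : K0) EE (tau x) h2 h9 EE_comm
  refine ⟨(Polynomial.lcoeff ℤ m).toAddMonoidHom.comp W, ?_, ?_⟩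
  · intro t l D h
    show (W (cls D)).coeff m = 0
    rw [hW]
    unfold wt
    rw [smul_eq_mul, Polynomial.coeff_X_pow_mul', if_neg (by omega)]
  · intro t l D ht
    subst ht
    show (W (cls D)).coeff t = _
    rw [hW]
    unfold wt
    rw [smul_eq_mul, Polynomial.coeff_X_pow_mul', if_pos le_rfl, Nat.sub_self]
    unfold gsum
    rw [Polynomial.finsetSum_coeff]
    refine Finset.sum_congr rfl fun c _ => ?_
    rw [Polynomial.coeff_smul, smul_eq_mul, ev_lv]

end Pool.Agent.Helper1.TL
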