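import Pool.Agent.Helper1.TL.Ev

namespace Pool.Agent.Helper1.TL

set_option maxHeartbeats 400000

open Finset MvPolynomial
open Pool.Agent.Helper1.JD (A Kl)

theorem sum_range' {I : Type} [Fintype I] (φ : I → (Fin 3 → Q)) (hφ : Function.Injective φ)
    (C : (Fin 3 → Q) → Prop) [DecidablePred C] (hC : ∀ m, C m ↔ ∃ i, φ i = m)
    (F : (Fin 3 → Q) → ℤ) : ∑ m : Fin 3 → Q, (if C m then 1 else 0) * F m = ∑ i, F (φ i) := by
  have h1 : (Finset.univ.filter C) = Finset.univ.map ⟨φ, hφ⟩ := by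
    ext m
    simp [hC]
  have h2 : ∀ m : Fin 3 → Q, (if C m then (1 : ℤ) else 0) * F m = if C m then F m else 0 := by
    intro m
    split_ifs <;> simp
  rw [Finset.sum_congr rfl fun m _ => h2 m, ← Finset.sum_filter, h1, Finset.sum_map]
  rfl

theorem sum_T_sq (F : (Fin 3 → Q) → ℤ) : ∑ m : Fin 3 → Q, T (m 0) (m 1) (m 2) ^ 2 * F m =
    (∑ i, ∑ j, ∑ k, F ![(i, j), (j, k), (k, i)]) + (∑ i, ∑ j, ∑ k, F ![(i, j), (k, i), (j, k)]) -
      2 * ∑ i, F ![(i, i), (i, i), (i, i)] := by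
  have s1 := sum_range' (fun i : Fin 3 × Fin 3 × Fin 3 =>
    (![(i.1, i.2.1), (i.2.1, i.2.2), (i.2.2, i.1)] : Fin 3 → Q)) (by
      rintro ⟨i, j, k⟩ ⟨i', j', k'⟩ h
      have h0 := congrFun h 0
      have h1 := congrFun h 1
      simp at h0 h1
      simp [h0, h1])
    (fun m => (m 0).2 = (m 1).1 ∧ (m 1).2 = (m 2).1 ∧ (m 2).2 = (m 0).1) (by
      intro m
      constructor
      · rintro ⟨h1, h2, h3⟩
        refine ⟨((m 0).1, (m 0).2, (m 1).2), ?_⟩
        funext k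
        fin_cases k
        · rfl
        · exact Prod.ext h1 rfl
        · exact Prod.ext h2 h3.symm
      · rintro ⟨i, rfl⟩
        exact ⟨rfl, rfl, rfl⟩) F
  have s2 := sum_range' (fun i : Fin 3 × Fin 3 × Fin 3 =>
    (![(i.1, i.2.1), (i.2.2, i.1), (i.2.1, i.2.2)] : Fin 3 → Q)) (by
      rintro ⟨i, j, k⟩ ⟨i', j', k'⟩ h
      have h0 := congrFun h 0
      have h1 := congrFun h 1
      simp at h0 h1
      simp [h0, h1])
    (fun m => (m 0).2 = (m 2).1 ∧ (m 2).2 = (m 1).1 ∧ (m 1).2 = (m 0).1) (by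
      intro m
      constructor
      · rintro ⟨h1, h2, h3⟩
        refine ⟨((m 0).1, (m 0).2, (m 2).2), ?_⟩
        funext k
        fin_cases k
        · rfl
        · exact Prod.ext h2 h3.symm
        · exact Prod.ext h1 rfl
      · rintro ⟨i, rfl⟩
        exact ⟨rfl, rfl, rfl⟩) F
  have s3 := sum_range' (fun i : Fin 3 => (![(i, i), (i, i), (i, i)] : Fin 3 → Q)) (by
      intro i i' h
      have h0 := congrFun h 0
      simp at h0
      exact h0)
    (fun m => ((m 0).2 = (m 1).1 ∧ (m 1).2 = (m 2).1 ∧ (m 2).2 = (m 0).1) ∧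
      (m 0).2 = (m 2).1 ∧ (m 2).2 = (m 1).1 ∧ (m 1).2 = (m 0).1) (by
      intro m
      constructor
      · rintro ⟨⟨h1, h2, h3⟩, h4, h5, h6⟩
        refine ⟨(m 0).1, ?_⟩
        have e2 : (m 0).1 = (m 0).2 := by rw [← h3, h5, ← h1]
        have e3 : (m 1).1 = (m 0).1 := by rw [e2, h1]
        have e4 : (m 2).1 = (m 0).1 := by rw [e2, h4]
        funext k
        fin_cases k
        · exact Prod.ext rfl e2
        · exact Prod.ext e3.symm h6.symm
        · exact Prod.ext e4.symm h3.symm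
      · rintro ⟨i, rfl⟩
        exact ⟨⟨rfl, rfl, rfl⟩, rfl, rfl, rfl⟩) F
  rw [Fintype.sum_prod_type] at s1 s2
  simp only [Fintype.sum_prod_type] at s1 s2
  rw [← s1, ← s2, ← s3, Finset.mul_sum, ← Finset.sum_add_distrib, ← Finset.sum_sub_distrib]
  refine Finset.sum_congr rfl fun m _ => ?_
  unfold T
  by_cases h1 : (m 0).2 = (m 1).1 ∧ (m 1).2 = (m 2).1 ∧ (m 2).2 = (m 0).1 <;>
    by_cases h2 : (m 0).2 = (m 2).1 ∧ (m 2).2 = (m 1).1 ∧ (m 1).2 = (m 0).1
  · rw [if_pos h1, if_pos h2, if_pos ⟨h1, h2⟩]; ring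
  · rw [if_pos h1, if_neg h2, if_neg (fun h => h2 h.2)]; ring
  · rw [if_neg h1, if_pos h2, if_neg (fun h => h1 h.1)]; ring
  · rw [if_neg h1, if_neg h2, if_neg (fun h => h1 h.1)]; ring

/-- symmetrized values -/
def S6 (f : ℤ → ℤ → ℤ → ℤ) (a b c : ℤ) : ℤ :=
  f a b c + f b c a + f c a b + f b a c + f c b a + f a c b

theorem G_expand (f : ℤ → ℤ → ℤ → ℤ) (hf : ∀ a b c, f (-a) (-b) (-c) = f a b c)
    (h0 : f 0 0 0 = 0) (a b : ℤ) :
    ∑ i : Fin 3, ∑ j : Fin 3, ∑ k : Fin 3,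
      f ((![0, a, a + b] : Fin 3 → ℤ) j - (![0, a, a + b] : Fin 3 → ℤ) i)
        ((![0, a, a + b] : Fin 3 → ℤ) k - (![0, a, a + b] : Fin 3 → ℤ) j)
        ((![0, a, a + b] : Fin 3 → ℤ) i - (![0, a, a + b] : Fin 3 → ℤ) k) =
      S6 f a b (-(a + b)) + S6 f 0 a (-a) + S6 f 0 b (-b) + S6 f 0 (a + b) (-(a + b)) := by
  have k1 := hf (-(a + b)) b a
  have k2 := hf b a (-(a + b))
  have k3 := hf a (-(a + b)) b
  rw [neg_neg] at k1 k2 k3
  unfold S6
  simp only [Fin.sum_univ_three, Matrix.cons_val_zero, Matrix.cons_val_one, Matrix.cons_val,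
    sub_self, sub_zero, zero_sub, add_sub_cancel_left, sub_add_cancel_left, h0, neg_zero]
  linarith

section
variable {l : ℕ} {p : MvPolynomial (Fin 3) ℤ}

theorem plane_zero (hl : Even l) (hl0 : l ≠ 0)
    (hp : ∀ (t : ℤ) (v : Fin 3 → ℤ), eval (fun i => t * v i) p = t ^ l * eval v p)
    (hP : ∀ x : Fin 3 → ℤ, ∑ m : Fin 3 → Q, T (m 0) (m 1) (m 2) ^ 2 *
      eval (fun k => dl x (m k)) p = 0) (y z : ℤ) :
    eval ![y, z, -y - z] (sy p) = 0 := by
  set f : ℤ → ℤ → ℤ → ℤ := fun a b c => eval ![a, b, c] p with hf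
  have fm : ∀ t a b c, f (t * a) (t * b) (t * c) = t ^ l * f a b c := by
    intro t a b c
    have := hp t ![a, b, c]
    rw [hf]
    show eval ![t * a, t * b, t * c] p = t ^ l * eval ![a, b, c] p
    rw [← this]
    congr 1
    congr 1
    funext i
    fin_cases i <;> rfl
  have fneg : ∀ a b c, f (-a) (-b) (-c) = f a b c := by
    intro a b c
    have := fm (-1) a b c
    rw [hl.neg_one_pow, one_mul] at this
    simpa using this
  have f0 : f 0 0 0 = 0 := by
    have := fm 0 0 0 0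
    rw [zero_pow hl0, zero_mul] at this
    simpa using this
  have hG : ∀ x : Fin 3 → ℤ, ∑ i : Fin 3, ∑ j : Fin 3, ∑ k : Fin 3,
      f (x j - x i) (x k - x j) (x i - x k) = 0 := by
    intro x
    have h := hP x
    rw [sum_T_sq] at h
    have e1 : ∀ i j k : Fin 3, eval (fun m => dl x ((![(i, j), (j, k), (k, i)] : Fin 3 → Q) m)) p =
        f (x j - x i) (x k - x j) (x i - x k) := by
      intro i j k
      rw [hf]
      congr 1
      congr 1
      funext m
      fin_cases m <;> rfl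
    have e2 : ∀ i j k : Fin 3, eval (fun m => dl x ((![(i, j), (k, i), (j, k)] : Fin 3 → Q) m)) p =
        f (x i - x j) (x k - x i) (x j - x k) := by
      intro i j k
      rw [← fneg]
      rw [hf]
      congr 1
      congr 1
      funext m
      fin_cases m
      · show x j - x i = -(x i - x j)
        ring
      · show x i - x k = -(x k - x i)
        ring
      · show x k - x j = -(x j - x k)
        ring
    simp only [e1, e2, sub_self, f0] at h
    rw [Finset.sum_comm (f := fun i j => ∑ k : Fin 3, f (x i - x j) (x k - x i) (x j - x k))] at h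
    simp only [Finset.sum_const_zero, mul_zero, sub_zero] at h
    omega
  have hS1 : S6 f 0 1 (-1) = 0 := by
    have h1 := hG ![0, 0, 0 + 1]
    rw [G_expand f fneg f0] at h1
    unfold S6 at h1 ⊢
    norm_num [f0] at h1 ⊢
    linarith
  have hS2 : ∀ y, S6 f 0 y (-y) = 0 := by
    intro y
    have e : S6 f 0 y (-y) = y ^ l * S6 f 0 1 (-1) := by
      have a1 := fm y 0 1 (-1)
      have a2 := fm y 1 (-1) 0
      have a3 := fm y (-1) 0 1
      have a4 := fm y 1 0 (-1)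
      have a5 := fm y (-1) 1 0
      have a6 := fm y 0 (-1) 1
      simp only [mul_zero, mul_one, mul_neg] at a1 a2 a3 a4 a5 a6
      unfold S6
      rw [a1, a2, a3, a4, a5, a6]
      ring
    rw [e, hS1, mul_zero]
  have hS3 : S6 f y z (-(y + z)) = 0 := by
    have h1 := hG ![0, y, y + z]
    rw [G_expand f fneg f0, hS2, hS2, hS2] at h1
    simpa using h1
  have e0 : -y - z = -(y + z) := by ring
  rw [e0]
  have hev : ∀ (π : Equiv.Perm (Fin 3)) (v : Fin 3 → ℤ), eval v (rename π p) = eval (v ∘ π) p :=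
    fun π v => eval_rename _ _ _
  unfold sy
  simp only [map_add, hev]
  rw [← hS3]
  unfold S6
  have c : ∀ (v : Fin 3 → ℤ) (a b c : ℤ), v 0 = a → v 1 = b → v 2 = c → eval v p = f a b c := by
    intro v a b c h1 h2 h3
    rw [hf]
    congr 1
    congr 1
    funext m
    fin_cases m
    · exact h1
    · exact h2
    · exact h3
  have p1 : (Equiv.addRight (1 : Fin 3)) 0 = 1 ∧ (Equiv.addRight (1 : Fin 3)) 1 = 2 ∧
    (Equiv.addRight (1 : Fin 3)) 2 = 0 := by decide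
  have p2 : (Equiv.addRight (2 : Fin 3)) 0 = 2 ∧ (Equiv.addRight (2 : Fin 3)) 1 = 0 ∧
    (Equiv.addRight (2 : Fin 3)) 2 = 1 := by decide
  have p3 : (Equiv.swap (0 : Fin 3) 1) 0 = 1 ∧ (Equiv.swap (0 : Fin 3) 1) 1 = 0 ∧
    (Equiv.swap (0 : Fin 3) 1) 2 = 2 := by decide
  have p4 : (Equiv.swap (0 : Fin 3) 2) 0 = 2 ∧ (Equiv.swap (0 : Fin 3) 2) 1 = 1 ∧
    (Equiv.swap (0 : Fin 3) 2) 2 = 0 := by decide
  have p5 : (Equiv.swap (1 : Fin 3) 2) 0 = 0 ∧ (Equiv.swap (1 : Fin 3) 2) 1 = 2 ∧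
    (Equiv.swap (1 : Fin 3) 2) 2 = 1 := by decide
  rw [c (_ ∘ (1 : Equiv.Perm (Fin 3))) y z (-(y + z)) rfl rfl rfl,
    c (_ ∘ (Equiv.addRight (1 : Fin 3))) z (-(y + z)) y (by rw [Function.comp, p1.1]; rfl)
      (by rw [Function.comp, p1.2.1]; rfl) (by rw [Function.comp, p1.2.2]; rfl),
    c (_ ∘ (Equiv.addRight (2 : Fin 3))) (-(y + z)) y z (by rw [Function.comp, p2.1]; rfl)
      (by rw [Function.comp, p2.2.1]; rfl) (by rw [Function.comp, p2.2.2]; rfl),
    c (_ ∘ (Equiv.swap (0 : Fin 3) 1)) z y (-(y + z)) (by rw [Function.comp, p3.1]; rfl)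
      (by rw [Function.comp, p3.2.1]; rfl) (by rw [Function.comp, p3.2.2]; rfl),
    c (_ ∘ (Equiv.swap (0 : Fin 3) 2)) (-(y + z)) z y (by rw [Function.comp, p4.1]; rfl)
      (by rw [Function.comp, p4.2.1]; rfl) (by rw [Function.comp, p4.2.2]; rfl),
    c (_ ∘ (Equiv.swap (1 : Fin 3) 2)) y (-(y + z)) z (by rw [Function.comp, p5.1]; rfl)
      (by rw [Function.comp, p5.2.1]; rfl) (by rw [Function.comp, p5.2.2]; rfl)]

end

end Pool.Agent.Helper1.TL
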