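import Pool.Agent.Helper1.TL.Ins

namespace Pool.Agent.Helper1.TL

set_option maxHeartbeats 400000

open Finset
open Pool.Agent.Helper1.JD (A)

section
variable {V L : Type} [DecidableEq V] [DecidableEq L] {v w : V}

theorem kp_v2 (h : v ≠ w) : (kp v w : Equiv.Perm (HV V L)) (Sum.inl (v, 2)) = Sum.inl (w, 1) := by
  unfold kp
  rw [Equiv.Perm.mul_apply, Equiv.swap_apply_left, Equiv.swap_apply_of_ne_of_ne] <;>
    simp [h.symm]

theorem kp_w1 : (kp v w : Equiv.Perm (HV V L)) (Sum.inl (w, 1)) = Sum.inl (w, 2) := by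
  unfold kp
  rw [Equiv.Perm.mul_apply, Equiv.swap_apply_right, Equiv.swap_apply_left]

theorem kp_w2 (h : v ≠ w) : (kp v w : Equiv.Perm (HV V L)) (Sum.inl (w, 2)) = Sum.inl (v, 2) := by
  unfold kp
  rw [Equiv.Perm.mul_apply, Equiv.swap_apply_of_ne_of_ne (a := Sum.inl (v, 2))
    (b := Sum.inl (w, 1)), Equiv.swap_apply_right] <;> simp [h.symm]

theorem kp_ne {x : HV V L} (h1 : x ≠ Sum.inl (v, 2)) (h2 : x ≠ Sum.inl (w, 1))
    (h3 : x ≠ Sum.inl (w, 2)) : (kp v w : Equiv.Perm (HV V L)) x = x := by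
  unfold kp
  rw [Equiv.Perm.mul_apply, Equiv.swap_apply_of_ne_of_ne h1 h2,
    Equiv.swap_apply_of_ne_of_ne h1 h3]

end

section
variable {V L : Type}

open Classical in
/-- the move at the new vertex -/
noncomputable def kq (v : V) : Equiv.Perm (HV (Option V) (Option L)) := kp (some v) none

theorem kq_2 (v : V) : (kq v : Equiv.Perm (HV (Option V) (Option L))) (em (Sum.inl (v, 2))) =
    nw 1 := by
  classical
  exact kp_v2 (by simp)

theorem kq_n1 (v : V) : (kq v : Equiv.Perm (HV (Option V) (Option L))) (nw 1) = nw 2 := by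
  classical
  exact kp_w1

theorem kq_n2 (v : V) : (kq v : Equiv.Perm (HV (Option V) (Option L))) (nw 2) =
    em (Sum.inl (v, 2)) := by
  classical
  exact kp_w2 (by simp)

theorem kq_em (v : V) {x : HV V L} (hx : x ≠ Sum.inl (v, 2)) :
    (kq v : Equiv.Perm (HV (Option V) (Option L))) (em x) = em x := by
  classical
  exact kp_ne (fun e => hx (em_injective e)) (em_ne_nw _ _) (em_ne_nw _ _)

theorem kq_n0 (v : V) : (kq v : Equiv.Perm (HV (Option V) (Option L))) (nw 0) = nw 0 := by
  classical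
  exact kp_ne (by simp [nw]) (by simp [nw]) (by simp [nw])

theorem kq_nl (v : V) : (kq v : Equiv.Perm (HV (Option V) (Option L))) nl = nl := by
  classical
  exact kp_ne (by simp [nl]) (by simp [nl]) (by simp [nl])

/-- rotation of the slots -/
def rho3 : Equiv.Perm (Fin 3) := Equiv.addRight 2

theorem rho3_0 : rho3 0 = 2 := by decide
theorem rho3_1 : rho3 1 = 0 := by decide
theorem rho3_2 : rho3 2 = 1 := by decide
theorem sign_rho3 : Equiv.Perm.sign rho3 = 1 := by decide

/-- rotation at the new vertex -/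
def ra (V L : Type) : HV (Option V) (Option L) ≃ HV (Option V) (Option L) :=
  au (Equiv.refl _) (Equiv.refl _) (er (fun _ => 1) rho3)

theorem ra_em (x : HV V L) : ra V L (em x) = em x := by
  rcases x with ⟨i, k⟩ | j <;> rfl

theorem ra_nw (k : Fin 3) : ra V L (nw k) = nw (rho3 k) := rfl

theorem ra_nl : ra V L nl = nl := rfl

open Classical in
/-- the first isomorphism -/
noncomputable def is1 (v : V) : HV (Option V) (Option L) ≃ HV (Option V) (Option L) :=
  au (Equiv.swap (some v) none) (Equiv.refl _)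
    (fun i => if i = some v ∨ i = none then rho3 else 1)

theorem is1_v (v : V) (k : Fin 3) : (is1 v : HV (Option V) (Option L) ≃ _)
    (em (Sum.inl (v, k))) = nw (rho3 k) := by
  classical
  show Sum.inl (Equiv.swap (some v) none (some v),
    (if some v = some v ∨ some v = none then rho3 else 1) k) = _
  rw [Equiv.swap_apply_left, if_pos (Or.inl rfl)]
  rfl

theorem is1_n (v : V) (k : Fin 3) : (is1 v : HV (Option V) (Option L) ≃ _)
    (nw k) = em (Sum.inl (v, rho3 k)) := by
  classical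
  show Sum.inl (Equiv.swap (some v) none none,
    (if none = some v ∨ (none : Option V) = none then rho3 else 1) k) = _
  rw [Equiv.swap_apply_right, if_pos (Or.inr rfl)]
  rfl

theorem is1_ne {v i : V} (h : i ≠ v) (k : Fin 3) : (is1 v : HV (Option V) (Option L) ≃ _)
    (em (Sum.inl (i, k))) = em (Sum.inl (i, k)) := by
  classical
  show Sum.inl (Equiv.swap (some v) none (some i),
    (if some i = some v ∨ some i = none then rho3 else 1) k) = _
  rw [Equiv.swap_apply_of_ne_of_ne (by simpa using h) (by simp), if_neg (by simp [h])]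
  rfl

theorem is1_r (v : V) (j : L) : (is1 v : HV (Option V) (Option L) ≃ _)
    (em (Sum.inr j)) = em (Sum.inr j) := rfl

theorem is1_nl (v : V) : (is1 v : HV (Option V) (Option L) ≃ _) nl = nl := rfl

open Classical in
/-- the second isomorphism -/
noncomputable def is2 (v : V) : HV (Option V) (Option L) ≃ HV (Option V) (Option L) :=
  au (Equiv.refl _) (Equiv.refl _)
    (er (fun i => if i = v then Equiv.swap 0 2 else 1) (Equiv.swap 0 1))

theorem is2_v (v : V) (k : Fin 3) : (is2 v : HV (Option V) (Option L) ≃ _)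
    (em (Sum.inl (v, k))) = em (Sum.inl (v, Equiv.swap 0 2 k)) := by
  classical
  show Sum.inl (some v, (if v = v then Equiv.swap (0 : Fin 3) 2 else 1) k) = _
  rw [if_pos rfl]
  rfl

theorem is2_n (v : V) (k : Fin 3) : (is2 v : HV (Option V) (Option L) ≃ _)
    (nw k) = nw (Equiv.swap 0 1 k) := rfl

theorem is2_ne {v i : V} (h : i ≠ v) (k : Fin 3) : (is2 v : HV (Option V) (Option L) ≃ _)
    (em (Sum.inl (i, k))) = em (Sum.inl (i, k)) := by
  classical
  show Sum.inl (some i, (if i = v then Equiv.swap (0 : Fin 3) 2 else 1) k) = _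
  rw [if_neg h]
  rfl

theorem is2_r (v : V) (j : L) : (is2 v : HV (Option V) (Option L) ≃ _)
    (em (Sum.inr j)) = em (Sum.inr j) := rfl

theorem is2_nl (v : V) : (is2 v : HV (Option V) (Option L) ≃ _) nl = nl := rfl

theorem hv_cases' (v : V) {P : HV (Option V) (Option L) → Prop}
    (h0 : ∀ k, P (em (Sum.inl (v, k)))) (h1 : ∀ i k, i ≠ v → P (em (Sum.inl (i, k))))
    (h1' : ∀ j, P (em (Sum.inr j))) (h2 : ∀ k, P (nw k)) (h5 : P nl) (x) : P x := by
  induction x using hv_cases with
  | h1 x =>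
    rcases x with ⟨i, k⟩ | j
    · by_cases h : i = v
      · subst h; exact h0 k
      · exact h1 i k h
    · exact h1' j
  | h2 => exact h2 0
  | h3 => exact h2 1
  | h4 => exact h2 2
  | h5 => exact h5

open Classical in
/-- exchange of the slots 1, 2 of the new vertex -/
noncomputable def yz (V L : Type) : Equiv.Perm (HV (Option V) (Option L)) :=
  Equiv.swap (nw 1) (nw 2)

theorem yz_em (x : HV V L) : yz V L (em x) = em x := by
  classical
  exact Equiv.swap_apply_of_ne_of_ne (em_ne_nw _ _) (em_ne_nw _ _)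

theorem yz_0 : yz V L (nw 0) = nw 0 := by
  classical
  exact Equiv.swap_apply_of_ne_of_ne (by rw [Ne, nw_inj]; decide) (by rw [Ne, nw_inj]; decide)

theorem yz_1 : yz V L (nw 1) = nw 2 := by
  classical
  exact Equiv.swap_apply_left _ _

theorem yz_2 : yz V L (nw 2) = nw 1 := by
  classical
  exact Equiv.swap_apply_right _ _

theorem yz_nl : yz V L nl = nl := by
  classical
  exact Equiv.swap_apply_of_ne_of_ne (nw_ne_nl _).symm (nw_ne_nl _).symm

theorem yz_pl (ι : Equiv.Perm (HV V L)) : cj (yz V L) (pl ι) = pl ι := by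
  apply cj_eq_of
  intro x
  induction x using hv_cases with
  | h1 x => rw [yz_em, pl_em, yz_em]
  | h2 => rw [yz_0, pl_0, yz_nl]
  | h3 => rw [yz_1, pl_1, pl_2, yz_2]
  | h4 => rw [yz_2, pl_1, pl_2, yz_1]
  | h5 => rw [yz_nl, pl_l, yz_0]

theorem c1 (ι : Equiv.Perm (HV V L)) (v : V) :
    cj (kq v) (cj (ra V L) (ins ι (Sum.inl (v, 0)))) = cj (is1 v) (ins ι (Sum.inl (v, 1))) := by
  have key : (kq v * (ra V L * sw (Sum.inl (v, 0))) : Equiv.Perm (HV (Option V) (Option L))) =
      is1 v * (sw (Sum.inl (v, 1)) * yz V L) := by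
    ext x : 1
    show kq v (ra V L (sw (Sum.inl (v, 0)) x)) = is1 v (sw (Sum.inl (v, 1)) (yz V L x))
    induction x using hv_cases' v with
    | h0 k =>
      fin_cases k
      · show kq v (ra V L (sw (Sum.inl (v, 0)) (em (Sum.inl (v, 0))))) =
          is1 v (sw (Sum.inl (v, 1)) (yz V L (em (Sum.inl (v, 0)))))
        rw [sw_h, ra_nw, rho3_2, kq_n1, yz_em, sw_em (by simp), is1_v, rho3_0]
      · show kq v (ra V L (sw (Sum.inl (v, 0)) (em (Sum.inl (v, 1))))) =
          is1 v (sw (Sum.inl (v, 1)) (yz V L (em (Sum.inl (v, 1)))))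
        rw [sw_em (by simp), ra_em, kq_em _ (by simp), yz_em, sw_h, is1_n, rho3_2]
      · show kq v (ra V L (sw (Sum.inl (v, 0)) (em (Sum.inl (v, 2))))) =
          is1 v (sw (Sum.inl (v, 1)) (yz V L (em (Sum.inl (v, 2)))))
        rw [sw_em (by simp), ra_em, kq_2, yz_em, sw_em (by simp), is1_v, rho3_2]
    | h1 i k hi =>
      rw [sw_em (by simp [hi]), ra_em, kq_em _ (by simp [hi]), yz_em, sw_em (by simp [hi]),
        is1_ne hi]
    | h1' j =>
      rw [sw_em (by simp), ra_em, kq_em _ (by simp), yz_em, sw_em (by simp), is1_r]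
    | h2 k =>
      fin_cases k
      · show kq v (ra V L (sw (Sum.inl (v, 0)) (nw 0))) =
          is1 v (sw (Sum.inl (v, 1)) (yz V L (nw 0)))
        rw [sw_0, ra_nw, rho3_0, kq_n2, yz_0, sw_0, is1_n, rho3_0]
      · show kq v (ra V L (sw (Sum.inl (v, 0)) (nw 1))) =
          is1 v (sw (Sum.inl (v, 1)) (yz V L (nw 1)))
        rw [sw_1, ra_nw, rho3_1, kq_n0, yz_1, sw_2, is1_v, rho3_1]
      · show kq v (ra V L (sw (Sum.inl (v, 0)) (nw 2))) =
          is1 v (sw (Sum.inl (v, 1)) (yz V L (nw 2)))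
        rw [sw_2, ra_em, kq_em _ (by simp), yz_2, sw_1, is1_n, rho3_1]
    | h5 => rw [sw_l, ra_nl, kq_nl, yz_nl, sw_l, is1_nl]
  have e := congrArg (fun g => cj g (pl ι)) key
  simp only [cj_mul, yz_pl] at e
  exact e

theorem c2 (ι : Equiv.Perm (HV V L)) (v : V) :
    cj (kq v) (cj (kq v) (cj (ra V L) (ins ι (Sum.inl (v, 0))))) =
      cj (is2 v) (ins ι (Sum.inl (v, 2))) := by
  have key : (kq v * (kq v * (ra V L * sw (Sum.inl (v, 0)))) :
      Equiv.Perm (HV (Option V) (Option L))) = is2 v * sw (Sum.inl (v, 2)) := by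
    ext x : 1
    show kq v (kq v (ra V L (sw (Sum.inl (v, 0)) x))) = is2 v (sw (Sum.inl (v, 2)) x)
    have s0 : Equiv.swap (0 : Fin 3) 2 0 = 2 := by decide
    have s1 : Equiv.swap (0 : Fin 3) 2 1 = 1 := by decide
    have s2 : Equiv.swap (0 : Fin 3) 2 2 = 0 := by decide
    have t0 : Equiv.swap (0 : Fin 3) 1 0 = 1 := by decide
    have t1 : Equiv.swap (0 : Fin 3) 1 1 = 0 := by decide
    have t2 : Equiv.swap (0 : Fin 3) 1 2 = 2 := by decide
    induction x using hv_cases' v with
    | h0 k =>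
      fin_cases k
      · show kq v (kq v (ra V L (sw (Sum.inl (v, 0)) (em (Sum.inl (v, 0)))))) =
          is2 v (sw (Sum.inl (v, 2)) (em (Sum.inl (v, 0))))
        rw [sw_h, ra_nw, rho3_2, kq_n1, kq_n2, sw_em (by simp), is2_v, s0]
      · show kq v (kq v (ra V L (sw (Sum.inl (v, 0)) (em (Sum.inl (v, 1)))))) =
          is2 v (sw (Sum.inl (v, 2)) (em (Sum.inl (v, 1))))
        rw [sw_em (by simp), ra_em, kq_em _ (by simp), kq_em _ (by simp), sw_em (by simp), is2_v,
          s1]
      · show kq v (kq v (ra V L (sw (Sum.inl (v, 0)) (em (Sum.inl (v, 2)))))) =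
          is2 v (sw (Sum.inl (v, 2)) (em (Sum.inl (v, 2))))
        rw [sw_em (by simp), ra_em, kq_2, kq_n1, sw_h, is2_n, t2]
    | h1 i k hi =>
      rw [sw_em (by simp [hi]), ra_em, kq_em _ (by simp [hi]), kq_em _ (by simp [hi]),
        sw_em (by simp [hi]), is2_ne hi]
    | h1' j =>
      rw [sw_em (by simp), ra_em, kq_em _ (by simp), kq_em _ (by simp), sw_em (by simp), is2_r]
    | h2 k =>
      fin_cases k
      · show kq v (kq v (ra V L (sw (Sum.inl (v, 0)) (nw 0)))) = is2 v (sw (Sum.inl (v, 2)) (nw 0))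
        rw [sw_0, ra_nw, rho3_0, kq_n2, kq_2, sw_0, is2_n, t0]
      · show kq v (kq v (ra V L (sw (Sum.inl (v, 0)) (nw 1)))) = is2 v (sw (Sum.inl (v, 2)) (nw 1))
        rw [sw_1, ra_nw, rho3_1, kq_n0, kq_n0, sw_1, is2_n, t1]
      · show kq v (kq v (ra V L (sw (Sum.inl (v, 0)) (nw 2)))) = is2 v (sw (Sum.inl (v, 2)) (nw 2))
        rw [sw_2, ra_em, kq_em _ (by simp), kq_em _ (by simp), sw_2, is2_v, s2]
    | h5 => rw [sw_l, ra_nl, kq_nl, kq_nl, sw_l, is2_nl]
  have e := congrArg (fun g => cj g (pl ι)) key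
  simp only [cj_mul] at e
  exact e

/-- a leg on the three edges of a vertex -/
theorem r3 {d : ℕ} {H : AddSubgroup A} [Finite V] [Finite L] (hs : Sz d H (Option V) (Option L))
    {ι : Equiv.Perm (HV V L)} (hι : Val ι) (v : V) :
    q H (ins ι (Sum.inl (v, 0))) + q H (ins ι (Sum.inl (v, 1))) +
      q H (ins ι (Sum.inl (v, 2))) = 0 := by
  classical
  haveI : Fintype V := Fintype.ofFinite V
  have v0 := val_ins hι (Sum.inl (v, 0))
  have v1 := val_ins hι (Sum.inl (v, 1))
  have v2 := val_ins hι (Sum.inl (v, 2))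
  have v0' : Val (cj (ra V L) (ins ι (Sum.inl (v, 0)))) := v0.au _ _ _
  have he : cj (ra V L) (ins ι (Sum.inl (v, 0))) (Sum.inl (some v, 0)) = Sum.inl (none, 0) := by
    have := cj_apply (ra V L) (ins ι (Sum.inl (v, 0))) (em (Sum.inl (v, 0)))
    rw [ra_em, ins_h, ra_nw, rho3_1] at this
    exact this
  obtain ⟨_, _, h3⟩ := q_ihx hs v0' (by simp) he
  have e0 : q H (cj (ra V L) (ins ι (Sum.inl (v, 0)))) = q H (ins ι (Sum.inl (v, 0))) := by
    unfold ra
    rw [q_au hs v0, prod_er, sign_rho3]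
    simp
  have e1 : q H (cj (kp (some v) none) (cj (ra V L) (ins ι (Sum.inl (v, 0))))) =
      q H (ins ι (Sum.inl (v, 1))) := by
    have := c1 ι v
    unfold kq at this
    rw [this]
    unfold is1
    rw [q_au hs v1]
    have : ∀ i : Option V, Equiv.Perm.sign (if i = some v ∨ i = none then rho3 else 1) = 1 := by
      intro i
      split_ifs
      · exact sign_rho3
      · exact map_one _
    rw [Finset.prod_congr rfl fun i _ => this i]
    simp
  have e2 : q H (cj (kp (some v) none) (cj (kp (some v) none)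
      (cj (ra V L) (ins ι (Sum.inl (v, 0)))))) = q H (ins ι (Sum.inl (v, 2))) := by
    have := c2 ι v
    unfold kq at this
    rw [this]
    unfold is2
    rw [q_au hs v2, prod_er]
    have e3 : ∏ i : V, Equiv.Perm.sign (if i = v then Equiv.swap (0 : Fin 3) 2 else 1) = -1 := by
      rw [Finset.prod_eq_single v]
      · rw [if_pos rfl, Equiv.Perm.sign_swap (by decide)]
      · intro i _ hi
        rw [if_neg hi, map_one]
      · intro h
        exact absurd (mem_univ v) h
    rw [e3, Equiv.Perm.sign_swap (by decide)]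
    simp
  rw [e0, e1, e2] at h3
  exact h3

end

end Pool.Agent.Helper1.TL
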