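import Pool.Agent.Helper1.JD.Stu

namespace Pool.Agent.Helper1.TL

open Finset

/-- colours: elementary matrices -/
abbrev Q : Type := Fin 3 × Fin 3

/-- `tr (a [b, c])` -/
def T (a b c : Q) : ℤ :=
  (if a.2 = b.1 ∧ b.2 = c.1 ∧ c.2 = a.1 then 1 else 0) -
    (if a.2 = c.1 ∧ c.2 = b.1 ∧ b.2 = a.1 then 1 else 0)

theorem T_swap12 (a b c : Q) : T a c b = - T a b c := by
  unfold T; ring

theorem T_cyc (a b c : Q) : T b c a = T a b c := by
  have h1 : (b.2 = c.1 ∧ c.2 = a.1 ∧ a.2 = b.1) ↔ (a.2 = b.1 ∧ b.2 = c.1 ∧ c.2 = a.1) := by tauto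
  have h2 : (b.2 = a.1 ∧ a.2 = c.1 ∧ c.2 = b.1) ↔ (a.2 = c.1 ∧ c.2 = b.1 ∧ b.2 = a.1) := by tauto
  unfold T
  simp only [h1, h2]

theorem T_swap01 (a b c : Q) : T b a c = - T a b c := by
  rw [T_cyc c b a, T_swap12, T_cyc c a b |>.symm]

theorem T_swap02 (a b c : Q) : T c b a = - T a b c := by
  rw [← T_cyc c b a, T_swap01, T_cyc]

/-- contraction with the structure constants -/
theorem sum_T {R : Type*} [AddCommGroup R] (z a : Q) (f : Q → R) :
    ∑ k : Q, T k.swap z a • f k =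
      (if z.2 = a.1 then f (z.1, a.2) else 0) - (if a.2 = z.1 then f (a.1, z.2) else 0) := by
  unfold T
  simp only [sub_smul, Finset.sum_sub_distrib]
  congr 1
  · by_cases h : z.2 = a.1
    · rw [if_pos h, Finset.sum_eq_single (z.1, a.2)]
      · simp [h]
      · intro k _ hk
        rw [if_neg, zero_smul]
        rintro ⟨h1, h2, h3⟩
        exact hk (Prod.ext h1 h3.symm)
      · simp
    · rw [if_neg h]
      refine Finset.sum_eq_zero fun k _ => ?_
      rw [if_neg (by tauto), zero_smul]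
  · by_cases h : a.2 = z.1
    · rw [if_pos h, Finset.sum_eq_single (a.1, z.2)]
      · simp [h]
      · intro k _ hk
        rw [if_neg, zero_smul]
        rintro ⟨h1, h2, h3⟩
        exact hk (Prod.ext h1 h3.symm)
      · simp
    · rw [if_neg h]
      refine Finset.sum_eq_zero fun k _ => ?_
      rw [if_neg (by tauto), zero_smul]

/-- indicator of a closed word -/
def cw (z p q r : Q) : ℤ := if z.2 = p.1 ∧ p.2 = q.1 ∧ q.2 = r.1 ∧ r.2 = z.1 then 1 else 0

theorem T_cw (z p b c : Q) :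
    (if z.2 = p.1 then T (z.1, p.2) b c else 0) = cw z p b c - cw z p c b := by
  unfold T cw
  by_cases h : z.2 = p.1
  · simp [h]
  · simp [h]

theorem cw_rot (a z b c : Q) : cw a z b c = cw z b c a := by
  have h : (a.2 = z.1 ∧ z.2 = b.1 ∧ b.2 = c.1 ∧ c.2 = a.1) ↔
    (z.2 = b.1 ∧ b.2 = c.1 ∧ c.2 = a.1 ∧ a.2 = z.1) := by tauto
  unfold cw
  simp only [h]

theorem jacobi (z a b c : Q) : ∑ k : Q, (T k.swap z a * T k b c + T k.swap z b * T k c a +
    T k.swap z c * T k a b) = 0 := by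
  rw [Finset.sum_add_distrib, Finset.sum_add_distrib]
  have h := fun a b c => sum_T z a (fun k => T k b c)
  simp only [smul_eq_mul] at h
  rw [h, h, h]
  simp only [T_cw]
  rw [cw_rot a z b c, cw_rot a z c b, cw_rot b z c a, cw_rot b z a c, cw_rot c z a b,
    cw_rot c z b a]
  ring

theorem sum_T_tr (b : Q) : ∑ z : Q, T z.swap z b = 0 := by
  revert b; decide

end Pool.Agent.Helper1.TL
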