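import Pool.Agent.Helper1.TL.R3

namespace Pool.Agent.Helper1.TL

set_option maxHeartbeats 400000

open Finset
open Pool.Agent.Helper1.JD (A Kl)

/-- diagrams with marked half-edges -/
structure Dg where
  V : Type
  L : Type
  fV : Fintype V
  fL : Fintype L
  ι : Equiv.Perm (HV V L)
  p : Fin 3 → HV V L
  o : Fin 3 → HV V L

attribute [instance] Dg.fV Dg.fL

/-- insertion -/
noncomputable def Dg.ins (D : Dg) (h : HV D.V D.L) : Dg :=
  ⟨Option D.V, Option D.L, inferInstance, inferInstance, TL.ins D.ι h, fun k => em (D.p k),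
    fun k => em (D.o k)⟩

/-- insertion at a mark -/
noncomputable def Dg.add (D : Dg) (k : Fin 3) : Dg := D.ins (D.p k)

/-- exchange of the marks -/
def Dg.sw (D : Dg) : Dg := ⟨D.V, D.L, D.fV, D.fL, D.ι, D.o, D.p⟩

/-- isomorphisms -/
def Tr (π : Equiv.Perm (Fin 3)) (ε : ℤˣ) (D D' : Dg) : Prop :=
  ∃ (s : D.V ≃ D'.V) (s' : D.L ≃ D'.L) (r : D.V → Equiv.Perm (Fin 3)),
    D'.ι = cj (au s s' r) D.ι ∧ (∀ k, au s s' r (D.p k) = D'.p (π k)) ∧
      (∀ k, au s s' r (D.o k) = D'.o (π k)) ∧ ∏ i, Equiv.Perm.sign (r i) = ε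

theorem Tr.refl (D : Dg) : Tr 1 1 D D := by
  refine ⟨Equiv.refl _, Equiv.refl _, fun _ => 1, ?_, ?_, ?_, ?_⟩
  · rw [au_one, cj_refl]
  · intro k; rw [au_one]; rfl
  · intro k; rw [au_one]; rfl
  · simp

theorem Tr.trans {π π' : Equiv.Perm (Fin 3)} {ε ε' : ℤˣ} {D D' D'' : Dg} (h : Tr π ε D D')
    (h' : Tr π' ε' D' D'') : Tr (π' * π) (ε' * ε) D D'' := by
  obtain ⟨s, s', r, h1, h2, h3, h4⟩ := h
  obtain ⟨u, u', v, k1, k2, k3, k4⟩ := h'
  refine ⟨s.trans u, s'.trans u', fun i => v (s i) * r i, ?_, ?_, ?_, ?_⟩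
  · rw [← au_trans, cj_trans, ← h1, k1]
  · intro k
    rw [← au_trans, Equiv.trans_apply, h2, k2]; rfl
  · intro k
    rw [← au_trans, Equiv.trans_apply, h3, k3]; rfl
  · simp only [map_mul]
    rw [Finset.prod_mul_distrib, h4, ← k4]
    congr 1
    exact Fintype.prod_equiv s _ _ fun i => rfl

theorem Tr.symm {π : Equiv.Perm (Fin 3)} {ε : ℤˣ} {D D' : Dg} (h : Tr π ε D D') :
    Tr π⁻¹ ε D' D := by
  obtain ⟨s, s', r, h1, h2, h3, h4⟩ := h
  have e : au s.symm s'.symm (fun i => (r (s.symm i))⁻¹) = (au s s' r).symm := by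
    ext x : 1
    rcases x with ⟨i, k⟩ | j <;> rfl
  refine ⟨s.symm, s'.symm, fun i => (r (s.symm i))⁻¹, ?_, ?_, ?_, ?_⟩
  · rw [e, h1, cj_symm]
  · intro k
    rw [e, Equiv.symm_apply_eq, h2]
    simp
  · intro k
    rw [e, Equiv.symm_apply_eq, h3]
    simp
  · rw [← h4]
    refine Fintype.prod_equiv s.symm _ _ fun i => ?_
    rw [Equiv.Perm.sign_inv]

theorem Tr.sw {π : Equiv.Perm (Fin 3)} {ε : ℤˣ} {D D' : Dg} (h : Tr π ε D D') :
    Tr π ε D.sw D'.sw := by
  obtain ⟨s, s', r, h1, h2, h3, h4⟩ := h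
  exact ⟨s, s', r, h1, h3, h2, h4⟩

theorem Tr.add {π : Equiv.Perm (Fin 3)} {ε : ℤˣ} {D D' : Dg} (h : Tr π ε D D') (k : Fin 3) :
    Tr π ε (D.add k) (D'.add (π k)) := by
  obtain ⟨s, s', r, h1, h2, h3, h4⟩ := h
  refine ⟨Equiv.optionCongr s, Equiv.optionCongr s', er r 1, ?_, ?_, ?_, ?_⟩
  · show TL.ins D'.ι (D'.p (π k)) =
      cj (au (Equiv.optionCongr s) (Equiv.optionCongr s') (er r 1)) (TL.ins D.ι (D.p k))
    rw [← ex_au, ← ins_cj, ← h1, h2]
  · intro m
    show au (Equiv.optionCongr s) (Equiv.optionCongr s') (er r 1) (em (D.p m)) = em (D'.p (π m))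
    rw [← ex_au, ex_em, h2]
  · intro m
    show au (Equiv.optionCongr s) (Equiv.optionCongr s') (er r 1) (em (D.o m)) = em (D'.o (π m))
    rw [← ex_au, ex_em, h3]
  · show ∏ i : Option D.V, Equiv.Perm.sign (er r 1 i) = ε
    rw [prod_er, h4, map_one, one_mul]

/-- exchange of two insertions -/
theorem Tr.comm (D : Dg) {x y : HV D.V D.L} (h : x ≠ y) :
    Tr 1 1 ((D.ins x).ins (em y)) ((D.ins y).ins (em x)) := by
  refine ⟨ox D.V, ox D.L, fun _ => 1, TL.comm h, ?_, ?_, ?_⟩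
  · intro k
    exact xx_em _
  · intro k
    exact xx_em _
  · simp

theorem Tr.add_comm (D : Dg) (k k' : Fin 3) : Tr 1 1 ((D.add k).add k') ((D.add k').add k) := by
  by_cases h : D.p k = D.p k'
  · have e : (D.add k).add k' = (D.add k').add k := by
      show (D.ins (D.p k)).ins (em (D.p k')) = (D.ins (D.p k')).ins (em (D.p k))
      rw [h]
    rw [e]
    exact Tr.refl _
  · exact Tr.comm D h

/-- words -/
noncomputable def Dg.adds (D : Dg) : List (Fin 3) → Dg
  | [] => D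
  | k :: w => (D.adds w).add k

theorem Tr.adds {π : Equiv.Perm (Fin 3)} {ε : ℤˣ} {D D' : Dg} (h : Tr π ε D D')
    (w : List (Fin 3)) : Tr π ε (D.adds w) (D'.adds (w.map π)) := by
  induction w with
  | nil => exact h
  | cons k w ih => exact ih.add k

theorem adds_perm (D : Dg) {w w' : List (Fin 3)} (h : w.Perm w') :
    Tr 1 1 (D.adds w) (D.adds w') := by
  induction h with
  | nil => exact Tr.refl _
  | cons k _ ih => exact ih.add k
  | swap k k' w => exact Tr.add_comm _ k k'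
  | trans _ _ ih ih' => simpa using ih.trans ih'

/-- the position of a half-edge -/
def Lab (D : Dg) (x : HV D.V D.L) (k : Fin 3) (ε : ℤˣ) : Prop :=
  Tr 1 ε (D.ins x) (D.add k)

theorem Lab.self (D : Dg) (k : Fin 3) : Lab D (D.p k) k 1 := Tr.refl _

theorem Tr.flip {D : Dg} (hD : Val D.ι) (x : HV D.V D.L) : Tr 1 (-1) (D.ins x) (D.ins (D.ι x)) := by
  refine ⟨Equiv.refl _, Equiv.refl _, er (fun _ => 1) (Equiv.swap 1 2), TL.flip hD x, ?_, ?_, ?_⟩
  · intro k
    show au (Equiv.refl _) (Equiv.refl _) (er (fun _ => 1) (Equiv.swap 1 2)) (em (D.p k)) =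
      em (D.p k)
    rcases D.p k with ⟨i, m⟩ | j <;> rfl
  · intro k
    show au (Equiv.refl _) (Equiv.refl _) (er (fun _ => 1) (Equiv.swap 1 2)) (em (D.o k)) =
      em (D.o k)
    rcases D.o k with ⟨i, m⟩ | j <;> rfl
  · show ∏ i : Option D.V, Equiv.Perm.sign (er (fun _ => 1) (Equiv.swap 1 2) i) = -1
    rw [prod_er, Equiv.Perm.sign_swap (by decide)]
    simp

theorem Lab.flip {D : Dg} (hD : Val D.ι) (k : Fin 3) : Lab D (D.ι (D.p k)) k (-1) := by
  have := (Tr.flip hD (D.p k)).symm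
  rw [inv_one] at this
  exact this

theorem Lab.step {D : Dg} {x : HV D.V D.L} {k : Fin 3} {ε : ℤˣ} (h : Lab D x k ε) (k' : Fin 3) :
    Lab (D.add k') (em x) k ε := by
  have h1 : Tr 1 1 ((D.add k').ins (em x)) ((D.ins x).add k') := by
    by_cases e : D.p k' = x
    · have : (D.add k').ins (em x) = (D.ins x).add k' := by
        show (D.ins (D.p k')).ins (em x) = (D.ins x).ins (em (D.p k'))
        rw [e]
      rw [this]
      exact Tr.refl _
    · exact Tr.comm D e
  have h2 : Tr 1 ε ((D.ins x).add k') ((D.add k).add k') := Tr.add h k'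
  have h3 := (h1.trans h2).trans (Tr.add_comm D k k')
  rw [one_mul, one_mul, mul_one, one_mul] at h3
  exact h3

theorem Lab.new2 {D : Dg} (hD : Val D.ι) (k : Fin 3) : Lab (D.add k) (nw 2) k 1 := by
  have h1 : Tr 1 1 ((D.add k).add k) ((D.add k).ins (nw 2)) := by
    refine ⟨ox D.V, ox D.L, fun _ => 1, behind hD (D.p k), ?_, ?_, ?_⟩
    · intro m
      exact xx_em _
    · intro m
      exact xx_em _
    · simp
  have h2 := h1.symm
  rw [inv_one] at h2
  exact h2

theorem Dg.val_ins {D : Dg} (hD : Val D.ι) (h : HV D.V D.L) : Val (D.ins h).ι := TL.val_ins hD h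

theorem Dg.val_adds {D : Dg} (hD : Val D.ι) (w : List (Fin 3)) : Val (D.adds w).ι := by
  induction w with
  | nil => exact hD
  | cons k w ih => exact Dg.val_ins ih _

theorem Lab.new1 {D : Dg} (hD : Val D.ι) (k : Fin 3) : Lab (D.add k) (nw 1) k (-1) := by
  have := Lab.flip (D := D.add k) (Dg.val_ins hD _) k
  have e : (D.add k).ι ((D.add k).p k) = nw 1 := ins_h
  rwa [e] at this

/-- not a leg -/
def NL {V L : Type} (x : HV V L) : Prop := ∃ i k, x = Sum.inl (i, k)

theorem NL.of_em {V L : Type} {x : HV V L} (h : NL (em x)) : NL x := by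
  rcases x with ⟨i, k⟩ | j
  · exact ⟨i, k, rfl⟩
  · obtain ⟨i, k, e⟩ := h
    cases e

theorem NL.em {V L : Type} {x : HV V L} (h : NL x) : NL (TL.em x) := by
  obtain ⟨i, k, rfl⟩ := h
  exact ⟨some i, k, rfl⟩

/-- every edge of the core is marked -/
def Any (D : Dg) : Prop := ∀ h, NL h → NL (D.ι h) → ∃ k ε, Lab D h k ε

theorem Any.add {D : Dg} (hD : Val D.ι) (h : Any D) (k : Fin 3) : Any (D.add k) := by
  intro x h1 h2
  change HV (Option D.V) (Option D.L) at x
  change NL (TL.ins D.ι (D.p k) x) at h2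
  induction x using hv_cases with
  | h1 x =>
    by_cases e1 : x = D.p k
    · subst e1
      exact ⟨k, 1, Lab.self (D.add k) k⟩
    · by_cases e2 : x = D.ι (D.p k)
      · subst e2
        exact ⟨k, -1, (Lab.flip hD k).step k⟩
      · rw [ins_em hD.invol e1 e2] at h2
        obtain ⟨k', ε, h3⟩ := h x h1.of_em h2.of_em
        exact ⟨k', ε, h3.step k⟩
  | h2 =>
    rw [ins_0] at h2
    obtain ⟨i, m, e⟩ := h2
    cases e
  | h3 => exact ⟨k, -1, Lab.new1 hD k⟩
  | h4 => exact ⟨k, 1, Lab.new2 hD k⟩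
  | h5 =>
    obtain ⟨i, m, e⟩ := h1
    cases e

theorem Any.adds {D : Dg} (hD : Val D.ι) (h : Any D) (w : List (Fin 3)) : Any (D.adds w) := by
  induction w with
  | nil => exact h
  | cons k w ih => exact Any.add (Dg.val_adds hD w) ih k

theorem Any.base {D : Dg} (hD : Val D.ι) (h : ∀ x, ∃ k, x = D.p k ∨ x = D.ι (D.p k)) : Any D := by
  intro x _ _
  obtain ⟨k, rfl | rfl⟩ := h x
  · exact ⟨k, 1, Lab.self D k⟩
  · exact ⟨k, -1, Lab.flip hD k⟩

theorem lab_o {D : Dg} (hD : Val D.ι) (h : ∀ k, D.o k = D.ι (D.p k)) (w : List (Fin 3))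
    (k : Fin 3) : Lab (D.adds w) ((D.adds w).o k) k (-1) := by
  induction w with
  | nil =>
    show Lab D (D.o k) k (-1)
    rw [h]
    exact Lab.flip hD k
  | cons k' w ih => exact ih.step k'

/-- reversal -/
theorem reversal {D : Dg} (hD : Val D.ι) (h : ∀ k, D.o k = D.ι (D.p k)) (hs : Tr 1 1 D D.sw)
    (w : List (Fin 3)) : Tr 1 ((-1) ^ w.length) (D.adds w) (D.adds w).sw := by
  have h1 : Tr 1 1 (D.adds w) (D.sw.adds w) := by
    have := hs.adds w
    simpa using this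
  have h2 : Tr 1 ((-1) ^ w.length) (D.sw.adds w) (D.adds w).sw := by
    clear h1
    induction w with
    | nil => exact Tr.refl _
    | cons k w ih =>
      have h3 : Tr 1 ((-1) ^ w.length) ((D.sw.adds w).add k) ((D.adds w).sw.add k) := ih.add k
      have h4 : Tr 1 (-1) ((D.adds w).sw.add k) ((D.adds w).add k).sw := (lab_o hD h w k).sw
      have h5 := h3.trans h4
      rw [List.length_cons, pow_succ']
      rw [one_mul] at h5
      exact h5
  simpa using h1.trans h2

theorem Tr.q {π : Equiv.Perm (Fin 3)} {ε : ℤˣ} {D D' : Dg} (h : Tr π ε D D') {d : ℕ}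
    {H : AddSubgroup A} (hs : Sz d H D.V D.L) (hD : Val D.ι) :
    TL.q H D'.ι = (ε : ℤ) • TL.q H D.ι := by
  obtain ⟨s, s', r, h1, h2, h3, h4⟩ := h
  rw [h1, q_au hs hD, h4]

theorem card_adds (D : Dg) (w : List (Fin 3)) : Nat.card (D.adds w).V = Nat.card D.V + w.length ∧
    Nat.card (D.adds w).L = Nat.card D.L + w.length := by
  induction w with
  | nil => exact ⟨rfl, rfl⟩
  | cons k w ih =>
    obtain ⟨h1, h2⟩ := ih
    have a1 : Nat.card (D.adds (k :: w)).V = Nat.card (D.adds w).V + 1 := by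
      show Nat.card (Option (D.adds w).V) = _
      exact Finite.card_option
    have a2 : Nat.card (D.adds (k :: w)).L = Nat.card (D.adds w).L + 1 := by
      show Nat.card (Option (D.adds w).L) = _
      exact Finite.card_option
    rw [a1, a2, h1, h2, List.length_cons]
    exact ⟨by ring, by ring⟩

end Pool.Agent.Helper1.TL
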