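import Pool.Agent.Helper1.TL.T

namespace Pool.Agent.Helper1.TL

open Finset
open Pool.Agent.Helper1.JD (Half Diag Moved vperm lperm emb ret moved_apply moved_apply')

theorem T_comp (d : Fin 3 → Q) : ∀ k k' : Fin 3, k ≠ k' →
    T (d (Equiv.swap k k' 0)) (d (Equiv.swap k k' 1)) (d (Equiv.swap k k' 2)) =
      - T (d 0) (d 1) (d 2) := by
  intro k k' hk
  have e01 := T_swap01 (d 0) (d 1) (d 2)
  have e12 := T_swap12 (d 0) (d 1) (d 2)
  have e02 := T_swap02 (d 0) (d 1) (d 2)
  fin_cases k <;> fin_cases k' <;> first | exact absurd rfl hk | exact e01 | exact e12 | exact e02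

theorem T_rot (d : Fin 3 → Q) (k : Fin 3) :
    T (d 0) (d 1) (d 2) = T (d k) (d (k + 1)) (d (k + 2)) := by
  have h1 := T_cyc (d 0) (d 1) (d 2)
  have h2 := T_cyc (d 1) (d 2) (d 0)
  fin_cases k
  · rfl
  · exact h1.symm
  · exact (h2.trans h1).symm

section
variable {R : Type*} [Ring R] {B : Type*} [AddCommGroup B] (X : Q → R) (τ : R →+ B)
variable {t l : ℕ}

/-- the product of the legs -/
def lv (c : Fin l → Q) : R := (List.ofFn fun j : Fin l => X (c j)).prod

/-- the product of the vertices -/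
def vp (c : Half t l → Q) : ℤ :=
  ∏ i : Fin t, T (c (Sum.inl (i, 0))) (c (Sum.inl (i, 1))) (c (Sum.inl (i, 2)))

/-- colourings -/
def col (ι : Half t l → Half t l) : Finset (Half t l → Q) :=
  univ.filter fun c => ∀ h, c (ι h) = (c h).swap

theorem mem_col {ι : Half t l → Half t l} {c : Half t l → Q} :
    c ∈ col ι ↔ ∀ h, c (ι h) = (c h).swap := by simp [col]

/-- the sum with an arbitrary function of the colours of the legs -/
def gsum (D : Diag t l) (ψ : (Fin l → Q) → B) : B :=
  ∑ c ∈ col D.ι, vp c • ψ fun j => c (Sum.inr j)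

/-- colouring sum -/
def csum (D : Diag t l) : B := gsum D fun c => τ (lv X c)

theorem gsum_moved {g : Equiv.Perm (Half t l)} {D D' : Diag t l} (h : Moved g D D')
    (ψ : (Fin l → Q) → B) :
    gsum D' ψ = ∑ c ∈ col D.ι, vp (fun x => c (g.symm x)) • ψ fun j => c (g.symm (Sum.inr j)) := by
  unfold gsum
  refine Finset.sum_bij' (fun c _ => fun x => c (g x)) (fun c _ => fun x => c (g.symm x))
    ?_ ?_ ?_ ?_ ?_
  · intro c hc
    rw [mem_col] at hc ⊢
    intro x
    have := hc (g x)
    rw [moved_apply h] at this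
    exact this
  · intro c hc
    rw [mem_col] at hc ⊢
    intro x
    rw [moved_apply' h]
    exact hc _
  · intro c _
    funext x
    simp
  · intro c _
    funext x
    simp
  · intro c _
    have e : (fun x => (fun x => c (g x)) (g.symm x)) = c := by
      funext x
      simp
    have e2 : (fun j => (fun x => c (g x)) (g.symm (Sum.inr j))) = fun j => c (Sum.inr j) := by
      funext x
      simp
    rw [e, e2]

theorem gsum_vert (s : Equiv.Perm (Fin t)) {D D' : Diag t l} (h : Moved (vperm s) D D')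
    (ψ : (Fin l → Q) → B) : gsum D' ψ = gsum D ψ := by
  rw [gsum_moved h]
  unfold gsum
  refine Finset.sum_congr rfl fun c _ => ?_
  congr 1
  unfold vp
  refine Fintype.prod_equiv (s.symm) _ _ fun i => ?_
  rfl

theorem gsum_as (i : Fin t) (k k' : Fin 3) (hk : k ≠ k') {D D' : Diag t l}
    (h : Moved (Equiv.swap (Sum.inl (i, k)) (Sum.inl (i, k'))) D D') (ψ : (Fin l → Q) → B) :
    gsum D' ψ = - gsum D ψ := by
  rw [gsum_moved h]
  unfold gsum
  rw [← Finset.sum_neg_distrib]
  refine Finset.sum_congr rfl fun c _ => ?_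
  rw [Equiv.symm_swap]
  have h2 : vp (fun x => c (Equiv.swap (Sum.inl (i, k)) (Sum.inl (i, k')) x)) = - vp c := by
    unfold vp
    rw [← Finset.mul_prod_erase univ _ (mem_univ i)]
    rw [← Finset.mul_prod_erase univ (fun i => T (c (Sum.inl (i, 0))) (c (Sum.inl (i, 1)))
      (c (Sum.inl (i, 2)))) (mem_univ i)]
    rw [← neg_mul]
    congr 1
    · rw [← T_comp (fun k => c (Sum.inl (i, k))) k k' hk]
      have key : ∀ k'' : Fin 3, (Equiv.swap (Sum.inl (i, k)) (Sum.inl (i, k')) :
          Equiv.Perm (Half t l)) (Sum.inl (i, k'')) = Sum.inl (i, Equiv.swap k k' k'') := by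
        intro k''
        simp only [Equiv.swap_apply_def, Sum.inl.injEq, Prod.mk.injEq, true_and]
        split_ifs <;> rfl
      beta_reduce
      rw [key, key, key]
    · refine Finset.prod_congr rfl fun j hj => ?_
      have hji : j ≠ i := Finset.ne_of_mem_erase hj
      have key : ∀ k'' : Fin 3, (Equiv.swap (Sum.inl (i, k)) (Sum.inl (i, k')) :
          Equiv.Perm (Half t l)) (Sum.inl (j, k'')) = Sum.inl (j, k'') := by
        intro k''
        apply Equiv.swap_apply_of_ne_of_ne <;> simp [hji]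
      beta_reduce
      rw [key, key, key]
  have h1 : (fun j => c ((Equiv.swap (Sum.inl (i, k)) (Sum.inl (i, k')) : Equiv.Perm (Half t l))
      (Sum.inr j))) = fun j => c (Sum.inr j) := by
    funext j
    rw [Equiv.swap_apply_of_ne_of_ne] <;> simp
  rw [h2, h1, neg_smul]

/-- the other vertices -/
def rest (i j : Fin t) (c : Half t l → Q) : ℤ :=
  ∏ v ∈ (univ.erase i).erase j,
    T (c (Sum.inl (v, 0))) (c (Sum.inl (v, 1))) (c (Sum.inl (v, 2)))

theorem vp_two {i j : Fin t} (hij : i ≠ j) (k k' : Fin 3) (c c' : Half t l → Q)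
    (h : ∀ v, v ≠ i → v ≠ j → ∀ s, c' (Sum.inl (v, s)) = c (Sum.inl (v, s))) :
    vp c' = T (c' (Sum.inl (i, k))) (c' (Sum.inl (i, k + 1))) (c' (Sum.inl (i, k + 2))) *
      T (c' (Sum.inl (j, k'))) (c' (Sum.inl (j, k' + 1))) (c' (Sum.inl (j, k' + 2))) *
      rest i j c := by
  rw [← T_rot (fun s => c' (Sum.inl (i, s))) k, ← T_rot (fun s => c' (Sum.inl (j, s))) k']
  unfold vp rest
  rw [← Finset.mul_prod_erase univ _ (mem_univ i)]
  rw [← Finset.mul_prod_erase (univ.erase i) _ (Finset.mem_erase.2 ⟨hij.symm, mem_univ j⟩)]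
  rw [mul_assoc]
  congr 2
  refine Finset.prod_congr rfl fun v hv => ?_
  have h1 : v ≠ j := Finset.ne_of_mem_erase hv
  have h2 : v ≠ i := Finset.ne_of_mem_erase (Finset.mem_of_mem_erase hv)
  rw [h v h2 h1, h v h2 h1, h v h2 h1]

/-- recolouring of an edge -/
def rec2 (x y : Half t l) (m : Q) (c : Half t l → Q) : Half t l → Q :=
  fun h => if h = x then m else if h = y then m.swap else c h

theorem rec2_mem {ι : Half t l → Half t l} (hι : ∀ h, ι (ι h) = h) (hne : ∀ h, ι h ≠ h)
    {x y : Half t l} (hxy : ι x = y)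
    (m : Q) {c : Half t l → Q} (hc : c ∈ col ι) : rec2 x y m c ∈ col ι := by
  rw [mem_col] at hc ⊢
  have hyx : ι y = x := by rw [← hxy, hι]
  have hn : x ≠ y := fun e => hne x (by rw [hxy, e])
  intro h
  unfold rec2
  by_cases h1 : h = x
  · subst h1
    rw [hxy, if_neg hn.symm, if_pos rfl, if_pos rfl]
  · by_cases h2 : h = y
    · subst h2
      rw [hyx, if_pos rfl, if_neg hn.symm, if_pos rfl, Prod.swap_swap]
    · have h3 : ι h ≠ x := fun e => h2 (by rw [← hxy, ← e, hι])
      have h4 : ι h ≠ y := fun e => h1 (by rw [← hyx, ← e, hι])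
      rw [if_neg h3, if_neg h4, if_neg h1, if_neg h2, hc]

theorem sum_rec {ι : Half t l → Half t l} (hι : ∀ h, ι (ι h) = h) (hne : ∀ h, ι h ≠ h)
    {x y : Half t l} (hxy : ι x = y) (F : (Half t l → Q) → B) :
    (9 : ℤ) • ∑ c ∈ col ι, F c = ∑ c ∈ col ι, ∑ m : Q, F (rec2 x y m c) := by
  have hn : y ≠ x := fun e => hne x (by rw [hxy, e])
  have e : (9 : ℤ) • ∑ c ∈ col ι, F c = ∑ c ∈ col ι, ∑ _m : Q, F c := by
    rw [Finset.smul_sum]
    refine Finset.sum_congr rfl fun c _ => ?_
    rw [Finset.sum_const, Finset.card_univ, ← natCast_zsmul]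
    rfl
  rw [e, ← Finset.sum_product', ← Finset.sum_product']
  refine Finset.sum_bij' (fun p _ => (rec2 x y p.2 p.1, p.1 x))
    (fun p _ => (rec2 x y p.2 p.1, p.1 x)) ?_ ?_ ?_ ?_ ?_
  · rintro ⟨c, m⟩ hc
    simp only [Finset.mem_product, mem_univ, and_true] at hc ⊢
    exact rec2_mem hι hne hxy m hc
  · rintro ⟨c, m⟩ hc
    simp only [Finset.mem_product, mem_univ, and_true] at hc ⊢
    exact rec2_mem hι hne hxy m hc
  · rintro ⟨c, m⟩ hc
    simp only [Finset.mem_product, mem_univ, and_true] at hc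
    rw [mem_col] at hc
    refine Prod.ext ?_ ?_
    · funext h
      show rec2 x y (c x) (rec2 x y m c) h = c h
      unfold rec2
      by_cases h1 : h = x
      · rw [if_pos h1, h1]
      · rw [if_neg h1, if_neg h1]
        by_cases h2 : h = y
        · rw [if_pos h2, h2, ← hxy, hc]
        · rw [if_neg h2, if_neg h2]
    · show rec2 x y m c x = m
      unfold rec2
      rw [if_pos rfl]
  · rintro ⟨c, m⟩ hc
    simp only [Finset.mem_product, mem_univ, and_true] at hc
    rw [mem_col] at hc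
    refine Prod.ext ?_ ?_
    · funext h
      show rec2 x y (c x) (rec2 x y m c) h = c h
      unfold rec2
      by_cases h1 : h = x
      · rw [if_pos h1, h1]
      · rw [if_neg h1, if_neg h1]
        by_cases h2 : h = y
        · rw [if_pos h2, h2, ← hxy, hc]
        · rw [if_neg h2, if_neg h2]
    · show rec2 x y m c x = m
      unfold rec2
      rw [if_pos rfl]
  · rintro ⟨c, m⟩ hc
    simp only [Finset.mem_product, mem_univ, and_true] at hc
    rw [mem_col] at hc
    show F c = F (rec2 x y (c x) (rec2 x y m c))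
    congr 1
    funext h
    unfold rec2
    by_cases h1 : h = x
    · rw [if_pos h1, h1]
    · rw [if_neg h1, if_neg h1]
      by_cases h2 : h = y
      · rw [if_pos h2, h2, ← hxy, hc]
      · rw [if_neg h2, if_neg h2]

end

end Pool.Agent.Helper1.TL
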